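import Pool.Agent.P.MP_ab0431_ag.GR.Base

/-! Statements: uniform bounds for the covers. -/

set_option autoImplicit false

namespace Pool.Agent.P.MP_ab0431_ag.GR

open Set Filter Topology Metric T
open scoped Manifold ContDiff

-- deps:
-- imports: Pool.Agent.P.MP_ab0431_ag.B.Ser
def S_ABE : Prop := ∀ (G : Type) [Group G] (A : Act G) (J : G → V → ℂ) (ρ : V → ℝ), Pk A J ρ →
  ∀ w₀ ∈ A.Ω, A.Fr w₀ → ∃ (f : V → ℂ) (κ : ℕ) (r : ℝ), IsPeak A ρ w₀ f κ ∧ 0 < r ∧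
    ball w₀ r ⊆ A.Ω ∧ ∀ᶠ k in atTop, ∀ w ∈ ball w₀ r, f w ≠ 0 ∧ ∀ S : Finset G, 1 ∉ S →
      3 * ∑ g ∈ S, (‖f (A.a g w)‖ * ρ (A.a g w)) ^ k ≤ (‖f w‖ * ρ w) ^ k

-- deps:
-- imports: Pool.Agent.P.MP_ab0431_ag.B.Ser
def S_CSEC : Prop := ∀ (G : Type) [Group G] (A : Act G) (J : G → V → ℂ) (ρ : V → ℝ) (w₀ : V)
  (f : V → ℂ) (κ k : ℕ) (H : Subgroup G) [H.FiniteIndex] (g₀ : G), Pk A J ρ →
  IsPeak A ρ w₀ f κ → κ ≤ k → ∃ t : V → ℂ, IsSec (A.res H) (fun g => J g) k t ∧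
    ∀ w ∈ A.Ω, HasSum (fun h : H => (f (A.a (g₀ * h) w) / J (g₀ * h) w) ^ k) (t w)

-- deps: ABE CSEC
def S_USEP : Prop := ∀ (G : Type) [Group G] (A : Act G) (J : G → V → ℂ) (ρ : V → ℝ) (Z : Set V),
  Pk A J ρ → Good A Z → ∀ᶠ k in atTop, ∀ (H : Subgroup G) [H.FiniteIndex],
    ∃ (N : ℕ) (t : Fin N → V → ℂ), (∀ i, IsSec (A.res H) (fun g => J g) k (t i)) ∧
      ∀ w ∈ Z, ∃ i, t i w ≠ 0 ∧
        ∀ g ∉ H, ‖t i (A.a g w)‖ * ρ (A.a g w) ^ k < ‖t i w‖ * ρ w ^ k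

-- deps: USEP
def S_UEMB : Prop := ∀ (G : Type) [Group G] (A : Act G) (J : G → V → ℂ) (ρ : V → ℝ) (Z : Set V),
  Pk A J ρ → Good A Z → Emb A J Z → ∀ᶠ m in atTop, ∀ (H : Subgroup G) [H.FiniteIndex],
    EmbAt (A.res H) (fun g => J g) Z m

-- deps:
-- imports: Pool.Agent.P.MP_ab0431_ag.B.Final
def S_VAMP : Prop := ∀ (G : Type) [Group G] (h : Hyp G) (H : Subgroup G) [H.FiniteIndex]
  (c : h.Ch H) (m : ℕ), EmbAt (h.toAct.res H) (fun g => JK h g) h.Zs m →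
  letI := h.cs H c; VeryAmple (h.Q H) m

-- deps:
-- imports: Pool.Agent.P.MP_ab0431_ag.B.Final
def S_FORMZ : Prop := ∀ (G : Type) [Group G] (h : Hyp G) (ρ : V → ℝ) (H : Subgroup G)
  (c : h.Ch H) (n : ℕ) (σ : OpenPartialHomeomorph (h.Q H) C2 → C2 → ℂ),
  Pk h.toAct (JK h) ρ → (letI := h.cs H c; IsForm (h.Q H) n σ) →
  ∃ τ : V → ℂ, ZSec h H n τ ∧ ∀ e P, h.Fits H e P → ∀ u ∈ P.W, τ (P.θ u) = σ e u * P.dd u ^ n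

-- deps:
def S_JETS : Prop := ∀ (ι : Type) [Fintype ι] (r k : ℕ) (c : ι → C2) (f : Fin r → ι → C2 → ℂ),
  (∀ l i, AnalyticAt ℂ (f l i) (c i)) → Fintype.card ι * k ^ 2 < r →
  ∃ a : Fin r → ℂ, a ≠ 0 ∧ ∀ i,
    (fun u => ∑ l, a l * f l i u) =O[𝓝 (c i)] fun u => ‖u - c i‖ ^ k

-- deps:
def S_SIEG : Prop := ∀ (ι : Type) [Finite ι] (k : ℕ) (c : ι → C2) (R : ι → ℝ) (M : ℝ)
  (f : ι → C2 → ℂ), (∀ i, DifferentiableOn ℂ (f i) (ball (c i) (R i))) →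
  (∀ i, f i =O[𝓝 (c i)] fun u => ‖u - c i‖ ^ k) →
  (∀ i, ∀ u ∈ ball (c i) (R i), ∃ i', ∃ u' ∈ ball (c i') (R i' / 2), ‖f i u‖ ≤ M * ‖f i' u'‖) →
  0 ≤ M → M < 2 ^ k → ∀ i, ∀ u ∈ ball (c i) (R i), f i u = 0

-- deps:
-- imports: Pool.Agent.P.MP_ab0431_ag.B.Final
def S_ZCOV : Prop := ∀ (G : Type) [Group G] (h : Hyp G) (ρ : V → ℝ), Pk h.toAct (JK h) ρ →
  ∃ (N b : ℕ) (P : Fin N → h.Par) (c : Fin N → C2) (R : Fin N → ℝ),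
    (∀ i, 0 < R i ∧ ball (c i) (R i) ⊆ (P i).W) ∧
    (∀ w ∈ h.Zs, ∃ g i, ∃ u ∈ ball (c i) (R i / 2), h.a g w = (P i).θ u) ∧
    ∀ i j, ∀ u ∈ ball (c i) (R i), ∀ u' ∈ ball (c j) (R j),
      ρ ((P j).θ u') ≤ 2 ^ b * ρ ((P i).θ u)

-- deps: JETS SIEG ZCOV
def S_ZBND : Prop := ∀ (G : Type) [Group G] (h : Hyp G) (ρ : V → ℝ), Pk h.toAct (JK h) ρ →
  ∃ C : ℕ, ∀ (H : Subgroup G) [H.FiniteIndex] (n r : ℕ) (τ : Fin r → V → ℂ), 0 < n →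
    (∀ l, ZSec h H n (τ l)) → C * H.index * n ^ 2 < r →
    ∃ a : Fin r → ℂ, a ≠ 0 ∧ ∀ w ∈ h.Zs, ∑ l, a l * τ l w = 0

-- deps: FORMZ ZBND
def S_KSQ : Prop := ∀ (G : Type) [Group G] (h : Hyp G) (ρ : V → ℝ), Pk h.toAct (JK h) ρ →
  ∃ C : ℕ, ∀ (H : Subgroup G) [H.FiniteIndex] (c : h.Ch H),
    letI := h.cs H c; KsqLe (h.Q H) (C * H.index)

-- deps: UEMB VAMP KSQ
-- imports: Pool.Agent.P.MP_ab0431_ag.B.Final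
def S_ABS2 : Prop := ∀ (G : Type) [Group G], Datum G → ∃ m₀ C : ℕ, ∀ H : Subgroup G,
  H.FiniteIndex → ∃ (Y : Surf) (y : Y.X), (∀ m ≥ m₀, VeryAmple Y.X m) ∧
    KsqLe Y.X (C * H.index) ∧ Nonempty (FundamentalGroup Y.X y ≃* H)

-- deps:
def S_TOD : Prop := ∀ (Y : Surf) (m : ℕ), VeryAmple Y.X m → DAmple (toD Y) m

-- deps:
def S_ARI : Prop := ∀ C₁ : ℕ, ∃ C > 0, ∀ y ≥ C, ∃ n, C₁ * (n + 1) ≤ y ∧
  y ^ (y / C) ≤ n ^ n ∧ y / C ≤ n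

end Pool.Agent.P.MP_ab0431_ag.GR
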