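import Pool.Agent.P.MP_ab0431_ag.GR.IfaceA
import Pool.Agent.P.MP_ab0431_ag.GR.IfaceC
import Pool.Agent.P.MP_ab0431_ag.B.Final
import Pool.Agent.P.MP_ab0431_ag.UB2.Main

/-! The two bounds from the main steps. -/

set_option autoImplicit false

namespace Pool.Agent.P.MP_ab0431_ag.GR

open Set Filter Topology T

theorem ksq_mono {X : Type} [TopologicalSpace X] [ChartedSpace C2 X] {y y' : ℕ} (h : KsqLe X y)
    (hy : y ≤ y') : KsqLe X y' :=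
  Eventually.mono h fun _ h r σ a b => (h r σ a b).trans (Nat.mul_le_mul_right _ hy)

theorem lower (hHOM : S_HOM) (hPI1 : S_PI1) (hABS2 : S_ABS2) (hTOD : S_TOD) :
    ∃ m₀ C : ℕ, ∀ m ≥ m₀, ∀ (N d y : ℕ) (K : Fin N → Subgroup Jac) (P : DSurf → Prop), 0 < d →
      C * d ≤ y → (∀ i, (K i).index = d) → (Pairwise fun i j => IsEmpty (K i ≃* K j)) →
      (∀ (X : DSurf) (i : Fin N), Function.Surjective X.ι →
        (∀ x, Nonempty (FundamentalGroup X.X x ≃* K i)) → P X) → (N : ℕ∞) ≤ NFam P m y := by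
  obtain ⟨D⟩ := all_DAT
  obtain ⟨m₀, C, h⟩ := hABS2 Jac D
  refine ⟨m₀, C, fun m hm N d y K P hd hy h1 h2 h3 => ?_⟩
  choose Y z a b c using fun i => h (K i) ⟨((h1 i).trans_gt hd).ne'⟩
  have hs : ∀ i, Function.Surjective (toD (Y i)).ι := fun _ => Function.surjective_id
  refine le_iSup₂_of_le N ⟨fun i => toD (Y i), fun i => ⟨h3 _ i (hs i) fun x => ?_,
    hTOD _ m (a i m hm), ksq_mono (b i) (h1 i ▸ hy)⟩, fun i j hij hf => ?_⟩ le_rfl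
  · have := (Y i).conn
    obtain ⟨e⟩ := hPI1 (Y i).X (Y i).X ⟨.refl _⟩ x (z i)
    exact ⟨e.trans (c i).some⟩
  · have := (Y j).conn
    have k : Nonempty (ContinuousMap.HomotopyEquiv (Y i).X (Y j).X) := hHOM _ _ (hs i) (hs j) hf
    obtain ⟨e⟩ := hPI1 (Y i).X (Y j).X k (z i) (z j)
    exact (h2 hij).false (((c i).some.symm.trans e).trans (c j).some)

theorem upper (m : ℕ) (hm : 0 < m) : ∃ C : ℕ, ∀ y ≥ 2, ∀ P : DSurf → Prop,
    NFam P m y ≤ (y ^ (C * y) : ℕ) := by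
  obtain ⟨C, h⟩ := UB.V2.t_MAIN m hm
  refine ⟨4 * C, fun y hy P => iSup₂_le fun n hX => Nat.cast_le.2 (not_lt.1 fun hn => ?_)⟩
  obtain ⟨X, a, b⟩ := hX
  have k : (y + 2) ^ (C * (y + 1)) ≤ y ^ (4 * C * y) := by
    refine (Nat.pow_le_pow_left (show y + 2 ≤ y ^ 2 by nlinarith) _).trans ?_
    rw [← pow_mul]
    exact Nat.pow_le_pow_right (by omega)
      (by nlinarith [Nat.mul_le_mul_left C (show 1 ≤ y by omega)])
  obtain ⟨i, j, hij, hf⟩ := h y n X (k.trans_lt hn) fun i => (a i).2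
  exact b hij hf

theorem growth (hHOM : S_HOM) (hPI1 : S_PI1) (hABS2 : S_ABS2) (hTOD : S_TOD) (hARI : S_ARI) :
    ∃ m₀ : ℕ, ∀ m ≥ m₀, ∃ C > 0, ∀ P : DSurf → Prop, (∀ X, Function.Surjective X.ι → P X) →
      ∀ y ≥ C, ((y ^ (y / C) : ℕ) : ℕ∞) ≤ NFam P m y ∧ NFam P m y ≤ (y ^ (C * y) : ℕ) := by
  obtain ⟨m₀, C₀, h⟩ := lower hHOM hPI1 hABS2 hTOD
  obtain ⟨C₁, h1⟩ := all_GRP.2
  obtain ⟨C₂, h0, h2⟩ := hARI (C₀ * C₁)
  refine ⟨m₀ + 1, fun m hm => ?_⟩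
  obtain ⟨C₃, h3⟩ := upper m (by omega)
  refine ⟨C₂ + C₃ + 2, by omega, fun P hP y hy => ⟨?_, (h3 y (by omega) P).trans ?_⟩⟩
  · obtain ⟨n, a, b, -⟩ := h2 y (by omega)
    obtain ⟨d, d0, d1, K, k1, k2⟩ := h1 n
    refine le_trans (Nat.cast_le.2 (le_trans ?_ b)) (h m (by omega) _ d y K P d0
      ((Nat.mul_le_mul_left _ d1).trans (by rwa [← mul_assoc])) k1 k2 fun X _ s _ => hP X s)
    exact Nat.pow_le_pow_right (by omega) (Nat.div_le_div_left (by omega) h0)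
  · exact Nat.cast_le.2 (Nat.pow_le_pow_right (by omega) (Nat.mul_le_mul_right _ (by omega)))

theorem growth0 (hHOM : S_HOM) (hPI1 : S_PI1) (hABS2 : S_ABS2) (hTOD : S_TOD) (hARI : S_ARI) :
    ∃ m₀ C : ℕ, 0 < C ∧ ∀ m ≥ m₀, ∀ P : DSurf → Prop, (∀ X, Function.Surjective X.ι →
      (∀ x, ∀ f : FundamentalGroup X.X x →* Multiplicative ℝ, f = 1) → P X) →
      ∀ y ≥ C, ((2 ^ (y / C) : ℕ) : ℕ∞) ≤ NFam P m y := by
  obtain ⟨m₀, C₀, h⟩ := lower hHOM hPI1 hABS2 hTOD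
  obtain ⟨C₁, h1⟩ := all_GRP.1
  obtain ⟨C, h0, h2⟩ := hARI (C₀ * C₁)
  refine ⟨m₀, C, h0, fun m hm P hP y hy => ?_⟩
  obtain ⟨n, a, -, b⟩ := h2 y hy
  obtain ⟨d, d0, d1, K, k1, k2⟩ := h1 n
  refine le_trans (Nat.cast_le.2 (Nat.pow_le_pow_right two_pos b)) (h m hm _ d y K P d0
    ((Nat.mul_le_mul_left _ d1).trans (by rwa [← mul_assoc])) (fun i => (k1 i).1) k2
    fun X i s e => hP X s fun x f => ?_)
  obtain ⟨e⟩ := e x
  ext g
  simpa using DFunLike.congr_fun ((k1 i).2 (f.comp e.symm.toMonoidHom)) (e g)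

end Pool.Agent.P.MP_ab0431_ag.GR
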