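import Pool.Agent.P.MP_ab0431_ag.GR.Defs
import Pool.Agent.P.MP_ab0431_ag.B.Base

/-! Working definitions: families, regular points, sections on the hypersurface. -/

set_option autoImplicit false

namespace Pool.Agent.P.MP_ab0431_ag.GR

open Set Filter Topology Metric
open scoped Manifold ContDiff

/-- The inverse function theorem. -/
theorem inv {E : Type} [NormedAddCommGroup E] [NormedSpace ℂ E] [FiniteDimensional ℂ E]
    {Φ : E → E} {p : E} {N : Set E} (ha : AnalyticAt ℂ Φ p)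
    (hi : Function.Injective (fderiv ℂ Φ p)) (hN : N ∈ 𝓝 p) :
    ∃ Ψ : OpenPartialHomeomorph E E, p ∈ Ψ.source ∧ Ψ.source ⊆ N ∧ (Ψ : E → E) = Φ ∧
      DifferentiableOn ℂ Ψ Ψ.source ∧ DifferentiableOn ℂ Ψ.symm Ψ.target := by
  have : CompleteSpace E := FiniteDimensional.complete ℂ E
  let L : E ≃L[ℂ] E :=
    (LinearEquiv.ofInjectiveEndo (fderiv ℂ Φ p).toLinearMap hi).toContinuousLinearEquiv
  have hd : HasFDerivAt Φ (L : E →L[ℂ] E) p := by
    convert ha.differentiableAt.hasFDerivAt using 1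
    ext; rfl
  have hc : ContDiffAt ℂ 1 Φ p := ha.contDiffAt
  let e := hc.toOpenPartialHomeomorph Φ hd one_ne_zero
  have he : p ∈ e.source := hc.mem_toOpenPartialHomeomorph_source hd one_ne_zero
  have h1 : ContDiffAt ℂ 1 e.symm (Φ p) := hc.to_localInverse hd one_ne_zero
  have h2 : ∀ᶠ y in 𝓝 p, DifferentiableAt ℂ e.symm (Φ y) :=
    ha.continuousAt.eventually
      ((h1.eventually (by simp)).mono fun _ h => h.differentiableAt one_ne_zero)
  obtain ⟨U, hU, ho, hp⟩ := _root_.mem_nhds_iff.1 (inter_mem hN (h2.and ha.eventually_analyticAt))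
  refine ⟨e.restrOpen U ho, ⟨he, hp⟩, fun y hy => (hU hy.2).1, rfl,
    fun y hy => (hU hy.2).2.2.differentiableAt.differentiableWithinAt, fun y hy => ?_⟩
  have h3 : Φ (e.symm y) = y := e.right_inv hy.1
  have h4 := (hU (show e.symm y ∈ U from hy.2)).2.1
  rw [h3] at h4
  exact h4.differentiableWithinAt

/-- A map that is differentiable near a point is analytic there. -/
theorem an_of_ev {E F : Type} [NormedAddCommGroup E] [NormedSpace ℂ E] [FiniteDimensional ℂ E]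
    [NormedAddCommGroup F] [NormedSpace ℂ F] [FiniteDimensional ℂ F] {f : E → F} {x : E}
    (h : ∀ᶠ y in 𝓝 x, DifferentiableAt ℂ f y) : AnalyticAt ℂ f x := by
  obtain ⟨U, h1, h2, h3⟩ := _root_.mem_nhds_iff.1 h
  exact MP_f17f76_ag.E.analyticOnNhd_of_diffOn h2 (fun y hy => (h1 hy).differentiableWithinAt) x h3

/-- A holomorphic immersion at `x`. -/
def ImAt {E F : Type} [NormedAddCommGroup E] [NormedSpace ℂ E] [NormedAddCommGroup F]
    [NormedSpace ℂ F] (f : E → F) (x : E) : Prop :=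
  DifferentiableAt ℂ f x ∧ Function.Injective (fderiv ℂ f x)

/-- The point `w` lies in a chart in which `p` is the second coordinate. -/
def PCh {W : Type} [TopologicalSpace W] (p : W → ℂ) (w : W) : Prop :=
  ∃ φ : OpenPartialHomeomorph W (C2 × ℂ), w ∈ φ.source ∧ ∀ w' ∈ φ.source, (φ w').2 = p w'

/-- `M (w, s)` moves the point `w` towards the level `s`. -/
structure Mov {W : Type} [TopologicalSpace W] (p : W → ℂ) (M : W × ℂ → W) : Prop where
  cont : Continuous M
  fix : ∀ w, M (w, p w) = w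
  seg : ∀ x, p (M x) ∈ segment ℝ (p x.1) x.2

/-- `q = (u, t)` is a singular point of the curve `D (·, t) = 0`. -/
def Sg (D : C2 × ℂ → ℂ) (q : C2 × ℂ) : Prop := D q = 0 ∧ ∀ v : C2, fderiv ℂ D q (v, 0) = 0

/-- The data of a family. -/
structure Fam where
  Z : Type
  [tZ : TopologicalSpace Z]
  [cZ : ChartedSpace (C2 × ℂ) Z]
  W : Type
  [tW : TopologicalSpace W]
  κ : Z → W
  U : Set ℂ
  p : W → ℂ
  t2 : T2Space W
  mfd : IsManifold 𝓘(ℂ, C2 × ℂ) ω Z
  emb : IsOpenEmbedding κ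
  op : IsOpen U
  conn : IsConnected U
  mem : ∀ w, p w ∈ U
  cont : Continuous p
  cpt : ∀ K ⊆ U, IsCompact K → IsCompact (p ⁻¹' K)
  subm : HolSubm (C2 × ℂ) ℂ (p ∘ κ)
  fin : ∀ t, (p ⁻¹' {t} \ range κ).Finite
  ch : ∀ w ∉ range κ, ∃ (D : C2 × ℂ → ℂ) (ψ : OpenPartialHomeomorph W (Dbl D)),
    DChart (C2 × ℂ) κ D ψ ∧ w ∈ ψ.source ∧ ∀ w' ∈ ψ.source, p w' = (ψ w').1.1.2

attribute [instance] Fam.tZ Fam.cZ Fam.tW Fam.t2 Fam.mfd

theorem fam_of {X Y : DSurf} (h : DFamily X Y) : ∃ F : Fam, DFibre X F.κ F.p ∧ DFibre Y F.κ F.p := by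
  obtain ⟨Z, _, _, W, _, κ, U, p, a, b, c, d, e, f, g, h, i, j, k, l, m⟩ := h
  exact ⟨⟨Z, W, κ, U, p, a, b, c, d, e, f, g, h, i, j, k⟩, l, m⟩

namespace Fam

variable (F : Fam)

/-- A chart of the total space at a double point. -/
def Ch (D : C2 × ℂ → ℂ) (ψ : OpenPartialHomeomorph F.W (Dbl D)) : Prop :=
  DChart (C2 × ℂ) F.κ D ψ ∧ ∀ w ∈ ψ.source, F.p w = (ψ w).1.1.2

theorem exCh {w : F.W} (h : w ∉ range F.κ) : ∃ D ψ, F.Ch D ψ ∧ w ∈ ψ.source := by
  obtain ⟨D, ψ, a, b, c⟩ := F.ch w h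
  exact ⟨D, ψ, ⟨a, c⟩, b⟩

/-- Near `x` the map `f` comes from a map to the manifold part that is an immersion at `x`. -/
def Im {E : Type} [NormedAddCommGroup E] [NormedSpace ℂ E] (f : E → F.W) (x : E) : Prop :=
  ∃ j : E → F.Z, (∀ᶠ y in 𝓝 x, f y = F.κ (j y)) ∧ MDifferentiableAt 𝓘(ℂ, E) 𝓘(ℂ, C2 × ℂ) j x ∧
    Function.Injective (mfderiv 𝓘(ℂ, E) 𝓘(ℂ, C2 × ℂ) j x)

/-- A product chart that is holomorphic on the manifold part. -/
def RC (φ : OpenPartialHomeomorph F.W (C2 × ℂ)) : Prop :=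
  (∀ w ∈ φ.source, (φ w).2 = F.p w) ∧ ∀ x ∈ φ.target, φ.symm x ∈ range F.κ → F.Im φ.symm x

/-- A regular point of the family. -/
def Reg (w : F.W) : Prop := ∃ φ, F.RC φ ∧ w ∈ φ.source

theorem Reg.pch {F : Fam} {w : F.W} (h : F.Reg w) : PCh F.p w :=
  h.elim fun φ h => ⟨φ, h.2, h.1.1⟩

theorem isOpen_reg : IsOpen {w | F.Reg w} :=
  isOpen_iff_mem_nhds.2 fun _ ⟨φ, a, b⟩ =>
    mem_of_superset (φ.open_source.mem_nhds b) fun _ h => ⟨φ, a, h⟩

/-- Near `w` the fibre over `t` is parametrised by an open subset of the plane, holomorphically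
off `w`. -/
def SG (t : ℂ) (w : F.W) : Prop :=
  ∃ (e : OpenPartialHomeomorph C2 (F.p ⁻¹' {t})) (x : C2), x ∈ e.source ∧ (e x).1 = w ∧
    ∀ᶠ y in 𝓝[≠] x, F.Im (fun z => (e z).1) y

end Fam

/-- A smooth surface as a surface with double points. -/
noncomputable def toD (Y : Surf) : DSurf where
  X := Y.X
  mfd := Y.mfd
  B := Y.X
  t2B := Y.t2
  cptB := Y.cpt
  conn := Y.conn
  ι := id
  emb := .id
  fin := by simp
  D := fun _ _ => 0
  ψ := fun q =>
    { toFun := fun _ => ⟨0, by simp⟩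
      invFun := fun _ => q
      source := ∅
      target := ∅
      map_source' := fun _ h => h
      map_target' := fun _ h => h
      left_inv' := fun _ h => h.elim
      right_inv' := fun _ h => h.elim
      open_source := isOpen_empty
      open_target := isOpen_empty
      continuousOn_toFun := continuousOn_empty _
      continuousOn_invFun := continuousOn_empty _ }
  dp := fun q h => absurd ⟨q, rfl⟩ h

open T

variable {G : Type} [Group G]

/-- Finitely many sections of weight `m` embed the quotient of `Z` in projective space. -/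
def EmbAt (A : Act G) (J : G → V → ℂ) (Z : Set V) (m : ℕ) : Prop :=
  ∃ (N : ℕ) (t : Fin N → V → ℂ), (∀ i, IsSec A J m (t i)) ∧ ∀ w ∈ Z, (∃ i, t i w ≠ 0) ∧
    (∀ (v : V) (c : ℂ), (∀ i, fderiv ℂ (t i) w v = c * t i w) → v = 0) ∧
    ∀ w' ∈ Z, ∀ c : ℂ, (∀ i, t i w = c * t i w') → ∃ g, A.a g w = w'

/-- An invariant closed subset of the domain on which the group acts freely. -/
structure Good (A : Act G) (Z : Set V) : Prop where
  sub : Z ⊆ A.Ω
  inv : ∀ g, ∀ w ∈ Z, A.a g w ∈ Z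
  cpt : ∀ F, IsCompact F → F ⊆ A.Ω → IsCompact (Z ∩ F)
  free : ∀ w ∈ Z, A.Fr w

/-- The factor of automorphy of the canonical bundle of the hypersurface. -/
noncomputable def JK (h : Hyp G) (g : G) (w : V) : ℂ := h.j g w / h.toAct.jac g w

/-- A holomorphic function on the hypersurface of weight `n` for the subgroup `H`. -/
def ZSec (h : Hyp G) (H : Subgroup G) (n : ℕ) (τ : V → ℂ) : Prop :=
  (∀ g ∈ H, ∀ w ∈ h.Zs, τ (h.a g w) = JK h g w ^ n * τ w) ∧
    ∀ (g : G) (P : h.Par), DifferentiableOn ℂ (fun u => τ (h.a g (P.θ u))) P.W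

end Pool.Agent.P.MP_ab0431_ag.GR
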