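import Pool.Agent.P.MP_ab0431_ag.UB2.Defs

/-!
The number of families of surfaces.
-/

namespace Pool.Agent.P.MP_ab0431_ag

/-- The largest number of surfaces of the class `P` with very ample `m`-th power of the dualising
sheaf and plurigenera bounded by `y`, no two of which are fibres of one family. -/
noncomputable def NFam (P : DSurf → Prop) (m y : ℕ) : ℕ∞ :=
  ⨆ (n : ℕ) (_ : ∃ X : Fin n → DSurf, (∀ i, P (X i) ∧ DAmple (X i) m ∧ KsqLe (X i).X y) ∧
    Pairwise fun i j => ¬ DFamily (X i) (X j)), (n : ℕ∞)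

end Pool.Agent.P.MP_ab0431_ag
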