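import Pool.Agent.P.MP_ab0431_ag.GR.Base

/-! Statements: fibres of a family are homotopy equivalent. -/

set_option autoImplicit false

namespace Pool.Agent.P.MP_ab0431_ag.GR

open Set Filter Topology Metric
open scoped Manifold ContDiff ContinuousMap

/-! Known steps, proved elsewhere. -/

def S_RIEM : Prop := ∀ (E F : Type) [NormedAddCommGroup E] [NormedSpace ℂ E]
  [NormedAddCommGroup F] [NormedSpace ℂ F] [CompleteSpace F] (g : E → ℂ) (f : E → F) (z₀ : E)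
  (C : ℝ), AnalyticAt ℂ g z₀ → (∃ᶠ z in 𝓝 z₀, g z ≠ 0) →
  (∀ᶠ z in 𝓝 z₀, g z ≠ 0 → DifferentiableAt ℂ f z ∧ ‖f z‖ ≤ C) →
  ∃ f', AnalyticAt ℂ f' z₀ ∧ ∀ᶠ z in 𝓝 z₀, g z ≠ 0 → f' z = f z

def S_MINM : Prop := ∀ (P : Type) [NormedAddCommGroup P] [NormedSpace ℂ P] (a : ℂ × P → ℂ)
  (x₀ : ℂ) (p₀ : P), AnalyticAt ℂ a (x₀, p₀) → a (x₀, p₀) = 0 →
  (∀ᶠ x in 𝓝[≠] x₀, a (x, p₀) ≠ 0) → ∀ N ∈ 𝓝 x₀, ∀ᶠ p in 𝓝 p₀, ∃ x ∈ N, a (x, p) = 0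

def S_AFORM : Prop := ∀ (P : Type) [NormedAddCommGroup P] [NormedSpace ℂ P] (a : ℂ × P → ℂ)
  (ξ : P → ℂ) (p₀ : P), AnalyticAt ℂ a (ξ p₀, p₀) → AnalyticAt ℂ ξ p₀ →
  (∀ᶠ q in 𝓝 (ξ p₀, p₀), a q = 0 → q.1 = ξ q.2) →
  ∃ (k : ℕ) (b : ℂ × P → ℂ), AnalyticAt ℂ b (ξ p₀, p₀) ∧ b (ξ p₀, p₀) ≠ 0 ∧
    ∀ᶠ q in 𝓝 (ξ p₀, p₀), a q = (q.1 - ξ q.2) ^ k * b q

def S_ARG : Prop :=
  ∀ (f : ℂ → ℂ) (c : ℂ) (R : ℝ), 0 < R → AnalyticOnNhd ℂ f (closedBall c R) →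
    (∀ t ∈ sphere c R, f t ≠ 0) →
    ∃ (Z : Finset ℂ) (m : ℂ → ℕ), (∀ t, t ∈ Z ↔ t ∈ ball c R ∧ f t = 0) ∧ (∀ t ∈ Z, 0 < m t) ∧
      ∀ h : ℂ → ℂ, AnalyticOnNhd ℂ h (closedBall c R) →
        (∮ t in C(c, R), h t * (deriv f t / f t)) =
          2 * Real.pi * Complex.I * ∑ t ∈ Z, (m t : ℂ) * h t

/-! Topology. -/

-- deps:
def S_MOVE : Prop := ∀ (W : Type) [TopologicalSpace W] [T2Space W] (p : W → ℂ) (w₀ : W),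
  Continuous p → PCh p w₀ → ∃ M, Mov p M ∧ ∀ᶠ x in 𝓝 (w₀, p w₀), p (M x) = x.2

-- deps: MOVE
def S_RETR : Prop := ∀ (W : Type) [TopologicalSpace W] [T2Space W] (p : W → ℂ) (t₀ : ℂ) (r₀ : ℝ),
  Continuous p → 0 < r₀ → IsCompact (p ⁻¹' closedBall t₀ r₀) → (∀ w, p w = t₀ → PCh p w) →
  ∃ r > 0, ∃ M, Mov p M ∧ ∀ w, p w ∈ ball t₀ r → ∀ s ∈ ball t₀ r, p (M (w, s)) = s

-- deps:
def S_HEQ : Prop := ∀ (W : Type) [TopologicalSpace W] (p : W → ℂ) (D : Set ℂ) (M : W × ℂ → W),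
  Continuous p → Convex ℝ D → Mov p M → (∀ w, p w ∈ D → ∀ s ∈ D, p (M (w, s)) = s) →
  ∀ s ∈ D, Nonempty ((p ⁻¹' {s} : Set W) ≃ₕ (p ⁻¹' D : Set W))

-- deps: RETR HEQ
def S_CHAIN : Prop := ∀ (W : Type) [TopologicalSpace W] [T2Space W] (p : W → ℂ) (U : Set ℂ),
  Continuous p → IsOpen U → IsPreconnected U → (∀ K ⊆ U, IsCompact K → IsCompact (p ⁻¹' K)) →
  (∀ w, p w ∈ U → PCh p w) →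
  ∀ s ∈ U, ∀ t ∈ U, Nonempty ((p ⁻¹' {s} : Set W) ≃ₕ (p ⁻¹' {t} : Set W))

-- deps:
def S_PI1 : Prop := ∀ (X Y : Type) [TopologicalSpace X] [TopologicalSpace Y] [ChartedSpace C2 Y]
  [ConnectedSpace Y], Nonempty (X ≃ₕ Y) → ∀ (x : X) (y : Y),
  Nonempty (FundamentalGroup X x ≃* FundamentalGroup Y y)

-- deps:
def S_CONN : Prop := ∀ U B : Set ℂ, IsOpen U → IsPreconnected U →
  (∀ t ∈ U, ∀ᶠ s in 𝓝[≠] t, s ∉ B) → IsOpen (U \ B) ∧ IsPreconnected (U \ B)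

/-! Local analysis. -/

-- deps:
def S_LINV : Prop := ∀ (E F : Type) [NormedAddCommGroup E] [NormedSpace ℂ E]
  [FiniteDimensional ℂ E] [NormedAddCommGroup F] [NormedSpace ℂ F] [FiniteDimensional ℂ F]
  (f : E → F) (x : E), AnalyticAt ℂ f x → Function.Injective (fderiv ℂ f x) →
  ∃ r : F → E, AnalyticAt ℂ r (f x) ∧ ∀ᶠ y in 𝓝 x, r (f y) = y

-- deps: RIEM
def S_RPT : Prop := ∀ (F : Type) [NormedAddCommGroup F] [NormedSpace ℂ F] [CompleteSpace F]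
  (f : C2 → F) (x : C2), ContinuousAt f x → (∀ᶠ y in 𝓝[≠] x, DifferentiableAt ℂ f y) →
  AnalyticAt ℂ f x

-- deps: LINV RPT
def S_INV1 : Prop := ∀ (D : C2 → ℂ) (e : OpenPartialHomeomorph C2 (Dbl D)) (x₀ : C2),
  x₀ ∈ e.source → (e x₀).1.2 = 0 → (∀ᶠ x in 𝓝[≠] x₀, ImAt (fun y => (e y).1) x) →
  ∃ σ : C2 → C2, AnalyticAt ℂ σ x₀ ∧ σ x₀ = x₀ ∧
    ∀ᶠ x in 𝓝 x₀, σ (σ x) = x ∧ (e (σ x)).1 = ((e x).1.1, -(e x).1.2)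

-- deps:
def S_INV2 : Prop := ∀ (σ : C2 → C2) (x₀ : C2), AnalyticAt ℂ σ x₀ → σ x₀ = x₀ →
  (∀ᶠ x in 𝓝 x₀, σ (σ x) = x) → ∃ (A : C2 →L[ℂ] C2) (g : OpenPartialHomeomorph C2 C2),
    (∀ v, A (A v) = v) ∧ 0 ∈ g.source ∧ g 0 = x₀ ∧ (∀ y ∈ g.source, ImAt g y) ∧
    ∀ᶠ y in 𝓝 0, g (A y) = σ (g y)

-- deps: MINM AFORM
def S_INV3 : Prop := ∀ (A : C2 →L[ℂ] C2) (a : C2 → ℂ) (b : C2 → C2) (D : C2 → ℂ),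
  (∀ v, A (A v) = v) → (∃ v, A v ≠ v) → AnalyticAt ℂ a 0 → AnalyticAt ℂ b 0 →
  AnalyticAt ℂ D (b 0) →
  (∀ᶠ y in 𝓝 0, a y ^ 2 = D (b y) ∧ b (A y) = b y ∧ (a y = 0 ↔ A y = y)) →
  (∀ᶠ y in 𝓝[≠] 0, ImAt (fun z => (b z, a z)) y) → fderiv ℂ D (b 0) ≠ 0

-- deps: INV1 INV2 INV3 RPT
def S_INV : Prop := ∀ (D : C2 → ℂ) (e : OpenPartialHomeomorph C2 (Dbl D)) (x₀ : C2),
  x₀ ∈ e.source → AnalyticAt ℂ D (e x₀).1.1 → (e x₀).1.2 = 0 → fderiv ℂ D (e x₀).1.1 = 0 →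
  (∀ᶠ x in 𝓝[≠] x₀, ImAt (fun y => (e y).1) x) → ∀ᶠ u in 𝓝 (e x₀).1.1, D u = 0

-- deps:
def S_HYPC : Prop := ∀ (D : C2 × ℂ → ℂ) (v : Dbl D), AnalyticAt ℂ D v.1.1 →
  (¬ Sg D v.1.1 ∨ ∀ᶠ q in 𝓝 v.1.1, D q = 0) →
  ∃ c : OpenPartialHomeomorph (Dbl D) (C2 × ℂ), v ∈ c.source ∧
    (∀ v' ∈ c.source, (c v').2 = v'.1.1.2) ∧ ∀ x ∈ c.target, ImAt (fun y => (c.symm y).1) x

-- deps:
def S_FLAT : Prop := ∀ (D : C2 × ℂ → ℂ) (e : OpenPartialHomeomorph (C2 × ℂ) (Dbl D))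
  (x : C2 × ℂ), x ∈ e.source → (∀ y ∈ e.source, (e y).1.1.2 = y.2) →
  (∀ᶠ y in 𝓝 x, ImAt (fun z => (e z).1) y) → (∀ᶠ u in 𝓝 (e x).1.1.1, D (u, x.2) = 0) →
  ∀ᶠ q in 𝓝 (e x).1.1, D q = 0

-- deps:
def S_PARC : Prop := ∀ (P : Type) [NormedAddCommGroup P] [NormedSpace ℂ P] [FiniteDimensional ℂ P]
  (g : ℂ × P → ℂ) (O : Set P) (c : ℂ) (R : ℝ), IsOpen O → 0 < R →
  AnalyticOnNhd ℂ g (sphere c R ×ˢ O) →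
  DifferentiableOn ℂ (fun x => ∮ z in C(c, R), g (z, x)) O

-- deps:
def S_NORM : Prop := ∀ (P : Type) [NormedAddCommGroup P] [NormedSpace ℂ P] (O : Set P) (d : ℕ)
  (Z : P → Multiset ℂ), (∀ x ∈ O, (Z x).card = d) →
  (∀ k : ℕ, DifferentiableOn ℂ (fun x => ((Z x).map (· ^ k)).sum) O) →
  DifferentiableOn ℂ (fun x => (Z x).prod) O

-- deps: ARG PARC
def S_ROOTS : Prop := ∀ (P : Type) [NormedAddCommGroup P] [NormedSpace ℂ P] [FiniteDimensional ℂ P]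
  (f : ℂ × P → ℂ) (O : Set (ℂ × P)) (z₀ : ℂ) (x₀ : P) (R : ℝ), IsOpen O → 0 < R →
  DifferentiableOn ℂ f O → (∀ z ∈ closedBall z₀ R, (z, x₀) ∈ O) →
  (∀ z ∈ sphere z₀ R, f (z, x₀) ≠ 0) →
  ∃ (O' : Set P) (d : ℕ) (Z : P → Multiset ℂ), IsOpen O' ∧ x₀ ∈ O' ∧
    (∀ x ∈ O', (∀ z ∈ closedBall z₀ R, (z, x) ∈ O) ∧ (Z x).card = d ∧
      ∀ z, z ∈ Z x ↔ z ∈ ball z₀ R ∧ f (z, x) = 0) ∧
    ∀ h : ℂ × P → ℂ, DifferentiableOn ℂ h O →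
      DifferentiableOn ℂ (fun x => ((Z x).map fun z => h (z, x)).sum) O'

-- deps: ROOTS NORM
def S_PROJ : Prop := ∀ (P : Type) [NormedAddCommGroup P] [NormedSpace ℂ P] [FiniteDimensional ℂ P]
  (S : Set (ℂ × P → ℂ)) (O : Set (ℂ × P)) (z₀ : ℂ) (x₀ : P) (N : Set ℂ), IsOpen O →
  (z₀, x₀) ∈ O → (∀ f ∈ S, DifferentiableOn ℂ f O) → N ∈ 𝓝 z₀ →
  (∀ᶠ z in 𝓝[≠] z₀, ∃ f ∈ S, f (z, x₀) ≠ 0) →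
  ∃ (N' : Set ℂ) (O' : Set P) (S' : Set (P → ℂ)), N' ∈ 𝓝 z₀ ∧ N' ⊆ N ∧ IsOpen O' ∧ x₀ ∈ O' ∧
    N' ×ˢ O' ⊆ O ∧ (∀ g ∈ S', DifferentiableOn ℂ g O') ∧
    ∀ x ∈ O', (∀ g ∈ S', g x = 0) ↔ ∃ z ∈ N', ∀ f ∈ S, f (z, x) = 0

-- deps: PROJ
def S_DICH : Prop := ∀ (S : Set (C2 × ℂ → ℂ)) (O : Set (C2 × ℂ)) (u₀ : C2) (t₀ : ℂ), IsOpen O →
  (u₀, t₀) ∈ O → (∀ f ∈ S, DifferentiableOn ℂ f O) →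
  (∀ᶠ u in 𝓝[≠] u₀, ∃ f ∈ S, f (u, t₀) ≠ 0) →
  (∃ᶠ q in 𝓝 (u₀, t₀), q.2 ≠ t₀ ∧ ∀ f ∈ S, f q = 0) →
  ∀ N ∈ 𝓝 u₀, ∀ᶠ t in 𝓝 t₀, ∃ u ∈ N, ∀ f ∈ S, f (u, t) = 0

/-! Families. -/

-- deps:
def S_TR : Prop := ∀ (F : Fam) (D : C2 × ℂ → ℂ) (ψ : OpenPartialHomeomorph F.W (Dbl D))
  (E : Type) [NormedAddCommGroup E] [NormedSpace ℂ E] (f : E → F.W) (x : E), F.Ch D ψ →
  F.Im f x → f x ∈ ψ.source → ImAt (fun y => (ψ (f y)).1) x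

-- deps: LINV
def S_TR2 : Prop := ∀ (F : Fam) (D : C2 × ℂ → ℂ) (ψ : OpenPartialHomeomorph F.W (Dbl D))
  (E : Type) [NormedAddCommGroup E] [NormedSpace ℂ E] (f : E → F.W) (x : E), F.Ch D ψ →
  ContinuousAt f x → f x ∈ range F.κ → f x ∈ ψ.source → ImAt (fun y => (ψ (f y)).1) x → F.Im f x

-- deps:
def S_REG1 : Prop := ∀ (F : Fam), ∀ w ∈ range F.κ, F.Reg w

-- deps: HYPC TR2
def S_REG2 : Prop := ∀ (F : Fam) (D : C2 × ℂ → ℂ) (ψ : OpenPartialHomeomorph F.W (Dbl D)),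
  F.Ch D ψ → ∀ w ∈ ψ.source, (¬ Sg D (ψ w).1.1 ∨ ∀ᶠ q in 𝓝 (ψ w).1.1, D q = 0) → F.Reg w

-- deps:
def S_SLICE : Prop := ∀ (F : Fam) (w : F.W), F.Reg w → F.SG (F.p w) w

-- deps: INV TR
def S_SGD : Prop := ∀ (F : Fam) (D : C2 × ℂ → ℂ) (ψ : OpenPartialHomeomorph F.W (Dbl D)) (t : ℂ),
  F.Ch D ψ → ∀ w ∈ ψ.source, F.SG t w → Sg D (ψ w).1.1 → ∀ᶠ u in 𝓝 (ψ w).1.1.1, D (u, t) = 0

-- deps: REG1 TR FLAT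
def S_DEG : Prop := ∀ (F : Fam) (D : C2 × ℂ → ℂ) (ψ : OpenPartialHomeomorph F.W (Dbl D)),
  F.Ch D ψ → ∀ w ∈ ψ.source, (∀ᶠ u in 𝓝 (ψ w).1.1.1, D (u, F.p w) = 0) →
  ∀ᶠ q in 𝓝 (ψ w).1.1, D q = 0

-- deps: REG1 REG2 SLICE SGD DEG
def S_NREG : Prop := ∀ (F : Fam), (∀ t w, F.SG t w → F.Reg w) ∧
  ∀ (D : C2 × ℂ → ℂ) (ψ : OpenPartialHomeomorph F.W (Dbl D)), F.Ch D ψ → ∀ w ∈ ψ.source,
    ¬ F.Reg w → ∀ᶠ w' in 𝓝 w, (¬ F.Reg w' ↔ Sg D (ψ w').1.1)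

-- deps: REG1 NREG DICH
def S_SPREAD : Prop := ∀ (F : Fam) (w : F.W),
  (∃ᶠ w' in 𝓝 w, F.p w' ≠ F.p w ∧ ¬ F.Reg w') →
  ∀ᶠ t in 𝓝 (F.p w), ∃ w', F.p w' = t ∧ ¬ F.Reg w'

-- deps: SPREAD
def S_BAD : Prop := ∀ (F : Fam), ∀ t₀ ∈ F.U, (∀ w, F.p w = t₀ → F.Reg w) →
  ∀ t ∈ F.U, ∀ᶠ s in 𝓝[≠] t, ∀ w, F.p w = s → F.Reg w

-- deps:
def S_FSG : Prop := ∀ (F : Fam) (X : DSurf), Function.Surjective X.ι → DFibre X F.κ F.p →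
  ∃ t ∈ F.U, (∀ w, F.p w = t → F.SG t w) ∧ Nonempty (X.X ≃ₜ (F.p ⁻¹' {t} : Set F.W))

-- deps: FSG NREG BAD CONN CHAIN
def S_HOM : Prop := ∀ X Y : DSurf, Function.Surjective X.ι → Function.Surjective Y.ι →
  DFamily X Y → Nonempty (X.X ≃ₕ Y.X)

end Pool.Agent.P.MP_ab0431_ag.GR
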