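import Pool.Agent.P.MP_ab0431_ag.GR.IfaceA

section

/-! Step MOVE. -/

set_option autoImplicit false

namespace Pool.Agent.P.MP_ab0431_ag.GR

open Set Filter Topology Metric
open scoped Manifold ContDiff ContinuousMap

namespace MOVEx

/-- A bump function. -/
noncomputable def bu {X : Type} [PseudoMetricSpace X] (c : X) (r : ℝ) (q : X) : ℝ :=
  max 0 (min 1 (2 - 4 * dist q c / r))

variable {X : Type} [PseudoMetricSpace X]

theorem bu_cont (c : X) (r : ℝ) : Continuous (bu c r) := by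
  unfold bu
  fun_prop

theorem bu_nonneg (c : X) (r : ℝ) (q : X) : 0 ≤ bu c r q := le_max_left _ _

theorem bu_le (c : X) (r : ℝ) (q : X) : bu c r q ≤ 1 :=
  max_le zero_le_one (min_le_left _ _)

theorem bu_ne {c : X} {r : ℝ} (hr : 0 < r) {q : X} (h : bu c r q ≠ 0) : dist q c < r / 2 := by
  by_contra hc
  apply h
  have h1 : r / 2 ≤ dist q c := not_lt.1 hc
  have h2 : 2 - 4 * dist q c / r ≤ 0 := by
    rw [sub_nonpos, le_div_iff₀ hr]
    linarith
  exact max_eq_left ((min_le_right _ _).trans h2)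

theorem bu_one {c : X} {r : ℝ} (hr : 0 < r) {q : X} (h : dist q c < r / 4) : bu c r q = 1 := by
  have h2 : 1 ≤ 2 - 4 * dist q c / r := by
    have : 4 * dist q c / r ≤ 1 := by
      rw [div_le_iff₀ hr]
      linarith
    linarith
  unfold bu
  rw [min_eq_left h2]
  exact max_eq_right zero_le_one

theorem seg_mem (a s : ℂ) {t : ℝ} (h0 : 0 ≤ t) (h1 : t ≤ 1) :
    a + t • (s - a) ∈ segment ℝ a s := by
  rw [segment_eq_image']
  exact ⟨t, ⟨h0, h1⟩, rfl⟩

end MOVEx

open MOVEx in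
theorem p_MOVE :
    S_MOVE := by
  classical
  intro W _ _ p w₀ hp ⟨φ, hw₀, hφ⟩
  set q0 : C2 × ℂ := φ w₀ with hq0
  have hq0t : q0 ∈ φ.target := φ.map_source hw₀
  obtain ⟨r, hr, hrt⟩ : ∃ r > 0, closedBall q0 r ⊆ φ.target :=
    nhds_basis_closedBall.mem_iff.1 (φ.open_target.mem_nhds hq0t)
  have hq2 : q0.2 = p w₀ := hφ w₀ hw₀
  let c : W × ℂ → ℝ := fun x => bu q0 r (φ x.1) * bu q0.2 r x.2
  let N : W × ℂ → C2 × ℂ := fun x => ((φ x.1).1, p x.1 + c x • (x.2 - p x.1))
  have hc0 : ∀ x, 0 ≤ c x := fun x => mul_nonneg (bu_nonneg _ _ _) (bu_nonneg _ _ _)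
  have hc1 : ∀ x, c x ≤ 1 := fun x =>
    mul_le_one₀ (bu_le _ _ _) (bu_nonneg _ _ _) (bu_le _ _ _)
  have hN0 : ∀ x : W × ℂ, x.1 ∈ φ.source → c x = 0 → N x = φ x.1 := by
    intro x hx h
    refine Prod.ext rfl ?_
    show p x.1 + c x • (x.2 - p x.1) = (φ x.1).2
    rw [h, zero_smul, add_zero, hφ _ hx]
  have hNt : ∀ x : W × ℂ, x.1 ∈ φ.source → N x ∈ φ.target := by
    intro x hx
    by_cases h : c x = 0
    · rw [hN0 x hx h]
      exact φ.map_source hx
    · have h1 : dist (φ x.1) q0 < r / 2 := bu_ne hr (left_ne_zero_of_mul h)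
      have h2 : dist x.2 q0.2 < r / 2 := bu_ne hr (right_ne_zero_of_mul h)
      apply hrt
      rw [Prod.dist_eq, max_lt_iff] at h1
      have h3 : p x.1 ∈ ball q0.2 (r / 2) := by
        rw [← hφ _ hx]
        exact h1.2
      have h4 : p x.1 + c x • (x.2 - p x.1) ∈ ball q0.2 (r / 2) :=
        (convex_ball q0.2 (r / 2)).segment_subset h3 h2 (seg_mem _ _ (hc0 x) (hc1 x))
      rw [mem_closedBall, Prod.dist_eq, max_le_iff]
      have h5 : dist (p x.1 + c x • (x.2 - p x.1)) q0.2 < r / 2 := h4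
      have h6 : dist (φ x.1).1 q0.1 < r / 2 := h1.1
      exact ⟨by show dist (φ x.1).1 q0.1 ≤ r; linarith,
        by show dist (p x.1 + c x • (x.2 - p x.1)) q0.2 ≤ r; linarith⟩
  let M : W × ℂ → W := fun x => if x.1 ∈ φ.source then φ.symm (N x) else x.1
  have hMs : ∀ x : W × ℂ, x.1 ∈ φ.source → M x = φ.symm (N x) := fun x hx => if_pos hx
  have hMn : ∀ x : W × ℂ, x.1 ∉ φ.source → M x = x.1 := fun x hx => if_neg hx
  have hpM : ∀ x : W × ℂ, x.1 ∈ φ.source → p (M x) = p x.1 + c x • (x.2 - p x.1) := by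
    intro x hx
    rw [hMs x hx, ← hφ _ (φ.map_target (hNt x hx)), φ.right_inv (hNt x hx)]
  let K : Set W := φ.symm '' closedBall q0 r
  have hK : IsCompact K :=
    (isCompact_closedBall q0 r).image_of_continuousOn (φ.continuousOn_symm.mono hrt)
  have hKs : K ⊆ φ.source := by
    rintro _ ⟨q, hq, rfl⟩
    exact φ.map_target (hrt hq)
  have hMK : ∀ x : W × ℂ, x.1 ∉ K → M x = x.1 := by
    intro x hx
    by_cases hs : x.1 ∈ φ.source
    · have h : c x = 0 := by
        by_contra h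
        have h1 : dist (φ x.1) q0 < r / 2 := bu_ne hr (left_ne_zero_of_mul h)
        exact hx ⟨φ x.1, by rw [mem_closedBall]; linarith, φ.left_inv hs⟩
      rw [hMs x hs, hN0 x hs h, φ.left_inv hs]
    · exact hMn x hs
  have hcont : Continuous M := by
    rw [continuous_iff_continuousAt]
    intro x
    by_cases hs : x.1 ∈ φ.source
    · have he : ∀ᶠ y : W × ℂ in 𝓝 x, y.1 ∈ φ.source :=
        continuous_fst.continuousAt.eventually (φ.open_source.mem_nhds hs)
      have h1 : ContinuousAt (fun y : W × ℂ => φ y.1) x :=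
        (φ.continuousAt hs).comp continuous_fst.continuousAt
      have h2 : ContinuousAt c x :=
        ((bu_cont q0 r).continuousAt.comp h1).mul
          ((bu_cont q0.2 r).continuousAt.comp continuous_snd.continuousAt)
      have h3 : ContinuousAt (fun y : W × ℂ => p y.1) x :=
        (hp.comp continuous_fst).continuousAt
      have h4 : ContinuousAt N x :=
        h1.fst.prodMk (h3.add (h2.smul (continuous_snd.continuousAt.sub h3)))
      have h5 : ContinuousAt (fun y => φ.symm (N y)) x :=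
        (φ.continuousAt_symm (hNt x hs)).comp h4
      exact h5.congr (he.mono fun y hy => (hMs y hy).symm)
    · have hx : x.1 ∈ Kᶜ := fun h => hs (hKs h)
      have he : ∀ᶠ y : W × ℂ in 𝓝 x, y.1 ∈ Kᶜ :=
        continuous_fst.continuousAt.eventually (hK.isClosed.isOpen_compl.mem_nhds hx)
      exact continuous_fst.continuousAt.congr (he.mono fun y hy => (hMK y hy).symm)
  refine ⟨M, ⟨hcont, fun w => ?_, fun x => ?_⟩, ?_⟩
  · by_cases hs : w ∈ φ.source
    · rw [hMs (w, p w) hs]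
      have : N (w, p w) = φ w := by
        refine Prod.ext rfl ?_
        show p w + c (w, p w) • (p w - p w) = (φ w).2
        rw [sub_self, smul_zero, add_zero, hφ _ hs]
      rw [this, φ.left_inv hs]
    · exact hMn (w, p w) hs
  · by_cases hs : x.1 ∈ φ.source
    · rw [hpM x hs]
      exact seg_mem _ _ (hc0 x) (hc1 x)
    · rw [hMn x hs]
      exact left_mem_segment ℝ _ _
  · have he : ∀ᶠ y : W × ℂ in 𝓝 (w₀, p w₀), y.1 ∈ φ.source :=
      continuous_fst.continuousAt.eventually (φ.open_source.mem_nhds hw₀)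
    have h1 : ContinuousAt (fun y : W × ℂ => φ y.1) (w₀, p w₀) :=
      ContinuousAt.comp (f := Prod.fst) (φ.continuousAt hw₀) continuous_fst.continuousAt
    have hr4 : 0 < r / 4 := by linarith
    have h2 : ∀ᶠ y : W × ℂ in 𝓝 (w₀, p w₀), φ y.1 ∈ ball q0 (r / 4) :=
      h1.eventually (ball_mem_nhds q0 hr4)
    have h3 : ∀ᶠ y : W × ℂ in 𝓝 (w₀, p w₀), y.2 ∈ ball q0.2 (r / 4) :=
      continuous_snd.continuousAt.eventually (by rw [hq2]; exact ball_mem_nhds (p w₀) hr4)
    filter_upwards [he, h2, h3] with y hy hy2 hy3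
    have h4 : c y = 1 := by
      show bu q0 r (φ y.1) * bu q0.2 r y.2 = 1
      rw [bu_one hr hy2, bu_one hr hy3, one_mul]
    rw [hpM y hy, h4, one_smul, add_sub_cancel]

end Pool.Agent.P.MP_ab0431_ag.GR

end

section

/-! Step RETR. -/

set_option autoImplicit false

namespace Pool.Agent.P.MP_ab0431_ag.GR

open Set Filter Topology Metric
open scoped Manifold ContDiff ContinuousMap

namespace RETRx

variable {W : Type} [TopologicalSpace W] {p : W → ℂ} {M M' : W × ℂ → W}

theorem comp (h : Mov p M) (h' : Mov p M') : Mov p fun x => M' (M x, x.2) where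
  cont := h'.cont.comp (h.cont.prodMk continuous_snd)
  fix w := by simp only [h.fix, h'.fix]
  seg x := (convex_segment _ _).segment_subset (h.seg x) (right_mem_segment _ _ _)
    (h'.seg (M x, x.2))

end RETRx

theorem p_RETR (hMOVE : S_MOVE) :
    S_RETR := by
  intro W _ _ p t₀ r₀ hp hr hc hch
  have hK : IsCompact (p ⁻¹' {t₀}) := hc.of_isClosed_subset (isClosed_singleton.preimage hp)
    (preimage_mono (singleton_subset_iff.2 (mem_closedBall_self hr.le)))
  obtain ⟨M, hM, h⟩ : ∃ M, Mov p M ∧ ∀ w ∈ p ⁻¹' {t₀}, p w = t₀ →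
      ∀ᶠ x in 𝓝 (w, t₀), p (M x) = x.2 := by
    refine hK.induction_on (p := fun s => ∃ M, Mov p M ∧ ∀ w ∈ s, p w = t₀ →
      ∀ᶠ x in 𝓝 (w, t₀), p (M x) = x.2) ?_ ?_ ?_ ?_
    · exact ⟨Prod.fst, ⟨continuous_fst, fun _ => rfl, fun _ => left_mem_segment _ _ _⟩, by simp⟩
    · rintro s t hst ⟨M, hM, h⟩
      exact ⟨M, hM, fun w hw => h w (hst hw)⟩
    · rintro s t ⟨M, hM, h⟩ ⟨M', hM', h'⟩
      refine ⟨_, RETRx.comp hM hM', fun w hw e => ?_⟩
      rcases hw with hw | hw
      · refine (h w hw e).mono fun x hx => ?_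
        rw [← hx, hM'.fix]
      · have c : Tendsto (fun x : W × ℂ => (M x, x.2)) (𝓝 (w, t₀)) (𝓝 (w, t₀)) := by
          have := (hM.cont.prodMk continuous_snd).tendsto (w, t₀)
          rwa [show M (w, t₀) = w from e ▸ hM.fix w] at this
        exact c.eventually (h' w hw e)
    · intro w hw
      obtain ⟨M, hM, h⟩ := hMOVE W p w hp (hch w hw)
      rw [show p w = t₀ from hw] at h
      exact ⟨_, mem_nhdsWithin_of_mem_nhds (((continuous_id.prodMk continuous_const).tendsto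
        w).eventually (eventually_eventually_nhds.2 h)), M, hM, fun w hw _ => hw⟩
  obtain ⟨u, v, hu, hv, hKu, htv, huv⟩ := generalized_tube_lemma hK (isCompact_singleton (x := t₀))
    (isOpen_setOfPred_eventually_nhds (p := fun x : W × ℂ => p (M x) = x.2)) (by
      rintro ⟨w, s⟩ ⟨hw, rfl⟩
      exact h w hw hw)
  have hC : IsClosed (p '' (p ⁻¹' closedBall t₀ r₀ \ u)) := ((hc.diff hu).image hp).isClosed
  obtain ⟨r, r0, hb⟩ := Metric.mem_nhds_iff.1 (inter_mem (hC.isOpen_compl.mem_nhds (x := t₀)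
    fun ⟨w, hw, e⟩ => hw.2 (hKu e)) (inter_mem (hv.mem_nhds (htv rfl)) (closedBall_mem_nhds t₀ hr)))
  refine ⟨r, r0, M, hM, fun w hw s hs => ?_⟩
  have hwu : w ∈ u := by_contra fun n => (hb hw).1 ⟨w, ⟨(hb hw).2.2, n⟩, rfl⟩
  exact Eventually.self_of_nhds (p := fun x : W × ℂ => p (M x) = x.2) (x := (w, s))
    (huv (mk_mem_prod hwu (hb hs).2.1))

end Pool.Agent.P.MP_ab0431_ag.GR

end

section

/-! Step HEQ. -/

set_option autoImplicit false

namespace Pool.Agent.P.MP_ab0431_ag.GR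

open Set Filter Topology Metric
open scoped Manifold ContDiff ContinuousMap

theorem p_HEQ :
    S_HEQ := by
  intro W _ p D M hp hD hM hlev s hs
  have hin : ∀ w : (p ⁻¹' {s} : Set W), w.1 ∈ p ⁻¹' D := fun w => by
    have h : p w.1 = s := w.2
    show p w.1 ∈ D
    rw [h]; exact hs
  have hback : ∀ w : (p ⁻¹' D : Set W), M (w.1, s) ∈ p ⁻¹' {s} := fun w =>
    hlev w.1 w.2 s hs
  let f : C((p ⁻¹' {s} : Set W), (p ⁻¹' D : Set W)) :=
    ⟨fun w => ⟨w.1, hin w⟩, continuous_subtype_val.subtype_mk _⟩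
  let g : C((p ⁻¹' D : Set W), (p ⁻¹' {s} : Set W)) :=
    ⟨fun w => ⟨M (w.1, s), hback w⟩,
      (hM.cont.comp (continuous_subtype_val.prodMk continuous_const)).subtype_mk _⟩
  have hmem : ∀ (τ : unitInterval) (w : (p ⁻¹' D : Set W)),
      (1 - (τ : ℝ)) • s + (τ : ℝ) • p w.1 ∈ D := fun τ w =>
    hD hs w.2 (sub_nonneg.2 τ.2.2) τ.2.1 (by ring)
  have hH : ∀ x : unitInterval × (p ⁻¹' D : Set W),
      M (x.2.1, (1 - (x.1 : ℝ)) • s + (x.1 : ℝ) • p x.2.1) ∈ p ⁻¹' D := fun x => by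
    show p _ ∈ D
    rw [hlev _ x.2.2 _ (hmem x.1 x.2)]
    exact hmem x.1 x.2
  have hc : Continuous fun x : unitInterval × (p ⁻¹' D : Set W) =>
      M (x.2.1, (1 - (x.1 : ℝ)) • s + (x.1 : ℝ) • p x.2.1) := by
    refine hM.cont.comp (Continuous.prodMk (by fun_prop) ?_)
    have h1 : Continuous fun x : unitInterval × (p ⁻¹' D : Set W) => p x.2.1 :=
      hp.comp (by fun_prop)
    have h2 : Continuous fun x : unitInterval × (p ⁻¹' D : Set W) => (x.1 : ℝ) := by fun_prop
    exact ((continuous_const.sub h2).smul continuous_const).add (h2.smul h1)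
  refine ⟨⟨f, g, ?_, ?_⟩⟩
  · have : g.comp f = ContinuousMap.id _ := by
      ext w
      have h : p w.1 = s := w.2
      show M (w.1, s) = w.1
      have h2 := hM.fix w.1
      rwa [h] at h2
    rw [this]
  · refine ⟨⟨⟨fun x => ⟨_, hH x⟩, hc.subtype_mk _⟩, fun w => ?_, fun w => ?_⟩⟩
    · apply Subtype.ext
      show M (w.1, (1 - ((0 : unitInterval) : ℝ)) • s + ((0 : unitInterval) : ℝ) • p w.1)
        = M (w.1, s)
      simp
    · apply Subtype.ext
      show M (w.1, (1 - ((1 : unitInterval) : ℝ)) • s + ((1 : unitInterval) : ℝ) • p w.1) = w.1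
      simpa using hM.fix w.1

end Pool.Agent.P.MP_ab0431_ag.GR

end

section

/-! Step CHAIN. -/

set_option autoImplicit false

namespace Pool.Agent.P.MP_ab0431_ag.GR

open Set Filter Topology Metric
open scoped Manifold ContDiff ContinuousMap

theorem p_CHAIN (hRETR : S_RETR) (hHEQ : S_HEQ) :
    S_CHAIN := by
  intro W _ _ p U hp hU hc hK hP s hs t ht
  refine hc.induction₂' (fun s t => Nonempty ((p ⁻¹' {s} : Set W) ≃ₕ (p ⁻¹' {t} : Set W)))
    (fun x hx => ?_) (fun x y z _ _ _ h1 h2 => ⟨h1.some.trans h2.some⟩) hs ht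
  obtain ⟨ε, hε, hb⟩ := Metric.isOpen_iff.1 hU x hx
  have hsub : closedBall x (ε / 2) ⊆ U := (closedBall_subset_ball (by linarith)).trans hb
  obtain ⟨r, hr, M, hM, hfix⟩ := hRETR W p x (ε / 2) hp (by linarith)
    (hK _ hsub (isCompact_closedBall _ _)) (fun w hw => hP w (hw ▸ hx))
  have hE := hHEQ W p (ball x r) M hp (convex_ball _ _) hM hfix
  filter_upwards [mem_nhdsWithin_of_mem_nhds (ball_mem_nhds x hr)] with y hy
  obtain ⟨e1⟩ := hE x (mem_ball_self hr)
  obtain ⟨e2⟩ := hE y hy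
  exact ⟨⟨e1.trans e2.symm⟩, ⟨e2.trans e1.symm⟩⟩

end Pool.Agent.P.MP_ab0431_ag.GR

end

section

/-! Step PI1. -/

set_option autoImplicit false

namespace Pool.Agent.P.MP_ab0431_ag.GR

open Set Filter Topology Metric
open scoped Manifold ContDiff ContinuousMap

theorem p_PI1 :
    S_PI1 := by
  rintro X Y _ _ _ _ ⟨e⟩ x y
  have h1 : LocallyPathConnectedSpace Y := ChartedSpace.locallyPathConnectedSpace C2 Y
  have h2 : PathConnectedSpace Y := pathConnectedSpace_iff_connectedSpace.2 inferInstance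
  let E := FundamentalGroupoidFunctor.equivOfHomotopyEquiv e
  exact ⟨(E.fullyFaithfulFunctor.mulEquivEnd (FundamentalGroupoid.mk x)).trans
    (FundamentalGroup.fundamentalGroupMulEquivOfPathConnected
      (E.functor.obj (FundamentalGroupoid.mk x)).as y)⟩

end Pool.Agent.P.MP_ab0431_ag.GR

end

section

/-! Step CONN. -/

set_option autoImplicit false

namespace Pool.Agent.P.MP_ab0431_ag.GR

open Set Filter Topology Metric
open scoped Manifold ContDiff ContinuousMap

namespace CONNx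

theorem punct (t : ℂ) (r : ℝ) : IsPreconnected (ball t r \ {t}) := by
  have e : ball t r \ {t} = (fun p : ℝ × ℝ => circleMap t p.1 p.2) '' (Ioo 0 r ×ˢ univ) := by
    ext w
    constructor
    · rintro ⟨h1, h2⟩
      refine ⟨(‖w - t‖, Complex.arg (w - t)), ⟨⟨norm_pos_iff.2 (sub_ne_zero.2 h2), ?_⟩, trivial⟩, ?_⟩
      · rwa [mem_ball, dist_eq_norm] at h1
      · simp only [circleMap]
        rw [Complex.norm_mul_exp_arg_mul_I]
        ring
    · rintro ⟨p, ⟨⟨h0, h1⟩, -⟩, rfl⟩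
      have h := circleMap_mem_sphere t h0.le p.2
      rw [mem_sphere] at h
      refine ⟨?_, fun e => ?_⟩
      · rw [mem_ball]
        exact h.trans_lt h1
      · have e' : circleMap t p.1 p.2 = t := e
        rw [e', dist_self] at h
        exact h0.ne h
  rw [e]
  refine (isPreconnected_Ioo.prod isPreconnected_univ).image _ (Continuous.continuousOn ?_)
  unfold circleMap
  fun_prop

theorem ev {u : Set ℂ} {t : ℂ} (h : ∀ᶠ s in 𝓝[≠] t, s ∈ u) (hu : IsOpen u) :
    ∀ᶠ x in 𝓝 t, ∀ᶠ s in 𝓝[≠] x, s ∈ u := by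
  rw [eventually_nhdsWithin_iff] at h
  filter_upwards [h] with x hx
  by_cases e : x = t
  · rw [e, eventually_nhdsWithin_iff]
    exact h
  · exact mem_nhdsWithin_of_mem_nhds (hu.mem_nhds (hx e))

end CONNx

theorem p_CONN :
    S_CONN := by
  intro U B hU hc hB
  have hev : ∀ t ∈ U, ∀ᶠ s in 𝓝[≠] t, s ∈ U \ B := fun t ht =>
    Filter.Eventually.and (p := fun s => s ∈ U) (mem_nhdsWithin_of_mem_nhds (hU.mem_nhds ht))
      (hB t ht)
  refine ⟨isOpen_iff_mem_nhds.2 fun t ht => ?_, ?_⟩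
  · have h := hev t ht.1
    rw [eventually_nhdsWithin_iff] at h
    filter_upwards [h] with x hx
    by_cases e : x = t
    · rw [e]; exact ht
    · exact hx e
  · rw [isPreconnected_iff_subset_of_disjoint] at hc ⊢
    intro u v hu hv huv hd
    have key : ∀ w w' : Set ℂ, IsOpen w' →
        (U \ B) ∩ (w ∩ w') = ∅ → U \ B ⊆ w ∪ w' → U ⊆ {t | ∀ᶠ s in 𝓝[≠] t, s ∈ w} → U \ B ⊆ w := by
      intro w w' hw' hd' hc' hs t ht
      refine (hc' ht).resolve_right fun h' => ?_
      have a1 : ∀ᶠ s in 𝓝[≠] t, s ∈ w := hs ht.1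
      have a2 : ∀ᶠ s in 𝓝[≠] t, s ∈ w' := mem_nhdsWithin_of_mem_nhds (hw'.mem_nhds h')
      obtain ⟨s, h1, h2, h3⟩ := ((hev t ht.1).and (a1.and a2)).exists
      exact (hd' ▸ (⟨h1, h2, h3⟩ : s ∈ (U \ B) ∩ (w ∩ w')) : s ∈ (∅ : Set ℂ))
    rcases hc {t | ∀ᶠ s in 𝓝[≠] t, s ∈ u} {t | ∀ᶠ s in 𝓝[≠] t, s ∈ v}
      (isOpen_iff_mem_nhds.2 fun t ht => CONNx.ev ht hu)
      (isOpen_iff_mem_nhds.2 fun t ht => CONNx.ev ht hv) (fun t ht => by
        have h := hev t ht
        rw [eventually_nhdsWithin_iff, Metric.eventually_nhds_iff_ball] at h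
        obtain ⟨r, hr, h⟩ := h
        have hs : ball t r \ {t} ⊆ U \ B := fun x hx => h x hx.1 hx.2
        have hm : ball t r \ {t} ∈ 𝓝[≠] t := sdiff_mem_nhdsWithin_compl (ball_mem_nhds t hr) _
        rcases isPreconnected_iff_subset_of_disjoint.1 (CONNx.punct t r) u v hu hv (hs.trans huv)
          (subset_empty_iff.1 (hd ▸ inter_subset_inter_left _ hs)) with h | h
        · exact Or.inl (mem_of_superset hm h)
        · exact Or.inr (mem_of_superset hm h))
      (subset_empty_iff.1 fun t ht => by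
        have a1 : ∀ᶠ s in 𝓝[≠] t, s ∈ u := ht.2.1
        have a2 : ∀ᶠ s in 𝓝[≠] t, s ∈ v := ht.2.2
        obtain ⟨s, h1, h2, h3⟩ := ((hev t ht.1).and (a1.and a2)).exists
        exact (hd ▸ (⟨h1, h2, h3⟩ : s ∈ (U \ B) ∩ (u ∩ v)) : s ∈ (∅ : Set ℂ))) with h | h
    · exact Or.inl (key u v hv hd huv h)
    · exact Or.inr (key v u hu
        (by rw [inter_comm v u]; exact hd) (by rw [union_comm]; exact huv) h)

end Pool.Agent.P.MP_ab0431_ag.GR

end

section

/-! Step LINV. -/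

set_option autoImplicit false

namespace Pool.Agent.P.MP_ab0431_ag.GR

open Set Filter Topology Metric
open scoped Manifold ContDiff ContinuousMap

theorem p_LINV :
    S_LINV := by
  intro E F _ _ _ _ _ _ f x ha hi
  obtain ⟨g, hg⟩ := (fderiv ℂ f x).toLinearMap.exists_leftInverse_of_injective
    (LinearMap.ker_eq_bot.2 hi)
  let L : F →L[ℂ] E := LinearMap.toContinuousLinearMap g
  have hL : ∀ v, L (fderiv ℂ f x v) = v := fun v => LinearMap.congr_fun hg v
  have hd : fderiv ℂ (fun y => L (f y)) x = L.comp (fderiv ℂ f x) :=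
    (L.hasFDerivAt.comp x ha.differentiableAt.hasFDerivAt).fderiv
  obtain ⟨Ψ, h1, -, h3, -, h5⟩ := inv (Φ := fun y => L (f y)) (p := x) (N := univ)
    ((L.analyticAt _).comp ha) (by
      rw [hd]
      exact fun u v h => (hL u).symm.trans (h.trans (hL v))) univ_mem
  have e : ∀ y, Ψ y = L (f y) := fun y => congrFun h3 y
  have ht : L (f x) ∈ Ψ.target := e x ▸ Ψ.map_source h1
  refine ⟨fun z => Ψ.symm (L z), (an_of_ev ?_).comp (L.analyticAt _), ?_⟩
  · filter_upwards [Ψ.open_target.mem_nhds ht] with z hz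
    exact (h5 z hz).differentiableAt (Ψ.open_target.mem_nhds hz)
  · filter_upwards [Ψ.open_source.mem_nhds h1] with y hy
    rw [← e, Ψ.left_inv hy]

end Pool.Agent.P.MP_ab0431_ag.GR

end

section

/-! Step RPT. -/

set_option autoImplicit false

namespace Pool.Agent.P.MP_ab0431_ag.GR

open Set Filter Topology Metric
open scoped Manifold ContDiff ContinuousMap

namespace RPTx

/-- The complement of a line is dense. -/
theorem freq (z : C2) (c : ℂ) : ∃ᶠ y in 𝓝 z, y 0 - c ≠ 0 := by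
  by_cases hz : z 0 - c = 0
  · have h1 : Tendsto (fun s : ℂ => (z + fun _ => s : C2)) (𝓝[≠] 0) (𝓝 z) := by
      have : Continuous fun s : ℂ => (z + fun _ => s : C2) := by fun_prop
      have h := this.tendsto 0
      have e : (z + fun _ => (0 : ℂ) : C2) = z := by ext; simp
      rw [e] at h
      exact h.mono_left nhdsWithin_le_nhds
    refine h1.frequently (Eventually.frequently ?_)
    filter_upwards [self_mem_nhdsWithin] with s hs
    have : (z + fun _ => s : C2) 0 - c = s := by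
      simp only [Pi.add_apply]
      linear_combination hz
    rw [this]
    exact hs
  · have : Continuous (fun y : C2 => y 0 - c) := (continuous_apply 0).sub continuous_const
    exact (this.continuousAt.eventually_ne hz).frequently

end RPTx

theorem p_RPT (hRIEM : S_RIEM) :
    S_RPT := by
  intro F _ _ _ f x hc hd
  have hg : AnalyticAt ℂ (fun y : C2 => y 0 - x 0) x :=
    ((ContinuousLinearMap.proj (0 : Fin 2) : C2 →L[ℂ] ℂ).analyticAt x).sub analyticAt_const
  have hd' : ∀ᶠ y in 𝓝 x, y ≠ x → DifferentiableAt ℂ f y := eventually_nhdsWithin_iff.1 hd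
  have hb : ∀ᶠ y in 𝓝 x, ‖f y‖ ≤ ‖f x‖ + 1 :=
    (hc.norm.eventually (gt_mem_nhds (lt_add_one ‖f x‖))).mono fun _ h => h.le
  obtain ⟨f', h1, h2⟩ := hRIEM C2 F (fun y => y 0 - x 0) f x (‖f x‖ + 1) hg (RPTx.freq x _)
    ((hd'.and hb).mono fun y h hy => ⟨h.1 fun e => hy (by rw [e, sub_self]), h.2⟩)
  refine h1.congr ?_
  filter_upwards [h1.eventually_analyticAt, h2.eventually_nhds, hd'] with z h3 h4 h5
  have h6 : ContinuousAt f z := by
    by_cases e : z = x
    · rw [e]; exact hc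
    · exact (h5 e).continuousAt
  exact tendsto_nhds_unique_of_frequently_eq h3.continuousAt h6
    (((RPTx.freq z (x 0)).and_eventually h4).mono fun y h => h.2 h.1)

end Pool.Agent.P.MP_ab0431_ag.GR

end

section

/-! Step INV1. -/

set_option autoImplicit false

namespace Pool.Agent.P.MP_ab0431_ag.GR

open Set Filter Topology Metric
open scoped Manifold ContDiff ContinuousMap

theorem p_INV1 (hLINV : S_LINV) (hRPT : S_RPT) :
    S_INV1 := by
  intro D e x₀ hx h0 hI
  let τ : Dbl D → Dbl D := fun v => ⟨(v.1.1, -v.1.2), (neg_sq _).trans v.2⟩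
  have τc : Continuous τ := Continuous.subtype_mk (by fun_prop) _
  have τ0 : τ (e x₀) = e x₀ := Subtype.ext (Prod.ext rfl (by simp only [τ, h0, neg_zero]))
  let σ : C2 → C2 := fun x => e.symm (τ (e x))
  have σ0 : σ x₀ = x₀ := (congrArg e.symm τ0).trans (e.left_inv hx)
  have hN : ∀ᶠ x in 𝓝 x₀, x ∈ e.source ∧ τ (e x) ∈ e.target :=
    (e.open_source.eventually_mem hx).and ((τc.continuousAt.comp (e.continuousAt hx)).eventually
      (e.open_target.eventually_mem (by rw [Function.comp, τ0]; exact e.map_source hx)))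
  have hc : ∀ x, x ∈ e.source ∧ τ (e x) ∈ e.target → ContinuousAt σ x := fun x h =>
    (e.continuousAt_symm h.2).comp (f := fun x => τ (e x))
      (τc.continuousAt.comp (e.continuousAt h.1))
  have h1 : ∀ x, x ∈ e.source ∧ τ (e x) ∈ e.target →
      σ (σ x) = x ∧ (e (σ x)).1 = ((e x).1.1, -(e x).1.2) := fun x h => by
    have a : e (σ x) = τ (e x) := e.right_inv h.2
    refine ⟨(congrArg e.symm ?_).trans (e.left_inv h.1), congrArg Subtype.val a⟩
    rw [a]
    exact Subtype.ext (Prod.ext rfl (neg_neg _))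
  have hA : ∀ᶠ y in 𝓝 x₀, y ≠ x₀ → AnalyticAt ℂ (fun y => (e y).1) y ∧
      Function.Injective (fderiv ℂ (fun y => (e y).1) y) :=
    (eventually_nhdsWithin_iff.1 hI).eventually_nhds.mono fun y a b =>
      ⟨an_of_ev ((a.and (eventually_ne_nhds b)).mono fun z c => (c.1 c.2).1),
        (a.self_of_nhds b).2⟩
  have hT : Tendsto σ (𝓝 x₀) (𝓝 x₀) := by
    simpa only [ContinuousAt, σ0] using hc x₀ hN.self_of_nhds
  refine ⟨σ, hRPT _ σ x₀ (hc x₀ hN.self_of_nhds) (eventually_nhdsWithin_iff.2 ?_), σ0, hN.mono h1⟩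
  filter_upwards [hN.eventually_nhds, hA, hT.eventually hA] with x a b c d
  have a' := h1 x a.self_of_nhds
  obtain ⟨c1, c2⟩ := c fun z => d (by rw [← a'.1, z, σ0]; rfl)
  obtain ⟨r, r1, r2⟩ := hLINV _ _ _ _ c1 c2
  have b' := (b d).1.differentiableAt
  rw [a'.2] at r1
  refine (r1.differentiableAt.comp x (b'.fst.prodMk b'.snd.neg)).congr_of_eventuallyEq ?_
  filter_upwards [a, (hc x a.self_of_nhds).eventually r2] with y p q
  rw [← q, (h1 y p).2]
  rfl

end Pool.Agent.P.MP_ab0431_ag.GR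

end

section

/-! Step INV2. -/

set_option autoImplicit false

namespace Pool.Agent.P.MP_ab0431_ag.GR

open Set Filter Topology Metric
open scoped Manifold ContDiff ContinuousMap

namespace INV2x

variable {E : Type} [NormedAddCommGroup E] [NormedSpace ℂ E]

/-- chain rule for a local left inverse -/
theorem left_inv_fderiv {f g : E → E} {x : E} (hg : DifferentiableAt ℂ g x)
    (hf : DifferentiableAt ℂ f (g x)) (h : ∀ᶠ y in 𝓝 x, f (g y) = y) (v : E) :
    fderiv ℂ f (g x) (fderiv ℂ g x v) = v := by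
  have h1 : HasFDerivAt (f ∘ g) ((fderiv ℂ f (g x)).comp (fderiv ℂ g x)) x :=
    hf.hasFDerivAt.comp x hg.hasFDerivAt
  have h2 : HasFDerivAt (f ∘ g) (ContinuousLinearMap.id ℂ E) x :=
    (hasFDerivAt_id x).congr_of_eventuallyEq (h.mono fun y hy => hy)
  have h3 := h1.unique h2
  have := congrArg (fun L : E →L[ℂ] E => L v) h3
  simpa using this

theorem imAt_symm {Ψ : OpenPartialHomeomorph E E} (h1 : DifferentiableOn ℂ Ψ Ψ.source)
    (h2 : DifferentiableOn ℂ Ψ.symm Ψ.target) {y : E} (hy : y ∈ Ψ.target) :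
    ImAt Ψ.symm y := by
  have hg : DifferentiableAt ℂ Ψ.symm y := h2.differentiableAt (Ψ.open_target.mem_nhds hy)
  have hf : DifferentiableAt ℂ Ψ (Ψ.symm y) :=
    h1.differentiableAt (Ψ.open_source.mem_nhds (Ψ.map_target hy))
  have hev : ∀ᶠ z in 𝓝 y, Ψ (Ψ.symm z) = z :=
    mem_of_superset (Ψ.open_target.mem_nhds hy) fun z hz => Ψ.right_inv hz
  exact ⟨hg, Function.LeftInverse.injective (left_inv_fderiv hg hf hev)⟩

theorem main [FiniteDimensional ℂ E] (σ : E → E) (x₀ : E) (ha : AnalyticAt ℂ σ x₀)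
    (h0 : σ x₀ = x₀) (hi : ∀ᶠ x in 𝓝 x₀, σ (σ x) = x) :
    ∃ (A : E →L[ℂ] E) (g : OpenPartialHomeomorph E E),
      (∀ v, A (A v) = v) ∧ 0 ∈ g.source ∧ g 0 = x₀ ∧ (∀ y ∈ g.source, ImAt g y) ∧
      ∀ᶠ y in 𝓝 0, g (A y) = σ (g y) := by
  have : CompleteSpace E := FiniteDimensional.complete ℂ E
  obtain ⟨A, hA⟩ : ∃ A : E →L[ℂ] E, A = fderiv ℂ σ x₀ := ⟨_, rfl⟩
  have hd : DifferentiableAt ℂ σ x₀ := ha.differentiableAt
  have hAA : ∀ v, A (A v) = v := by
    intro v
    have := left_inv_fderiv (f := σ) (g := σ) hd (by rw [h0]; exact hd) hi v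
    rw [h0, ← hA] at this
    exact this
  obtain ⟨φ, hφ⟩ : ∃ φ : E → E, φ = fun x => (x - x₀) + A (σ x - x₀) := ⟨_, rfl⟩
  have hφa : AnalyticAt ℂ φ x₀ := by
    rw [hφ]
    exact (analyticAt_id.sub analyticAt_const).add
      ((A.analyticAt _).comp (ha.sub analyticAt_const))
  have hφd : HasFDerivAt φ (ContinuousLinearMap.id ℂ E + A.comp A) x₀ := by
    rw [hφ]
    have h1 : HasFDerivAt σ A x₀ := hA ▸ hd.hasFDerivAt
    exact ((hasFDerivAt_id x₀).sub_const x₀).add (A.hasFDerivAt.comp x₀ (h1.sub_const x₀))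
  have hinj : Function.Injective (fderiv ℂ φ x₀) := by
    rw [hφd.fderiv]
    intro v w hvw
    simp only [add_apply, ContinuousLinearMap.id_apply,
      ContinuousLinearMap.comp_apply, hAA] at hvw
    have h2 : (2 : ℂ) • v = (2 : ℂ) • w := by rw [two_smul, two_smul]; exact hvw
    exact smul_right_injective E two_ne_zero h2
  have hφ0 : φ x₀ = 0 := by rw [hφ]; simp [h0]
  have hσφ : ∀ x, σ (σ x) = x → φ (σ x) = A (φ x) := by
    intro x hx
    rw [hφ]
    simp only [hx, map_add, hAA]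
    exact add_comm _ _
  obtain ⟨Ψ, hp, -, hΨ, hD1, hD2⟩ := inv (N := univ) hφa hinj univ_mem
  have hΨ0 : Ψ x₀ = 0 := by rw [hΨ]; exact hφ0
  have ht : (0 : E) ∈ Ψ.target := hΨ0 ▸ Ψ.map_source hp
  have hg0 : Ψ.symm 0 = x₀ := by rw [← hΨ0]; exact Ψ.left_inv hp
  refine ⟨A, Ψ.symm, hAA, ht, hg0, fun y hy => imAt_symm hD1 hD2 hy, ?_⟩
  have hc : ContinuousAt Ψ.symm 0 := Ψ.continuousAt_symm ht
  have hσc : ∀ᶠ x in 𝓝 x₀, σ x ∈ Ψ.source := by
    refine ha.continuousAt.eventually ?_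
    rw [h0]
    exact Ψ.open_source.mem_nhds hp
  have hT : Tendsto Ψ.symm (𝓝 0) (𝓝 x₀) := hg0 ▸ hc
  filter_upwards [hT.eventually (hi.and hσc), Ψ.open_target.mem_nhds ht] with y hy hyt
  have h1 : Ψ (σ (Ψ.symm y)) = A y := by
    have h2 : φ (Ψ.symm y) = y := by rw [← hΨ]; exact Ψ.right_inv hyt
    rw [hΨ, hσφ _ hy.1, h2]
  rw [← h1]
  exact Ψ.left_inv hy.2

end INV2x

theorem p_INV2 :
    S_INV2 := fun σ x₀ ha h0 hi => INV2x.main σ x₀ ha h0 hi

end Pool.Agent.P.MP_ab0431_ag.GR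

end

section

/-! Step INV3. -/

set_option autoImplicit false

namespace Pool.Agent.P.MP_ab0431_ag.GR

open Set Filter Topology Metric
open scoped Manifold ContDiff ContinuousMap

namespace INV3x

open Asymptotics

theorem anL (u w : C2) (q : ℂ × ℂ) : AnalyticAt ℂ (fun q : ℂ × ℂ => q.1 • u + q.2 • w) q :=
  (analyticAt_fst.smul analyticAt_const).add (analyticAt_snd.smul analyticAt_const)

theorem tendL (u w : C2) : Tendsto (fun q : ℂ × ℂ => q.1 • u + q.2 • w) (𝓝 (0, 0)) (𝓝 0) := by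
  simpa using (anL u w (0, 0)).continuousAt.tendsto

theorem iso (hMINM : S_MINM) {a : C2 → ℂ} (ha : AnalyticAt ℂ a 0) (h0 : a 0 = 0)
    (h : ∀ᶠ y in 𝓝 0, a y = 0 → y = 0) : False := by
  let u : C2 := ![1, 0]
  let w : C2 := ![0, 1]
  have e : ∀ z s : ℂ, z • u + s • w = 0 → z = 0 ∧ s = 0 := fun z s k =>
    ⟨by simpa [u, w] using congrFun k 0, by simpa [u, w] using congrFun k 1⟩
  have h1 := (tendL u w).eventually h
  rw [nhds_prod_eq, eventually_prod_iff] at h1
  obtain ⟨pa, hpa, pb, hpb, h1⟩ := h1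
  have h2 := hMINM ℂ (fun q => a (q.1 • u + q.2 • w)) 0 0
    (AnalyticAt.comp (g := a) (by simpa using ha) (anL u w (0, 0))) (by simpa using h0)
    (((hpa.filter_mono nhdsWithin_le_nhds).and self_mem_nhdsWithin).mono fun z hz k =>
      hz.2 (e _ _ (h1 hz.1 hpb.self_of_nhds k)).1) _ hpa
  obtain ⟨s, ⟨⟨z, hz, k⟩, hs⟩, hs0⟩ :=
    (((h2.and hpb).filter_mono (nhdsWithin_le_nhds (s := {0}ᶜ))).and self_mem_nhdsWithin).exists
  exact hs0 (e _ _ (h1 hz hs k)).2

theorem even {A : C2 →L[ℂ] C2} {b : C2 → C2} {y v : C2} (hv : A v = -v) (hy : A y = y)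
    (hb : DifferentiableAt ℂ b y) (h : ∀ᶠ z in 𝓝 y, b (A z) = b z) : fderiv ℂ b y v = 0 := by
  have h1 : HasFDerivAt (fun z => b (A z)) ((fderiv ℂ b y).comp A) y :=
    HasFDerivAt.comp (g := b) y (by rw [hy]; exact hb.hasFDerivAt) A.hasFDerivAt
  have h2 := congrArg (· v) ((h1.congr_of_eventuallyEq (EventuallyEq.symm h)).unique hb.hasFDerivAt)
  simp only [ContinuousLinearMap.comp_apply, hv, map_neg] at h2
  ext i
  have := congrFun h2 i
  simp only [Pi.neg_apply] at this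
  change _ = (0 : ℂ)
  linear_combination (-1 / 2 : ℂ) * this

theorem line {F : Type} [NormedAddCommGroup F] [NormedSpace ℂ F] {f : C2 → F} {y : C2} (v : C2)
    (hf : DifferentiableAt ℂ f y) : HasDerivAt (fun z : ℂ => f (z • v + y)) (fderiv ℂ f y v) 0 := by
  have h1 : HasDerivAt (fun z : ℂ => z • v + y) v 0 := by
    simpa using ((hasDerivAt_id (0 : ℂ)).smul_const v).add_const y
  exact HasFDerivAt.comp_hasDerivAt (l := f) (0 : ℂ) (by simpa using hf.hasFDerivAt) h1

theorem bigO {h : ℂ → C2} (ha : AnalyticAt ℂ h 0) (hd : deriv h 0 = 0) :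
    (fun z => h z - h 0) =O[𝓝 0] fun z : ℂ => z * z := by
  obtain ⟨p, hp⟩ := ha
  have h1 := hp.has_fpower_series_dslope_fslope.analyticAt.differentiableAt.isBigO_sub
  rw [dslope_same, hd] at h1
  have h2 := (isBigO_refl (fun z : ℂ => z - 0) (𝓝 0)).smul h1
  simpa only [sub_zero, smul_eq_mul, ← sub_smul_dslope h 0] using h2

end INV3x

open INV3x Asymptotics in
theorem p_INV3 (hMINM : S_MINM) (hAFORM : S_AFORM) :
    S_INV3 := by
  rintro A a b D hA ⟨v₀, hv₀⟩ ha hb hD h hi hD0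
  obtain ⟨v, hv0, hv⟩ : ∃ v : C2, v ≠ 0 ∧ A v = -v :=
    ⟨v₀ - A v₀, sub_ne_zero.2 hv₀.symm, by rw [map_sub, hA, neg_sub]⟩
  have h0 : a 0 = 0 := h.self_of_nhds.2.2.2 (map_zero A)
  by_cases hf : ∀ y, A y = y → y = 0
  · exact iso hMINM ha h0 (h.mono fun y hy k => hf y (hy.2.2.1 k))
  push Not at hf
  obtain ⟨x, hx, hx0⟩ := hf
  obtain ⟨k, β, hβ, hβ0, hk⟩ := hAFORM ℂ (fun q => a (q.1 • v + q.2 • x)) (fun _ => 0) 0
    (AnalyticAt.comp (g := a) (by simpa using ha) (anL v x (0, 0))) analyticAt_const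
    (((tendL v x).eventually h).mono fun q hq e => by
      have e1 := hq.2.2.1 e
      rw [map_add, map_smul, map_smul, hv, hx, add_left_inj, smul_neg, neg_eq_iff_add_eq_zero,
        ← add_smul, smul_eq_zero, add_self_eq_zero] at e1
      exact e1.resolve_right hv0)
  simp only [sub_zero] at hk
  have hev : ∀ᶠ y in 𝓝 (0 : C2), A y = y → fderiv ℂ b y v = 0 :=
    (h.eventually_nhds.and hb.eventually_analyticAt).mono fun y hy e =>
      even hv e hy.2.differentiableAt (hy.1.mono fun z hz => hz.2.1)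
  rcases k with _ | _ | k
  · have := hk.self_of_nhds
    simp only [zero_smul, add_zero, pow_zero, one_mul, h0] at this
    exact hβ0 this.symm
  · have t0 : Tendsto (fun z : ℂ => (z, (0 : ℂ))) (𝓝 0) (𝓝 (0, 0)) :=
      (continuous_id.prodMk continuous_const).tendsto' _ _ rfl
    have an : AnalyticAt ℂ (fun z : ℂ => z • v + (0 : C2)) 0 :=
      (analyticAt_id.smul analyticAt_const).add analyticAt_const
    have t1 : Tendsto (fun z : ℂ => z • v + (0 : C2)) (𝓝 0) (𝓝 0) := by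
      simpa using an.continuousAt.tendsto
    have h1 := bigO (h := fun z => b (z • v + 0)) (AnalyticAt.comp (g := b) (by simpa using hb) an)
      (by rw [(line v hb.differentiableAt).deriv, hev.self_of_nhds (map_zero A)])
    have h2 := (hD.differentiableAt.hasFDerivAt.isLittleO.comp_tendsto
      (hb.continuousAt.tendsto.comp t1))
    simp only [hD0, zero_apply, sub_zero, Function.comp_def] at h2
    simp only [zero_smul, add_zero] at h1 h2 t1
    have h3 := (h2.trans_isBigO h1).tendsto_div_nhds_zero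
    have h4 : Tendsto (fun z : ℂ => β (z, 0) ^ 2) (𝓝[≠] 0) (𝓝 0) := by
      refine (h3.mono_left nhdsWithin_le_nhds).congr' ?_
      filter_upwards [((t0.eventually hk).and (t1.eventually h)).filter_mono nhdsWithin_le_nhds,
        self_mem_nhdsWithin] with z hz hz0
      have hz1 : z ≠ 0 := hz0
      have e := hz.1
      simp only [zero_smul, add_zero, zero_add, pow_one] at e
      rw [← hz.2.1, ← h.self_of_nhds.1, h0, e]
      field_simp
      ring
    have h5 := ((hβ.continuousAt.tendsto.comp t0).pow 2).mono_left (nhdsWithin_le_nhds (s := {0}ᶜ))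
    exact pow_ne_zero 2 hβ0 (tendsto_nhds_unique h5 h4)
  · have t0 : Tendsto (fun s : ℂ => ((0 : ℂ), s)) (𝓝 0) (𝓝 (0, 0)) :=
      (continuous_const.prodMk continuous_id).tendsto' _ _ rfl
    have t1 : Tendsto (fun s : ℂ => s • x) (𝓝 0) (𝓝 0) :=
      Continuous.tendsto' (by fun_prop) _ _ (zero_smul ℂ x)
    have t2 : Tendsto (fun s : ℂ => s • x) (𝓝[≠] 0) (𝓝[≠] 0) :=
      tendsto_nhdsWithin_iff.2 ⟨t1.mono_left nhdsWithin_le_nhds,
        eventually_mem_nhdsWithin.mono fun s hs => smul_ne_zero hs hx0⟩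
    obtain ⟨s, hs, ⟨h1, h2⟩, h3, h4, h5⟩ := ((t2.eventually hi).and
      (((t0.eventually (hk.eventually_nhds.and hβ.eventually_analyticAt)).and
        (t1.eventually (hev.and (ha.eventually_analyticAt.and
          hb.eventually_analyticAt)))).filter_mono nhdsWithin_le_nhds)).exists
    refine hv0 (hs.2 ?_)
    rw [map_zero, h5.differentiableAt.fderiv_prodMk h4.differentiableAt,
      ContinuousLinearMap.prod_apply, h3 (by rw [map_smul, hx]), Prod.mk_eq_zero]
    refine ⟨rfl, ?_⟩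
    have t3 : Tendsto (fun z : ℂ => (z, s)) (𝓝 0) (𝓝 (0, s)) :=
      (continuous_id.prodMk continuous_const).tendsto' _ _ rfl
    have d1 : DifferentiableAt ℂ (fun z : ℂ => β (z, s)) 0 :=
      DifferentiableAt.comp (g := β) (0 : ℂ) h2.differentiableAt (by fun_prop)
    have d2 := ((hasDerivAt_pow (k + 1 + 1) (0 : ℂ)).mul d1.hasDerivAt).congr_of_eventuallyEq
      (f₁ := fun z => a (z • v + s • x)) (t3.eventually h1)
    simpa using (line v h4.differentiableAt).unique d2

end Pool.Agent.P.MP_ab0431_ag.GR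

end

section

/-! Step INV. -/

set_option autoImplicit false

namespace Pool.Agent.P.MP_ab0431_ag.GR

open Set Filter Topology Metric
open scoped Manifold ContDiff ContinuousMap

namespace INVx

theorem flat {D : C2 → ℂ} {v : Dbl D} (hc : ContinuousAt D v.1.1) (h0 : v.1.2 = 0)
    (h : ∀ᶠ w in 𝓝 v, w.1.2 = 0) : ∀ᶠ u in 𝓝 v.1.1, D u = 0 := by
  choose η hη using fun u => IsAlgClosed.exists_pow_nat_eq (D u) two_pos
  have h1 : Tendsto η (𝓝 v.1.1) (𝓝 0) := by
    rw [tendsto_zero_iff_norm_tendsto_zero]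
    have := hc.tendsto.norm.sqrt
    rw [← v.2, h0] at this
    simpa [← hη] using this
  have h2 : Tendsto (fun u => (⟨(u, η u), hη u⟩ : Dbl D)) (𝓝 v.1.1) (𝓝 v) :=
    tendsto_subtype_rng.2 (tendsto_id.prodMk_nhds (h0 ▸ h1))
  filter_upwards [h2.eventually h] with u hu
  rw [← hη u, show η u = 0 from hu, zero_pow two_ne_zero]

end INVx

theorem p_INV (hINV1 : S_INV1) (hINV2 : S_INV2) (hINV3 : S_INV3) (hRPT : S_RPT) :
    S_INV := by
  intro D e x₀ hx hD h0 hd him
  obtain ⟨σ, s1, s2, s3⟩ := hINV1 D e x₀ hx h0 him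
  obtain ⟨A, g, a1, g0, rfl, gi, a2⟩ := hINV2 σ x₀ s1 s2 (s3.mono fun _ h => h.1)
  have gc : ContinuousAt g 0 := g.continuousAt g0
  have gs : ∀ᶠ y in 𝓝 (0 : C2), y ∈ g.source := g.open_source.mem_nhds g0
  have tA : Tendsto A (𝓝 0) (𝓝 0) := by simpa using A.continuous.tendsto 0
  have es : ∀ᶠ y in 𝓝 (0 : C2), g y ∈ e.source := gc.eventually (e.open_source.mem_nhds hx)
  have tg : Tendsto g (𝓝[≠] 0) (𝓝[≠] (g 0)) :=
    tendsto_nhdsWithin_iff.2 ⟨gc.tendsto.mono_left nhdsWithin_le_nhds, by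
      filter_upwards [nhdsWithin_le_nhds gs, self_mem_nhdsWithin] with y h1 h2 h3
      exact h2 (g.injOn h1 g0 h3)⟩
  have hi : ∀ᶠ y in 𝓝[≠] (0 : C2), ImAt (fun z => (e (g z)).1) y := by
    filter_upwards [nhdsWithin_le_nhds gs, tg.eventually him] with y h1 h2
    refine ⟨h2.1.comp y (gi y h1).1, ?_⟩
    rw [show (fun z => (e (g z)).1) = (fun y => (e y).1) ∘ g from rfl,
      fderiv_comp y h2.1 (gi y h1).1]
    exact h2.2.comp (gi y h1).2
  have ha := hRPT _ (fun z => (e (g z)).1) 0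
    (continuous_subtype_val.continuousAt.comp ((e.continuousAt hx).comp gc))
    (hi.mono fun _ h => h.1)
  have hk : ∀ᶠ y in 𝓝 (0 : C2), (e (g y)).1.2 ^ 2 = D (e (g y)).1.1 ∧
      (e (g (A y))).1.1 = (e (g y)).1.1 ∧ ((e (g y)).1.2 = 0 ↔ A y = y) := by
    filter_upwards [gs, es, tA.eventually gs, tA.eventually es, a2, gc.eventually s3]
      with y h1 h2 h3 h4 h5 h6
    rw [← h5] at h6
    refine ⟨(e (g y)).2, by rw [h6.2], fun h => g.injOn h3 h1 (e.injOn h4 h2
      (Subtype.ext (h6.2.trans (Prod.ext rfl (by rw [h, neg_zero]))))), fun h => ?_⟩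
    rw [h] at h6
    exact self_eq_neg.1 (congrArg Prod.snd h6.2)
  by_cases hA : ∃ v, A v ≠ v
  · exact absurd hd (hINV3 A (fun y => (e (g y)).1.2) (fun y => (e (g y)).1.1) D a1 hA
      (analyticAt_snd.comp ha) (analyticAt_fst.comp ha) hD hk hi)
  push Not at hA
  refine INVx.flat hD.continuousAt h0 ?_
  rw [← e.map_nhds_eq hx, ← g.map_nhds_eq g0]
  exact hk.mono fun y h => h.2.2.2 (hA y)

end Pool.Agent.P.MP_ab0431_ag.GR

end
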