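import Pool.Agent.P.MP_ab0431_ag.GR.IfaceA

section

/-! Step HYPC. -/

set_option autoImplicit false

namespace Pool.Agent.P.MP_ab0431_ag.GR

open Set Filter Topology Metric
open scoped Manifold ContDiff ContinuousMap

namespace HYPCx

open Classical in
/-- The chart of the hypersurface given by a chart of the ambient space. -/
noncomputable def ch (D : C2 × ℂ → ℂ) (v : Dbl D)
    (Ψ : OpenPartialHomeomorph ((C2 × ℂ) × ℂ) ((C2 × ℂ) × ℂ))
    (h : ∀ z ∈ Ψ.source, (Ψ z).2 = 0 ↔ z.2 ^ 2 = D z.1) : OpenPartialHomeomorph (Dbl D) (C2 × ℂ) where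
  toFun w := (Ψ w.1).1
  invFun y := if hy : (y, 0) ∈ Ψ.target then
    ⟨Ψ.symm (y, 0), (h _ (Ψ.map_target hy)).1 (by rw [Ψ.right_inv hy])⟩ else v
  source := Subtype.val ⁻¹' Ψ.source
  target := {y | (y, 0) ∈ Ψ.target}
  map_source' w hw := by
    change ((Ψ w.1).1, 0) ∈ Ψ.target
    rw [← (h _ hw).2 w.2]
    exact Ψ.map_source hw
  map_target' y hy := by
    have hy' : (y, 0) ∈ Ψ.target := hy
    rw [dif_pos hy']
    exact Ψ.map_target hy'
  left_inv' w hw := by
    have e : ((Ψ w.1).1, 0) = Ψ w.1 := by rw [← (h _ hw).2 w.2]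
    rw [dif_pos (by rw [e]; exact Ψ.map_source hw)]
    refine Subtype.ext ?_
    change Ψ.symm ((Ψ w.1).1, 0) = w.1
    rw [e, Ψ.left_inv hw]
  right_inv' y hy := by
    have hy' : (y, 0) ∈ Ψ.target := hy
    rw [dif_pos hy']
    change (Ψ (Ψ.symm (y, 0))).1 = y
    rw [Ψ.right_inv hy']
  open_source := Ψ.open_source.preimage continuous_subtype_val
  open_target := Ψ.open_target.preimage (continuous_id.prodMk continuous_const)
  continuousOn_toFun := continuous_fst.comp_continuousOn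
    (Ψ.continuousOn.comp continuous_subtype_val.continuousOn fun _ hw => hw)
  continuousOn_invFun := by
    rw [IsInducing.subtypeVal.continuousOn_iff]
    refine (Ψ.continuousOn_symm.comp (continuous_id.prodMk
      (continuous_const (y := (0 : ℂ)))).continuousOn fun _ hy => hy).congr fun y hy => ?_
    have hy' : (y, 0) ∈ Ψ.target := hy
    simp only [Function.comp_apply, dif_pos hy', id]

theorem main (D : C2 × ℂ → ℂ) (v : Dbl D)
    (Ψ : OpenPartialHomeomorph ((C2 × ℂ) × ℂ) ((C2 × ℂ) × ℂ)) (hv : v.1 ∈ Ψ.source)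
    (h : ∀ z ∈ Ψ.source, (Ψ z).2 = 0 ↔ z.2 ^ 2 = D z.1) (h1 : ∀ z ∈ Ψ.source, (Ψ z).1.2 = z.1.2)
    (d1 : DifferentiableOn ℂ Ψ Ψ.source) (d2 : DifferentiableOn ℂ Ψ.symm Ψ.target) :
    ∃ c : OpenPartialHomeomorph (Dbl D) (C2 × ℂ), v ∈ c.source ∧
      (∀ v' ∈ c.source, (c v').2 = v'.1.1.2) ∧ ∀ x ∈ c.target, ImAt (fun y => (c.symm y).1) x := by
  refine ⟨ch D v Ψ h, hv, fun w hw => h1 _ hw, fun x hx => ?_⟩
  have hx' : (x, 0) ∈ Ψ.target := hx
  have ev := (ch D v Ψ h).open_target.mem_nhds hx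
  have e : (fun y => ((ch D v Ψ h).symm y).1) =ᶠ[𝓝 x] fun y => Ψ.symm (y, 0) := by
    filter_upwards [ev] with y hy
    have hy' : (y, 0) ∈ Ψ.target := hy
    exact congrArg Subtype.val (dif_pos hy')
  have dg : DifferentiableAt ℂ (fun y : C2 × ℂ => Ψ.symm (y, 0)) x :=
    (d2.differentiableAt (Ψ.open_target.mem_nhds hx')).comp x
      (differentiableAt_id.prodMk (differentiableAt_const _))
  refine ⟨dg.congr_of_eventuallyEq e, ?_⟩
  rw [e.fderiv_eq]
  have dΨ := d1.differentiableAt (Ψ.open_source.mem_nhds (Ψ.map_target hx'))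
  have c1 := (dΨ.hasFDerivAt.comp x dg.hasFDerivAt).fst
  have c2 : HasFDerivAt (fun y : C2 × ℂ => ((Ψ ∘ fun y => Ψ.symm (y, 0)) y).1)
      (ContinuousLinearMap.id ℂ _) x := by
    refine (hasFDerivAt_id x).congr_of_eventuallyEq ?_
    filter_upwards [ev] with y hy
    have hy' : (y, 0) ∈ Ψ.target := hy
    simp only [Function.comp_apply, Ψ.right_inv hy', id]
  have c3 := c1.unique c2
  intro a b hab
  have ea := DFunLike.congr_fun c3 a
  have eb := DFunLike.congr_fun c3 b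
  simp only [ContinuousLinearMap.comp_apply, ContinuousLinearMap.id_apply] at ea eb
  rw [← ea, ← eb, hab]

theorem exL (A : C2 × ℂ →L[ℂ] ℂ) (η : ℂ) (h : η ≠ 0 ∨ ∃ e : C2, A (e, 0) ≠ 0) :
    ∃ L : C2 × ℂ →L[ℂ] C2, ∀ (u : C2) (ζ : ℂ), L (u, ζ) = 0 → 2 * η * ζ = A (u, 0) →
      u = 0 ∧ ζ = 0 := by
  rcases h with h | ⟨e, he⟩
  · refine ⟨ContinuousLinearMap.fst ℂ C2 ℂ, fun u ζ h1 h2 => ?_⟩
    have h3 : u = 0 := h1
    rw [h3, Prod.mk_zero_zero, map_zero] at h2
    exact ⟨h3, (mul_eq_zero.1 h2).resolve_left (mul_ne_zero two_ne_zero h)⟩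
  have dec : ∀ u : C2, A (u, 0) = u 0 * A (Pi.single 0 1, 0) + u 1 * A (Pi.single 1 1, 0) := by
    intro u
    rw [← smul_eq_mul, ← smul_eq_mul, ← map_smul, ← map_smul, ← map_add]
    congr 1
    ext i
    · fin_cases i <;> simp
    · simp
  let L : Fin 2 → C2 × ℂ →L[ℂ] C2 := fun j => ContinuousLinearMap.pi
    ![(ContinuousLinearMap.proj j).comp (ContinuousLinearMap.fst ℂ C2 ℂ),
      ContinuousLinearMap.snd ℂ C2 ℂ]
  have hL : ∀ j u ζ, L j (u, ζ) = 0 → u j = 0 ∧ ζ = 0 := fun j u ζ h =>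
    ⟨congrFun h 0, congrFun h 1⟩
  by_cases h0 : A (Pi.single 0 1, 0) = 0
  · have h1 : A (Pi.single 1 1, 0) ≠ 0 := fun h1 => he (by rw [dec, h0, h1]; ring)
    refine ⟨L 0, fun u ζ a b => ?_⟩
    obtain ⟨a1, a2⟩ := hL 0 u ζ a
    rw [dec, a1, a2, mul_zero, zero_mul, zero_add] at b
    have a3 := (mul_eq_zero.1 b.symm).resolve_right h1
    exact ⟨funext fun i => by fin_cases i <;> assumption, a2⟩
  · refine ⟨L 1, fun u ζ a b => ?_⟩
    obtain ⟨a1, a2⟩ := hL 1 u ζ a
    rw [dec, a1, a2, mul_zero, zero_mul, add_zero] at b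
    have a3 := (mul_eq_zero.1 b.symm).resolve_right h0
    exact ⟨funext fun i => by fin_cases i <;> assumption, a2⟩

end HYPCx

theorem p_HYPC :
    S_HYPC := by
  intro D v hD h
  rcases h with h | h
  · obtain ⟨L, hL⟩ := HYPCx.exL (fderiv ℂ D v.1.1) v.1.2 (by
      by_contra hc
      push Not at hc
      exact h ⟨by rw [← v.2, hc.1]; ring, hc.2⟩)
    let Φ : (C2 × ℂ) × ℂ → (C2 × ℂ) × ℂ := fun z => ((L (z.1.1, z.2), z.1.2), z.2 ^ 2 - D z.1)
    have hD1 : AnalyticAt ℂ (fun z : (C2 × ℂ) × ℂ => D z.1) v.1 := hD.comp analyticAt_fst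
    have ha : AnalyticAt ℂ Φ v.1 :=
      (((L.analyticAt _).comp ((analyticAt_fst.comp analyticAt_fst).prod analyticAt_snd)).prod
        (analyticAt_snd.comp analyticAt_fst)).prod ((analyticAt_snd.fun_pow 2).fun_sub hD1)
    have f1 : HasFDerivAt (fun z : (C2 × ℂ) × ℂ => z.1) (ContinuousLinearMap.fst ℂ _ _) v.1 :=
      hasFDerivAt_fst
    have f2 : HasFDerivAt (fun z : (C2 × ℂ) × ℂ => z.2) (ContinuousLinearMap.snd ℂ _ _) v.1 :=
      hasFDerivAt_snd
    have hd : HasFDerivAt Φ _ v.1 :=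
      ((L.hasFDerivAt.comp v.1 (f1.fst.prodMk f2)).prodMk f1.snd).prodMk
        ((f2.pow 2).sub (hD.differentiableAt.hasFDerivAt.comp v.1 f1))
    obtain ⟨Ψ, p1, -, p2, p3, p4⟩ := inv (N := univ) ha (by
      rw [hd.fderiv, injective_iff_map_eq_zero]
      rintro ⟨⟨u, t⟩, ζ⟩ hw
      have a1 : L (u, ζ) = 0 := congrArg (fun z => z.1.1) hw
      have a2 : t = 0 := congrArg (fun z => z.1.2) hw
      have a3 := congrArg Prod.snd hw
      subst a2
      obtain ⟨rfl, rfl⟩ := hL u ζ a1 (by simpa [sub_eq_zero] using a3)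
      rfl) univ_mem
    exact HYPCx.main D v Ψ p1 (fun z _ => by rw [p2]; exact sub_eq_zero) (fun z _ => by rw [p2])
      p3 p4
  · obtain ⟨O, h1, h2, h3⟩ := _root_.mem_nhds_iff.1 h
    refine HYPCx.main D v (OpenPartialHomeomorph.ofSet (O ×ˢ univ) (h2.prod isOpen_univ))
      ⟨h3, trivial⟩ (fun z hz => ?_) (fun _ _ => rfl) differentiableOn_id differentiableOn_id
    have : D z.1 = 0 := h1 hz.1
    rw [this]
    exact (pow_eq_zero_iff two_ne_zero).symm

end Pool.Agent.P.MP_ab0431_ag.GR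

end

section

/-! Step FLAT. -/

set_option autoImplicit false

namespace Pool.Agent.P.MP_ab0431_ag.GR

open Set Filter Topology Metric
open scoped Manifold ContDiff ContinuousMap

theorem p_FLAT :
    S_FLAT := by
  intro D e x hx hp hf hD
  set f : C2 × ℂ → (C2 × ℂ) × ℂ := fun z => (e z).1 with hfd
  have hi : ImAt f x := hf.self_of_nhds
  have an : AnalyticAt ℂ f x := an_of_ev (hf.mono fun _ h => h.1)
  have hL : HasFDerivAt f (fderiv ℂ f x) x := hi.1.hasFDerivAt
  set L := fderiv ℂ f x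
  have src : e.source ∈ 𝓝 x := e.open_source.mem_nhds hx
  have hsq : ∀ y, (f y).2 ^ 2 = D (f y).1 := fun y => (e y).2
  have hs : HasFDerivAt (fun z : C2 => (z, x.2)) (ContinuousLinearMap.inl ℂ C2 ℂ) x.1 :=
    hasFDerivAt_prodMk_left x.1 x.2
  have hst : Tendsto (fun z : C2 => (z, x.2)) (𝓝 x.1) (𝓝 x) := hs.continuousAt
  have h0 : ∀ᶠ z in 𝓝 x.1, (f (z, x.2)).2 = 0 := by
    have h1 : Tendsto (fun y => (f y).1.1) (𝓝 x) (𝓝 (f x).1.1) := an.continuousAt.fst.fst
    filter_upwards [hst.eventually src, (h1.comp hst).eventually hD] with z h2 h3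
    have h4 : (f (z, x.2)).1 = ((f (z, x.2)).1.1, x.2) := Prod.ext rfl (hp _ h2)
    have h5 := hsq (z, x.2)
    rw [h4] at h5
    exact pow_eq_zero_iff two_ne_zero |>.1 (h5.trans h3)
  have ha : (f x).2 = 0 := h0.self_of_nhds
  have da : ∀ v : C2, (L (v, 0)).2 = 0 := fun v => by
    have h1 := (HasFDerivAt.comp x.1 (f := fun z : C2 => (z, x.2)) hL hs).snd
    have h2 := (hasFDerivAt_const (𝕜 := ℂ) (0 : ℂ) x.1).congr_of_eventuallyEq h0
    exact DFunLike.congr_fun (h1.unique h2) v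
  have ds : ∀ w : C2 × ℂ, (L w).1.2 = w.2 := fun w => by
    have h2 : HasFDerivAt (fun y => (f y).1.2) (ContinuousLinearMap.snd ℂ C2 ℂ) x :=
      hasFDerivAt_snd.congr_of_eventuallyEq (mem_of_superset src fun y hy => hp y hy)
    exact DFunLike.congr_fun (hL.fst.snd.unique h2) w
  have hB : Function.Injective (fderiv ℂ (fun y => (f y).1) x) := by
    rw [hL.fst.fderiv]
    refine (injective_iff_map_eq_zero _).2 fun w hw => ?_
    have h1 : (L w).1 = 0 := hw
    have h2 : w = (w.1, 0) := Prod.ext rfl (by rw [← ds w, h1]; rfl)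
    refine (injective_iff_map_eq_zero _).1 hi.2 w (Prod.ext h1 ?_)
    rw [h2]
    exact da w.1
  obtain ⟨Ψ, h1, -, h2, -⟩ := inv (analyticAt_fst.comp an) hB src
  have h3 : ∀ y, Ψ y = (f y).1 := fun y => congrFun h2 y
  let τ : Dbl D → Dbl D := fun v => ⟨(v.1.1, -v.1.2), by simpa using v.2⟩
  have hτ : Continuous τ := by fun_prop
  have hτx : τ (e x) = e x := Subtype.ext (Prod.ext rfl (by
    show -(f x).2 = (f x).2
    rw [ha, neg_zero]))
  have t1 : Tendsto (fun y => τ (e y)) (𝓝 x) (𝓝 (e x)) := by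
    have := hτ.continuousAt.tendsto.comp (e.continuousAt hx).tendsto
    rwa [hτx] at this
  have t2 : Tendsto (fun y => e.symm (τ (e y))) (𝓝 x) (𝓝 x) := (e.tendsto_symm hx).comp t1
  have hΨ := Ψ.open_source.mem_nhds h1
  have key : ∀ᶠ y in 𝓝 x, D (Ψ y) = 0 := by
    filter_upwards [hΨ, t2.eventually hΨ,
      t1.eventually (e.open_target.mem_nhds (e.map_source hx))] with y k1 k2 k3
    have k4 := e.right_inv k3
    have k5 : e.symm (τ (e y)) = y := Ψ.injOn k2 k1 (by
      rw [h3, h3]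
      show (e (e.symm (τ (e y)))).1.1 = _
      rw [k4])
    rw [k5] at k4
    have k6 : (f y).2 = -(f y).2 := congrArg (fun v : Dbl D => v.1.2) k4
    rw [h3, ← hsq, self_eq_neg.1 k6]
    simp
  rw [show (e x).1.1 = Ψ x from (h3 x).symm, ← Ψ.map_nhds_eq h1]
  exact key

end Pool.Agent.P.MP_ab0431_ag.GR

end

section

/-! Step PARC. -/

set_option autoImplicit false

namespace Pool.Agent.P.MP_ab0431_ag.GR

open Set Filter Topology Metric
open scoped Manifold ContDiff ContinuousMap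

theorem p_PARC :
    S_PARC := by
  intro P _ _ _ g O c R hO hR hg x₀ hx₀
  have : ProperSpace P := FiniteDimensional.proper ℂ P
  obtain ⟨ε, hε, hsub⟩ := Metric.nhds_basis_closedBall.mem_iff.1 (hO.mem_nhds hx₀)
  have hm : ∀ θ : ℝ, circleMap c R θ ∈ sphere c R := fun θ => circleMap_mem_sphere c hR.le θ
  have hK : IsCompact (sphere c R ×ˢ closedBall x₀ ε) :=
    (isCompact_sphere c R).prod (isCompact_closedBall x₀ ε)
  have hfc : ContinuousOn (fderiv ℂ g) (sphere c R ×ˢ O) := hg.fderiv.continuousOn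
  obtain ⟨B, hB⟩ := hK.exists_bound_of_continuousOn (hfc.mono (prod_mono le_rfl hsub))
  have hd : Continuous (deriv (circleMap c R)) := by
    have : deriv (circleMap c R) = fun θ => circleMap 0 R θ * Complex.I :=
      funext fun θ => deriv_circleMap c R θ
    rw [this]
    exact (continuous_circleMap 0 R).mul continuous_const
  have hdn : ∀ θ : ℝ, ‖deriv (circleMap c R) θ‖ = R := fun θ => by
    rw [deriv_circleMap]; simp [abs_of_pos hR]
  have hcm : ∀ x : P, Continuous fun θ : ℝ => (circleMap c R θ, x) := fun x =>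
    (continuous_circleMap c R).prodMk continuous_const
  have hF : ∀ x ∈ O, Continuous fun θ : ℝ =>
      deriv (circleMap c R) θ • g (circleMap c R θ, x) := fun x hx =>
    hd.smul (hg.continuousOn.comp_continuous (hcm x) fun θ => ⟨hm θ, hx⟩)
  have hF' : Continuous fun θ : ℝ => deriv (circleMap c R) θ •
      (fderiv ℂ g (circleMap c R θ, x₀)).comp (ContinuousLinearMap.inr ℂ ℂ P) :=
    hd.smul ((hfc.comp_continuous (hcm x₀) fun θ => ⟨hm θ, hx₀⟩).clm_comp continuous_const)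
  have key := intervalIntegral.hasFDerivAt_integral_of_dominated_of_fderiv_le (𝕜 := ℂ)
    (μ := MeasureTheory.volume) (a := 0) (b := 2 * Real.pi) (s := closedBall x₀ ε)
    (bound := fun _ => R * (B * ‖ContinuousLinearMap.inr ℂ ℂ P‖))
    (F := fun x θ => deriv (circleMap c R) θ • g (circleMap c R θ, x))
    (F' := fun x θ => deriv (circleMap c R) θ •
      (fderiv ℂ g (circleMap c R θ, x)).comp (ContinuousLinearMap.inr ℂ ℂ P))
    (x₀ := x₀) (closedBall_mem_nhds x₀ hε)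
    (mem_of_superset (hO.mem_nhds hx₀) fun x hx => (hF x hx).aestronglyMeasurable)
    ((hF x₀ hx₀).intervalIntegrable _ _) hF'.aestronglyMeasurable
    (Eventually.of_forall fun θ _ x hx => by
      rw [norm_smul, hdn]
      refine mul_le_mul_of_nonneg_left ((ContinuousLinearMap.opNorm_comp_le _ _).trans ?_) hR.le
      exact mul_le_mul_of_nonneg_right (hB _ ⟨hm θ, hx⟩) (norm_nonneg _))
    intervalIntegrable_const
    (Eventually.of_forall fun θ _ x hx => by
      have h1 : HasFDerivAt g (fderiv ℂ g (circleMap c R θ, x)) (circleMap c R θ, x) :=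
        (hg _ ⟨hm θ, hsub hx⟩).differentiableAt.hasFDerivAt
      exact (h1.comp x (hasFDerivAt_prodMk_right (circleMap c R θ) x)).const_smul
        (deriv (circleMap c R) θ))
  exact key.differentiableAt.differentiableWithinAt

end Pool.Agent.P.MP_ab0431_ag.GR

end

section

/-! Step NORM. -/

set_option autoImplicit false

namespace Pool.Agent.P.MP_ab0431_ag.GR

open Set Filter Topology Metric
open scoped Manifold ContDiff ContinuousMap

namespace NORMx

lemma newton (s : Multiset ℂ) (k : ℕ) : (k : ℂ) * s.esymm k = (-1) ^ (k + 1) *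
    ∑ a ∈ (Finset.HasAntidiagonal.antidiagonal k).filter fun a => a.1 < k,
      (-1) ^ a.1 * s.esymm a.1 * (s.map (· ^ a.2)).sum := by
  induction s using Quotient.inductionOn with
  | h l =>
    have e : (Finset.univ.val.map l.get : Multiset ℂ) = (⟦l⟧ : Multiset ℂ) := by
      rw [Finset.val_univ_fin, Multiset.map_coe, ← List.ofFn_eq_map, List.ofFn_get]
      rfl
    have := congrArg (MvPolynomial.aeval l.get)
      (MvPolynomial.mul_esymm_eq_sum (Fin l.length) ℂ k)
    simp only [map_mul, map_natCast, map_pow, map_neg, map_one, map_sum,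
      MvPolynomial.aeval_esymm_eq_multiset_esymm, MvPolynomial.psum, MvPolynomial.aeval_X] at this
    rw [← e, this]
    simp only [Multiset.map_map, Function.comp_def]
    rfl

lemma top (s : Multiset ℂ) : s.esymm s.card = s.prod := by
  simp [Multiset.esymm, Multiset.powersetCard_self]

end NORMx

theorem p_NORM :
    S_NORM := by
  intro P _ _ O d Z hd hp
  have key : ∀ k : ℕ, DifferentiableOn ℂ (fun x => (Z x).esymm k) O := by
    intro k
    induction k using Nat.strong_induction_on with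
    | _ k ih =>
      rcases Nat.eq_zero_or_pos k with rfl | hk
      · simp [Multiset.esymm]
      · have hk' : (k : ℂ) ≠ 0 := Nat.cast_ne_zero.2 hk.ne'
        have : DifferentiableOn ℂ (fun x => (k : ℂ)⁻¹ * ((-1) ^ (k + 1) *
            ∑ a ∈ (Finset.HasAntidiagonal.antidiagonal k).filter fun a => a.1 < k,
              (-1) ^ a.1 * (Z x).esymm a.1 * ((Z x).map (· ^ a.2)).sum)) O :=
          ((DifferentiableOn.fun_sum fun a ha =>
            ((ih a.1 (Finset.mem_filter.1 ha).2).const_mul _).mul (hp a.2)).const_mul _).const_mul _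
        refine this.congr fun x _ => ?_
        rw [← NORMx.newton, inv_mul_cancel_left₀ hk']
  refine (key d).congr fun x hx => ?_
  rw [← hd x hx, NORMx.top]

end Pool.Agent.P.MP_ab0431_ag.GR

end

section

/-! Step ROOTS. -/

set_option autoImplicit false

namespace Pool.Agent.P.MP_ab0431_ag.GR

open Set Filter Topology Metric
open scoped Manifold ContDiff ContinuousMap

namespace ROOTSx

variable {P : Type} [NormedAddCommGroup P] [NormedSpace ℂ P] [FiniteDimensional ℂ P]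

theorem an {f : ℂ × P → ℂ} {O : Set (ℂ × P)} (hO : IsOpen O) (hf : DifferentiableOn ℂ f O)
    {q : ℂ × P} (hq : q ∈ O) : AnalyticAt ℂ f q :=
  an_of_ev (mem_of_superset (hO.mem_nhds hq) fun _ hy => hf.differentiableAt (hO.mem_nhds hy))

omit [FiniteDimensional ℂ P] in
theorem sl {f : ℂ × P → ℂ} {z : ℂ} {x : P} (hf : AnalyticAt ℂ f (z, x)) :
    AnalyticAt ℂ (fun t => f (t, x)) z :=
  AnalyticAt.comp (g := f) (f := fun t : ℂ => (t, x)) hf (analyticAt_id.prod analyticAt_const)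

omit [FiniteDimensional ℂ P] in
theorem dr {f : ℂ × P → ℂ} {z : ℂ} {x : P} (hf : AnalyticAt ℂ f (z, x)) :
    deriv (fun t => f (t, x)) z = fderiv ℂ f (z, x) (1, 0) := by
  have h1 : HasDerivAt (fun t : ℂ => (t, x)) ((1 : ℂ), (0 : P)) z :=
    (hasDerivAt_id z).prodMk (hasDerivAt_const z x)
  exact (HasFDerivAt.comp_hasDerivAt z hf.differentiableAt.hasFDerivAt h1).deriv

theorem ms (Z : Finset ℂ) (m : ℂ → ℕ) (h : ℂ → ℂ) :
    ((Z.val.bind fun t => Multiset.replicate (m t) t).map h).sum = ∑ t ∈ Z, (m t : ℂ) * h t := by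
  rw [Multiset.map_bind, Multiset.sum_bind, Finset.sum_eq_multiset_sum]
  simp only [Multiset.map_replicate, Multiset.sum_replicate, nsmul_eq_mul]

end ROOTSx

open ROOTSx in
theorem p_ROOTS (hARG : S_ARG) (hPARC : S_PARC) :
    S_ROOTS := by
  intro P _ _ _ f O z₀ x₀ R hO hR hf hb hs
  have hc : CompleteSpace P := FiniteDimensional.complete ℂ P
  have e1 : ∀ᶠ x in 𝓝 x₀, ∀ z ∈ closedBall z₀ R, (z, x) ∈ O := by
    refine (isCompact_closedBall z₀ R).eventually_forall_of_forall_eventually fun z hz => ?_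
    exact (continuous_swap.continuousAt (x := (x₀, z))).eventually (hO.mem_nhds (hb z hz))
  have e2 : ∀ᶠ x in 𝓝 x₀, ∀ z ∈ sphere z₀ R, f (z, x) ≠ 0 := by
    refine (isCompact_sphere z₀ R).eventually_forall_of_forall_eventually fun z hz => ?_
    have h1 : ContinuousAt f (z, x₀) :=
      (an hO hf (hb z (sphere_subset_closedBall hz))).continuousAt
    exact (continuous_swap.continuousAt (x := (x₀, z))).eventually (h1.eventually_ne (hs z hz))
  obtain ⟨O₁, h1, ho1, hx1⟩ := _root_.mem_nhds_iff.1 (e1.and e2)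
  have key : ∀ x : P, ∃ Z : Multiset ℂ, x ∈ O₁ → (∀ z, z ∈ Z ↔ z ∈ ball z₀ R ∧ f (z, x) = 0) ∧
      ∀ h : ℂ × P → ℂ, DifferentiableOn ℂ h O → (Z.map fun z => h (z, x)).sum =
        (2 * Real.pi * Complex.I)⁻¹ *
          ∮ t in C(z₀, R), h (t, x) * (fderiv ℂ f (t, x) (1, 0) / f (t, x)) := by
    intro x
    by_cases hx : x ∈ O₁
    · obtain ⟨Z, m, a, b, c⟩ := hARG (fun t => f (t, x)) z₀ R hR
        (fun t ht => sl (an hO hf ((h1 hx).1 t ht))) (h1 hx).2
      refine ⟨Z.val.bind fun t => Multiset.replicate (m t) t, fun _ => ⟨fun z => ?_, fun h hh => ?_⟩⟩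
      · rw [← a z, Multiset.mem_bind]
        constructor
        · rintro ⟨t, ht, hz⟩
          rw [Multiset.eq_of_mem_replicate hz]; exact ht
        · exact fun hz => ⟨z, hz, Multiset.mem_replicate.2 ⟨(b z hz).ne', rfl⟩⟩
      · have c' := c (fun t => h (t, x)) fun t ht => sl (an hO hh ((h1 hx).1 t ht))
        have e : (∮ t in C(z₀, R), h (t, x) * (fderiv ℂ f (t, x) (1, 0) / f (t, x))) =
            ∮ t in C(z₀, R), h (t, x) * (deriv (fun t => f (t, x)) t / f (t, x)) := by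
          refine circleIntegral.integral_congr hR.le fun t ht => ?_
          simp only [dr (an hO hf ((h1 hx).1 t (sphere_subset_closedBall ht)))]
        rw [ms Z m fun t => h (t, x), e, c', ← mul_assoc, inv_mul_cancel₀ Complex.two_pi_I_ne_zero,
          one_mul]
    · exact ⟨0, fun h => absurd h hx⟩
  choose Z hZ using key
  have hd : ∀ h : ℂ × P → ℂ, DifferentiableOn ℂ h O →
      DifferentiableOn ℂ (fun x => ((Z x).map fun z => h (z, x)).sum) O₁ := by
    intro h hh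
    have := hPARC P (fun q => h q * (fderiv ℂ f q (1, 0) / f q)) O₁ z₀ R ho1 hR (by
      rintro ⟨z, x⟩ ⟨hz, hx⟩
      have hq := (h1 hx).1 z (sphere_subset_closedBall hz)
      have a1 : AnalyticAt ℂ (fun q => fderiv ℂ f q (1, 0)) (z, x) :=
        ((ContinuousLinearMap.apply ℂ ℂ ((1 : ℂ), (0 : P))).analyticAt _).comp (an hO hf hq).fderiv
      exact (an hO hh hq).mul (a1.div (an hO hf hq) ((h1 hx).2 z hz)))
    exact (this.const_mul _).congr fun x hx => (hZ x hx).2 h hh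
  have hcard : ContinuousAt (fun x => ((Z x).card : ℂ)) x₀ := by
    have := ((hd (fun _ => 1) (differentiableOn_const _)).differentiableAt
      (ho1.mem_nhds hx1)).continuousAt
    simpa using this
  have e3 : ∀ᶠ x in 𝓝 x₀, (Z x).card = (Z x₀).card := by
    filter_upwards [Metric.tendsto_nhds.1 hcard 1 one_pos] with x hx
    have h2 : |((Z x).card : ℝ) - (Z x₀).card| < 1 := by
      rw [dist_eq_norm] at hx
      have : (((Z x).card : ℂ) - (Z x₀).card) = ((((Z x).card : ℝ) - (Z x₀).card : ℝ) : ℂ) := by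
        push_cast; rfl
      rwa [this, Complex.norm_real, Real.norm_eq_abs] at hx
    rw [abs_lt] at h2
    have a : ((Z x).card : ℝ) < (Z x₀).card + 1 := by linarith [h2.2]
    have b : ((Z x₀).card : ℝ) < (Z x).card + 1 := by linarith [h2.1]
    have a' : (Z x).card < (Z x₀).card + 1 := by exact_mod_cast a
    have b' : (Z x₀).card < (Z x).card + 1 := by exact_mod_cast b
    omega
  obtain ⟨O₂, h2, ho2, hx2⟩ := _root_.mem_nhds_iff.1 e3
  exact ⟨O₁ ∩ O₂, (Z x₀).card, Z, ho1.inter ho2, ⟨hx1, hx2⟩,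
    fun x hx => ⟨(h1 hx.1).1, h2 hx.2, (hZ x hx.1).1⟩,
    fun h hh => (hd h hh).mono inter_subset_left⟩

end Pool.Agent.P.MP_ab0431_ag.GR

end

section

/-! Step PROJ. -/

set_option autoImplicit false

namespace Pool.Agent.P.MP_ab0431_ag.GR

open Set Filter Topology Metric
open scoped Manifold ContDiff ContinuousMap

namespace PROJx

theorem avoid {X : Type} (V : Submodule ℂ (X → ℂ)) (T : Multiset X)
    (h : ∀ p ∈ T, ∃ g ∈ V, g p ≠ 0) : ∃ g ∈ V, ∀ p ∈ T, g p ≠ 0 := by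
  classical
  induction T using Multiset.induction_on with
  | empty => exact ⟨0, V.zero_mem, by simp⟩
  | cons a T ih =>
    obtain ⟨g, g1, g2⟩ := ih fun p hp => h p (Multiset.mem_cons_of_mem hp)
    obtain ⟨g', g3, g4⟩ := h a (Multiset.mem_cons_self a T)
    obtain ⟨c, hc⟩ := Infinite.exists_notMem_finset
      ((a ::ₘ T).map fun p => -g p / g' p).toFinset
    refine ⟨g + c • g', V.add_mem g1 (V.smul_mem c g3), fun p hp e => ?_⟩
    rw [Pi.add_apply, Pi.smul_apply, smul_eq_mul] at e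
    by_cases e' : g' p = 0
    · rw [e', mul_zero, add_zero] at e
      rcases Multiset.mem_cons.1 hp with rfl | hp
      exacts [g4 e', g2 p hp e]
    · exact hc (Multiset.mem_toFinset.2 (Multiset.mem_map.2 ⟨p, hp, by
        rw [div_eq_iff e']; linear_combination -e⟩))

end PROJx

theorem p_PROJ (hROOTS : S_ROOTS) (hNORM : S_NORM) :
    S_PROJ := by
  intro P _ _ _ S O z₀ x₀ N hO h0 hS hN hp
  have c0 : Continuous fun z : ℂ => (z, x₀) := by fun_prop
  have a0 : ∀ᶠ z in 𝓝 z₀, (z, x₀) ∈ O := c0.continuousAt.eventually (hO.mem_nhds h0)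
  obtain ⟨r, r0, hr⟩ := Metric.mem_nhds_iff.1 a0
  obtain ⟨z₁, ⟨f, f1, f2⟩, z1⟩ :=
    (hp.and (mem_nhdsWithin_of_mem_nhds (ball_mem_nhds z₀ r0))).exists
  have a1 : AnalyticOnNhd ℂ (fun z => f (z, x₀)) (ball z₀ r) :=
    ((hS f f1).comp (by fun_prop) fun z hz => hr hz).analyticOnNhd isOpen_ball
  have a2 : ∀ᶠ z in 𝓝[≠] z₀, f (z, x₀) ≠ 0 :=
    (a1 z₀ (mem_ball_self r0)).eventually_eq_zero_or_eventually_ne_zero.resolve_left fun e =>
      f2 (a1.eqOn_zero_of_preconnected_of_eventuallyEq_zero (convex_ball z₀ r).isPreconnected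
        (mem_ball_self r0) e z1)
  obtain ⟨R, R0, hR⟩ := Metric.nhds_basis_closedBall.mem_iff.1
    (inter_mem hN (a0.and (eventually_nhdsWithin_iff.1 a2)))
  obtain ⟨O', d, Z, o1, o2, o3, o4⟩ := hROOTS P f O z₀ x₀ R hO R0 (hS f f1)
    (fun z hz => (hR hz).2.1) fun z hz => (hR (sphere_subset_closedBall hz)).2.2
      (ne_of_mem_sphere hz R0.ne')
  have a3 : ∀ h ∈ Submodule.span ℂ S, DifferentiableOn ℂ h O := fun h hh => by
    induction hh using Submodule.span_induction with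
    | mem g hg => exact hS g hg
    | zero => exact differentiableOn_const _
    | add g g' _ _ a b => exact a.add b
    | smul c g _ a => exact a.const_smul c
  refine ⟨ball z₀ R, O', {g | ∃ h ∈ Submodule.span ℂ S,
    g = fun x => ((Z x).map fun z => h (z, x)).prod}, ball_mem_nhds _ R0,
    fun z hz => (hR (ball_subset_closedBall hz)).1, o1, o2,
    fun q hq => (o3 q.2 hq.2).1 q.1 (ball_subset_closedBall hq.1), ?_, fun x hx => ⟨fun h => ?_, ?_⟩⟩
  · rintro _ ⟨h, hh, rfl⟩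
    refine hNORM P O' d _ (fun x hx => by rw [Multiset.card_map, (o3 x hx).2.1]) fun k => ?_
    simp only [Multiset.map_map, Function.comp_def]
    exact o4 (fun q => h q ^ k) ((a3 h hh).pow k)
  · by_contra hn
    obtain ⟨g, g1, g2⟩ := PROJx.avoid (Submodule.span ℂ S) ((Z x).map fun z => (z, x))
      fun p hp => by
        obtain ⟨z, hz, rfl⟩ := Multiset.mem_map.1 hp
        by_contra hc
        exact hn ⟨z, (((o3 x hx).2.2 z).1 hz).1, fun g hg => by_contra fun e =>
          hc ⟨g, Submodule.subset_span hg, e⟩⟩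
    obtain ⟨z, hz, e⟩ := Multiset.mem_map.1 (Multiset.prod_eq_zero_iff.1 (h _ ⟨g, g1, rfl⟩))
    exact g2 _ (Multiset.mem_map_of_mem _ hz) e
  · rintro ⟨z, hz, e⟩ _ ⟨h, hh, rfl⟩
    refine Multiset.prod_eq_zero (Multiset.mem_map.2 ⟨z, ((o3 x hx).2.2 z).2 ⟨hz, e f f1⟩, ?_⟩)
    induction hh using Submodule.span_induction with
    | mem g hg => exact e g hg
    | zero => rfl
    | add g g' _ _ a b => rw [Pi.add_apply, a, b, add_zero]
    | smul c g _ a => rw [Pi.smul_apply, a, smul_zero]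

end Pool.Agent.P.MP_ab0431_ag.GR

end

section

/-! Step DICH. -/

set_option autoImplicit false

namespace Pool.Agent.P.MP_ab0431_ag.GR

open Set Filter Topology Metric
open scoped Manifold ContDiff ContinuousMap

namespace DICHx

/-- The change of coordinates. -/
def q (x : ℂ × (ℂ × ℂ)) : C2 × ℂ := (![x.2.1, x.1], x.2.2)

theorem q_diff : Differentiable ℂ q := by
  refine Differentiable.prodMk ?_ (by fun_prop)
  rw [differentiable_pi]
  intro i
  fin_cases i
  · show Differentiable ℂ fun x : ℂ × (ℂ × ℂ) => x.2.1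
    fun_prop
  · show Differentiable ℂ fun x : ℂ × (ℂ × ℂ) => x.1
    fun_prop

theorem eta (u : C2) : (![u 0, u 1] : C2) = u := by
  funext i
  fin_cases i <;> rfl

end DICHx

open DICHx in
theorem p_DICH (hPROJ : S_PROJ) :
    S_DICH := by
  intro S O u₀ t₀ hO hm hS hiso hfr N hN
  have hV : ∀ᶠ u in 𝓝 u₀, u ∈ N ∧ (u ≠ u₀ → ∃ f ∈ S, f (u, t₀) ≠ 0) :=
    Filter.Eventually.and hN (eventually_nhdsWithin_iff.1 hiso)
  have hr : Continuous fun x : ℂ × ℂ => (![x.1, x.2] : C2) := by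
    refine continuous_pi fun i => ?_
    fin_cases i
    · exact continuous_fst
    · exact continuous_snd
  have hV' : ∀ᶠ x : ℂ × ℂ in 𝓝 (u₀ 0, u₀ 1), (![x.1, x.2] : C2) ∈ N ∧
      ((![x.1, x.2] : C2) ≠ u₀ → ∃ f ∈ S, f (![x.1, x.2], t₀) ≠ 0) := by
    have ht : Tendsto (fun x : ℂ × ℂ => (![x.1, x.2] : C2)) (𝓝 (u₀ 0, u₀ 1)) (𝓝 u₀) := by
      have := hr.tendsto (u₀ 0, u₀ 1)
      rwa [show (![(u₀ 0, u₀ 1).1, (u₀ 0, u₀ 1).2] : C2) = u₀ from eta u₀] at this
    exact ht.eventually hV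
  obtain ⟨N0, hN0, N1, hN1, hsub⟩ := mem_nhds_prod_iff.1 hV'
  have hP : ∀ a ∈ N0, ∀ b ∈ N1, (![a, b] : C2) ∈ N ∧
      ((![a, b] : C2) ≠ u₀ → ∃ f ∈ S, f (![a, b], t₀) ≠ 0) :=
    fun a ha b hb => hsub (mk_mem_prod ha hb)
  obtain ⟨N1', O', S', h1, h2, h3, h4, -, h6, h7⟩ := hPROJ (ℂ × ℂ) ((fun f => f ∘ q) '' S)
    (q ⁻¹' O) (u₀ 1) (u₀ 0, t₀) N1 (hO.preimage q_diff.continuous)
    (by
      show (![u₀ 0, u₀ 1], t₀) ∈ O
      rwa [eta])
    (by
      rintro _ ⟨f, hf, rfl⟩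
      exact (hS f hf).comp q_diff.differentiableOn fun x hx => hx)
    hN1
    (by
      refine eventually_nhdsWithin_iff.2 (Filter.Eventually.mono hN1 fun z hz hne => ?_)
      obtain ⟨f, hf, h⟩ := (hP _ (mem_of_mem_nhds hN0) z hz).2 fun h => hne (congrFun h 1)
      exact ⟨_, ⟨f, hf, rfl⟩, h⟩)
  have h7' : ∀ x ∈ O', (∀ g ∈ S', g x = 0) ↔ ∃ z ∈ N1', ∀ f ∈ S, f (![x.1, z], x.2) = 0 := by
    intro x hx
    rw [h7 x hx]
    refine exists_congr fun z => and_congr_right fun _ => ?_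
    rw [forall_mem_image]
    rfl
  obtain ⟨N0', O'', S'', k1, k2, k3, k4, k5, k6, k7⟩ := hPROJ ℂ S' O' (u₀ 0) t₀ N0 h3 h4 h6 hN0
    (by
      have he : ∀ᶠ z in 𝓝 (u₀ 0), (z, t₀) ∈ O' :=
        (Continuous.prodMk_left t₀).continuousAt.eventually (h3.mem_nhds h4)
      refine eventually_nhdsWithin_iff.2 ((he.and hN0).mono fun z hz hne => ?_)
      by_contra hc
      push Not at hc
      obtain ⟨b, hb, h⟩ := (h7' _ hz.1).1 hc
      obtain ⟨f, hf, h'⟩ := (hP z hz.2 b (h2 hb)).2 fun h => hne (congrFun h 0)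
      exact h' (h f hf))
  have hev : ∀ᶠ x : C2 × ℂ in 𝓝 (u₀, t₀), x.1 0 ∈ N0' ∧ x.1 1 ∈ N1' ∧ x.2 ∈ O'' := by
    refine Filter.Eventually.and ?_ (Filter.Eventually.and ?_ ?_)
    · exact ((continuous_apply 0).comp continuous_fst).continuousAt.eventually k1
    · exact ((continuous_apply 1).comp continuous_fst).continuousAt.eventually h1
    · exact continuous_snd.continuousAt.eventually (k3.mem_nhds k4)
  have hfr' : ∃ᶠ x : C2 × ℂ in 𝓝 (u₀, t₀), (∀ g ∈ S'', g x.2 = 0) ∧ x.2 ≠ t₀ := by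
    refine (hfr.and_eventually hev).mono fun x ⟨⟨a, b⟩, c, d, e⟩ => ⟨?_, a⟩
    refine (k7 _ e).2 ⟨x.1 0, c, (h7' _ (k5 (mk_mem_prod c e))).2 ⟨x.1 1, d, fun f hf => ?_⟩⟩
    show f (![x.1 0, x.1 1], x.2) = 0
    rw [eta]
    exact b f hf
  have hfr'' : ∃ᶠ t in 𝓝[≠] t₀, ∀ g ∈ S'', g t = 0 :=
    frequently_nhdsWithin_iff.2
      ((continuous_snd.tendsto (u₀, t₀)).frequently
        (p := fun t => (∀ g ∈ S'', g t = 0) ∧ t ∈ ({t₀}ᶜ : Set ℂ)) hfr')
  obtain ⟨ε, hε, hb⟩ := Metric.isOpen_iff.1 k3 t₀ k4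
  have hz : ∀ g ∈ S'', EqOn g 0 (ball t₀ ε) := fun g hg =>
    (((k6 g hg).mono hb).analyticOnNhd isOpen_ball).eqOn_zero_of_preconnected_of_frequently_eq_zero
      (convex_ball t₀ ε).isPreconnected (mem_ball_self hε) (hfr''.mono fun t ht => ht g hg)
  filter_upwards [ball_mem_nhds t₀ hε] with t ht
  obtain ⟨a, ha, h⟩ := (k7 t (hb ht)).1 fun g hg => hz g hg ht
  obtain ⟨b, hb', h'⟩ := (h7' _ (k5 (mk_mem_prod ha (hb ht)))).1 h
  exact ⟨![a, b], (hP a (k2 ha) b (h2 hb')).1, h'⟩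

end Pool.Agent.P.MP_ab0431_ag.GR

end
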