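import Pool.Agent.P.MP_ab0431_ag.GR.IfaceA

section

/-! Step TR. -/

set_option autoImplicit false

namespace Pool.Agent.P.MP_ab0431_ag.GR

open Set Filter Topology Metric
open scoped Manifold ContDiff ContinuousMap

theorem p_TR :
    S_TR := by
  rintro F D ψ E _ _ f x hC ⟨j, h1, h2, h3⟩ hx
  have hj : j x ∈ F.κ ⁻¹' ψ.source := by
    rw [mem_preimage, ← h1.self_of_nhds]; exact hx
  obtain ⟨h4, h5⟩ := hC.1.2 (j x) hj
  have h6 := h4.comp x h2
  have h7 := mfderiv_comp x h4 h2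
  have e : (fun y => (ψ (f y)).1) =ᶠ[𝓝 x] (fun z => (ψ (F.κ z)).1) ∘ j :=
    h1.mono fun y hy => by simp only [hy, Function.comp_apply]
  refine ⟨(mdifferentiableAt_iff_differentiableAt.1 h6).congr_of_eventuallyEq e, ?_⟩
  rw [e.fderiv_eq, ← mfderiv_eq_fderiv, h7]
  exact h5.comp h3

end Pool.Agent.P.MP_ab0431_ag.GR

end

section

/-! Step TR2. -/

set_option autoImplicit false

namespace Pool.Agent.P.MP_ab0431_ag.GR

open Set Filter Topology Metric
open scoped Manifold ContDiff ContinuousMap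

theorem p_TR2 (hLINV : S_LINV) :
    S_TR2 := by
  intro F D ψ E _ _ f x hC hf ⟨z, hz⟩ hψ hI
  have : Nonempty F.Z := ⟨z⟩
  obtain ⟨j, jx, jc, je⟩ : ∃ j : E → F.Z, j x = z ∧ ContinuousAt j x ∧
      ∀ᶠ y in 𝓝 x, f y = F.κ (j y) := by
    let k := F.emb.toOpenPartialHomeomorph F.κ
    have ht : k.target = range F.κ := F.emb.toOpenPartialHomeomorph_target F.κ
    refine ⟨fun y => k.symm (f y), ?_, (k.continuousAt_symm (ht ▸ ⟨z, hz⟩)).comp hf, ?_⟩
    · exact (congrArg k.symm hz.symm).trans (k.left_inv trivial)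
    · filter_upwards [hf.eventually (F.emb.isOpen_range.mem_nhds ⟨z, hz⟩)] with y hy
      exact (k.right_inv (ht ▸ hy)).symm
  let H : F.Z → (C2 × ℂ) × ℂ := fun w => (ψ (F.κ w)).1
  let c := chartAt (C2 × ℂ) z
  have hc : c.MDifferentiable 𝓘(ℂ, C2 × ℂ) 𝓘(ℂ, C2 × ℂ) := mdifferentiable_chart z
  have zs : z ∈ c.source := mem_chart_source _ z
  have zt : c z ∈ c.target := c.map_source zs
  have zz : c.symm (c z) = z := c.left_inv zs
  have hψz : F.κ (c.symm (c z)) ∈ ψ.source := by rw [zz, hz]; exact hψ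
  have hG : AnalyticAt ℂ (H ∘ c.symm) (c z) := by
    refine an_of_ev ?_
    filter_upwards [c.open_target.mem_nhds zt, (F.emb.continuous.continuousAt.comp
      (c.continuousAt_symm zt)).eventually (ψ.open_source.mem_nhds hψz)] with s h1 h2
    exact mdifferentiableAt_iff_differentiableAt.1
      ((hC.1.2 _ h2).1.comp s (hc.mdifferentiableAt_symm h1))
  have hGi : Function.Injective (fderiv ℂ (H ∘ c.symm) (c z)) := by
    rw [← mfderiv_eq_fderiv, mfderiv_comp _ (hC.1.2 _ hψz).1 (hc.mdifferentiableAt_symm zt)]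
    exact (hC.1.2 _ hψz).2.comp (hc.symm.mfderiv_injective zt)
  obtain ⟨r, ra, re⟩ := hLINV _ _ _ _ hG hGi
  have e1 : (fun y => (ψ (f y)).1) =ᶠ[𝓝 x] H ∘ j :=
    je.mono fun y hy => congrArg (fun w => (ψ w).1) hy
  have e0 : (H ∘ c.symm) (c z) = (ψ (f x)).1 := by
    rw [Function.comp_apply, zz, ← hz]
  have e2 : j =ᶠ[𝓝 x] c.symm ∘ r ∘ fun y => (ψ (f y)).1 := by
    have t1 : Tendsto j (𝓝 x) (𝓝 z) := jx ▸ jc
    filter_upwards [e1, t1.eventually (c.open_source.mem_nhds zs),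
      ((c.continuousAt zs).tendsto.comp t1).eventually re] with y h1 h2 h3
    simp only [Function.comp_apply, c.left_inv h2] at h1 h3 ⊢
    rw [h1, h3, c.left_inv h2]
  have e3 : r (ψ (f x)).1 = c z := e0 ▸ re.self_of_nhds
  have md : MDifferentiableAt 𝓘(ℂ, E) 𝓘(ℂ, C2 × ℂ) j x := by
    refine MDifferentiableAt.congr_of_eventuallyEq ?_ e2
    refine (hc.mdifferentiableAt_symm (by rw [Function.comp_apply, e3]; exact zt)).comp x ?_
    exact mdifferentiableAt_iff_differentiableAt.2 ((e0 ▸ ra.differentiableAt).comp x hI.1)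
  refine ⟨j, je, md, ?_⟩
  have h2 := hI.2
  rw [← mfderiv_eq_fderiv, e1.mfderiv_eq,
    mfderiv_comp x (hC.1.2 (j x) (by rw [jx, mem_preimage, hz]; exact hψ)).1 md] at h2
  exact Function.Injective.of_comp h2

end Pool.Agent.P.MP_ab0431_ag.GR

end

section

/-! Step REG1. -/

set_option autoImplicit false

namespace Pool.Agent.P.MP_ab0431_ag.GR

open Set Filter Topology Metric
open scoped Manifold ContDiff ContinuousMap

namespace REG1x

theorem lin (l : (C2 × ℂ) →L[ℂ] ℂ) (h : Function.Surjective l) :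
    ∃ L : (C2 × ℂ) →L[ℂ] C2, Function.Injective (L.prod l) := by
  have h1 := l.toLinearMap.finrank_range_add_finrank_ker
  rw [LinearMap.range_eq_top.2 h, finrank_top, Module.finrank_prod, add_comm] at h1
  let e := LinearEquiv.ofFinrankEq (LinearMap.ker l.toLinearMap) C2 (add_right_cancel h1)
  obtain ⟨π, hπ⟩ := (LinearMap.ker l.toLinearMap).subtype.exists_leftInverse_of_injective
    (Submodule.ker_subtype _)
  refine ⟨LinearMap.toContinuousLinearMap (e.toLinearMap.comp π),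
    (injective_iff_map_eq_zero _).2 fun v hv => ?_⟩
  have a : e (π v) = 0 := congrArg Prod.fst hv
  have b : v ∈ LinearMap.ker l.toLinearMap := congrArg Prod.snd hv
  have c : π v = ⟨v, b⟩ := LinearMap.congr_fun hπ ⟨v, b⟩
  rw [c, e.map_eq_zero_iff] at a
  exact congrArg Subtype.val a

end REG1x

theorem p_REG1 :
    S_REG1 := by
  rintro F _ ⟨z, rfl⟩
  have : Nonempty F.Z := ⟨z⟩
  let c := chartAt (C2 × ℂ) z
  have hc : c.MDifferentiable 𝓘(ℂ, C2 × ℂ) 𝓘(ℂ, C2 × ℂ) := mdifferentiable_chart z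
  have hz : c z ∈ c.target := mem_chart_target _ z
  let f : C2 × ℂ → ℂ := (F.p ∘ F.κ) ∘ c.symm
  have hf : AnalyticAt ℂ f (c z) := an_of_ev (mem_of_superset (c.open_target.mem_nhds hz)
    fun y hy => mdifferentiableAt_iff_differentiableAt.1
      ((F.subm.1 _).comp y (hc.mdifferentiableAt_symm hy)))
  have hs : Function.Surjective (fderiv ℂ f (c z)) := by
    rw [← mfderiv_eq_fderiv, mfderiv_comp _ (F.subm.1 _) (hc.mdifferentiableAt_symm hz)]
    exact (F.subm.2 _).comp (hc.symm.mfderiv_surjective hz)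
  obtain ⟨L, hL⟩ := REG1x.lin _ hs
  obtain ⟨Ψ, h1, -, h3, h4, h5⟩ := inv (Φ := fun y => (L y, f y)) ((L.analyticAt _).prod hf)
    (by rwa [(L.hasFDerivAt.prodMk hf.differentiableAt.hasFDerivAt).fderiv]) univ_mem
  have hΨ : (c.trans Ψ).MDifferentiable 𝓘(ℂ, C2 × ℂ) 𝓘(ℂ, C2 × ℂ) :=
    hc.trans ⟨mdifferentiableOn_iff_differentiableOn.2 h4,
      mdifferentiableOn_iff_differentiableOn.2 h5⟩
  let e := F.emb.toOpenPartialHomeomorph F.κ
  have he : e.symm (F.κ z) = z := e.left_inv (mem_univ z)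
  refine ⟨e.symm.trans (c.trans Ψ), ⟨fun w hw => ?_, fun x hx _ => ⟨(c.trans Ψ).symm,
    .of_forall fun _ => rfl, hΨ.mdifferentiableAt_symm hx.1, hΨ.symm.mfderiv_injective hx.1⟩⟩,
    e.map_source (mem_univ z), ?_⟩
  · change (Ψ (c (e.symm w))).2 = _
    rw [h3]
    change F.p (e (c.symm (c (e.symm w)))) = _
    rw [c.left_inv (x := e.symm w) hw.2.1, e.right_inv hw.1]
  · change e.symm (F.κ z) ∈ (c.trans Ψ).source
    rw [he]
    exact ⟨mem_chart_source _ z, h1⟩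

end Pool.Agent.P.MP_ab0431_ag.GR

end

section

/-! Step REG2. -/

set_option autoImplicit false

namespace Pool.Agent.P.MP_ab0431_ag.GR

open Set Filter Topology Metric
open scoped Manifold ContDiff ContinuousMap

theorem p_REG2 (hHYPC : S_HYPC) (hTR2 : S_TR2) :
    S_REG2 := by
  intro F D ψ hψ w hw h
  obtain ⟨c, c1, c2, c3⟩ := hHYPC D (ψ w) (hψ.1.1 _ (ψ.map_source hw)) h
  refine ⟨ψ.trans c, ⟨fun w' hw' => ?_, fun x hx hr => ?_⟩, ⟨hw, c1⟩⟩
  · exact (c2 _ hw'.2).trans (hψ.2 w' hw'.1).symm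
  · have e : (fun y => (ψ ((ψ.trans c).symm y)).1) =ᶠ[𝓝 x] fun y => (c.symm y).1 := by
      filter_upwards [(ψ.trans c).open_target.mem_nhds hx] with y hy
      exact congrArg Subtype.val (ψ.right_inv hy.2)
    refine hTR2 F D ψ _ _ x hψ ((ψ.trans c).continuousAt_symm hx) hr
      ((ψ.trans c).map_target hx).1 ⟨(c3 x hx.1).1.congr_of_eventuallyEq e, ?_⟩
    rw [e.fderiv_eq]
    exact (c3 x hx.1).2

end Pool.Agent.P.MP_ab0431_ag.GR

end

section

/-! Step SLICE. -/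

set_option autoImplicit false

namespace Pool.Agent.P.MP_ab0431_ag.GR

open Set Filter Topology Metric
open scoped Manifold ContDiff ContinuousMap

namespace SLICEx

variable {W : Type} [TopologicalSpace W] (p : W → ℂ) (φ : OpenPartialHomeomorph W (C2 × ℂ))
  (hp : ∀ w ∈ φ.source, (φ w).2 = p w) (w : W)

include hp in
theorem mem {u : C2} {t : ℂ} (h : (u, t) ∈ φ.target) : φ.symm (u, t) ∈ p ⁻¹' {t} := by
  have := hp _ (φ.map_target h)
  rw [φ.right_inv h] at this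
  exact this.symm

include hp in
theorem pair {t : ℂ} (v : p ⁻¹' {t}) (h : v.1 ∈ φ.source) : ((φ v.1).1, t) = φ v.1 :=
  Prod.ext rfl ((hp _ h).trans v.2).symm

open Classical in
/-- The parametrisation of the fibre. -/
noncomputable def fn (u : C2) : p ⁻¹' {p w} :=
  if h : (u, p w) ∈ φ.target then ⟨φ.symm (u, p w), mem p φ hp h⟩ else ⟨w, rfl⟩

theorem fn_val {u : C2} (h : (u, p w) ∈ φ.target) : (fn p φ hp w u).1 = φ.symm (u, p w) := by
  rw [fn, dif_pos h]

/-- The chart of the fibre. -/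
noncomputable def ch : OpenPartialHomeomorph C2 (p ⁻¹' {p w}) where
  toFun := fn p φ hp w
  invFun v := (φ v.1).1
  source := {u | (u, p w) ∈ φ.target}
  target := Subtype.val ⁻¹' φ.source
  map_source' u h := by
    change (fn p φ hp w u).1 ∈ φ.source
    rw [fn_val p φ hp w h]
    exact φ.map_target h
  map_target' v h := by
    change ((φ v.1).1, p w) ∈ φ.target
    rw [pair p φ hp v h]
    exact φ.map_source h
  left_inv' u h := by
    rw [fn_val p φ hp w h, φ.right_inv h]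
  right_inv' v h := by
    have h1 : ((φ v.1).1, p w) ∈ φ.target := by
      rw [pair p φ hp v h]
      exact φ.map_source h
    refine Subtype.ext ?_
    rw [fn_val p φ hp w h1, pair p φ hp v h, φ.left_inv h]
  open_source := φ.open_target.preimage (continuous_id.prodMk continuous_const)
  open_target := φ.open_source.preimage continuous_subtype_val
  continuousOn_toFun := by
    rw [IsInducing.subtypeVal.continuousOn_iff]
    exact (φ.continuousOn_symm.comp (continuous_id.prodMk continuous_const).continuousOn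
      fun u h => h).congr fun u h => fn_val p φ hp w h
  continuousOn_invFun :=
    continuous_fst.comp_continuousOn
      (φ.continuousOn.comp continuous_subtype_val.continuousOn fun _ h => h)

end SLICEx

theorem p_SLICE :
    S_SLICE := by
  rintro F w ⟨φ, ⟨hp, hI⟩, hw⟩
  let e := SLICEx.ch F.p φ hp w
  have hwt : (⟨w, rfl⟩ : F.p ⁻¹' {F.p w}) ∈ e.target := hw
  have hx : (φ w).1 ∈ e.source := e.map_target hwt
  refine ⟨e, (φ w).1, hx, congrArg Subtype.val (e.right_inv hwt), ?_⟩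
  have hfin : {u | u ∈ e.source ∧ (e u).1 ∉ range F.κ}.Finite := by
    refine Set.Finite.of_finite_image (f := fun u => (e u).1)
      ((F.fin (F.p w)).subset ?_) fun a ha b hb h => e.injOn ha.1 hb.1 (Subtype.ext h)
    rintro _ ⟨u, hu, rfl⟩
    exact ⟨(e u).2, hu.2⟩
  have hc : ∀ᶠ y in 𝓝 (φ w).1, y ∉ {u | u ∈ e.source ∧ (e u).1 ∉ range F.κ} \ {(φ w).1} :=
    (hfin.subset sdiff_subset).isClosed.isOpen_compl.mem_nhds fun h => h.2 rfl
  filter_upwards [mem_nhdsWithin_of_mem_nhds hc,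
    mem_nhdsWithin_of_mem_nhds (e.open_source.mem_nhds hx), self_mem_nhdsWithin] with y h1 h2 h3
  have h4 : (e y).1 ∈ range F.κ := by
    by_contra h
    exact h1 ⟨⟨h2, h⟩, h3⟩
  have ev : ∀ u ∈ e.source, (e u).1 = φ.symm (u, F.p w) := fun u hu => SLICEx.fn_val F.p φ hp w hu
  rw [ev y h2] at h4
  obtain ⟨j, a, b, c⟩ := hI (y, F.p w) h2 h4
  have hd : HasFDerivAt (fun z : C2 => (z, F.p w)) (ContinuousLinearMap.inl ℂ C2 ℂ) y :=
    hasFDerivAt_prodMk_left y (F.p w)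
  have hm : HasMFDerivAt 𝓘(ℂ, C2) 𝓘(ℂ, C2 × ℂ) (fun z : C2 => (z, F.p w)) y
      (ContinuousLinearMap.inl ℂ C2 ℂ) := hd.hasMFDerivAt
  have hj := b.hasMFDerivAt.comp y hm
  refine ⟨j ∘ fun z => (z, F.p w), ?_, hj.mdifferentiableAt, ?_⟩
  · filter_upwards [hd.continuousAt.eventually a, e.open_source.mem_nhds h2] with z h5 h6
    exact (ev z h6).trans h5
  · rw [hj.mfderiv]
    exact c.comp fun u v h => congrArg Prod.fst h

end Pool.Agent.P.MP_ab0431_ag.GR

end

section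

/-! Step SGD. -/

set_option autoImplicit false

namespace Pool.Agent.P.MP_ab0431_ag.GR

open Set Filter Topology Metric
open scoped Manifold ContDiff ContinuousMap

namespace SGDx

/-- The slice of the hypersurface inside the hypersurface. -/
def emb (D : C2 × ℂ → ℂ) (t : ℂ) (v : Dbl fun u => D (u, t)) : Dbl D :=
  ⟨((v.1.1, t), v.1.2), v.2⟩

/-- A point of the hypersurface at level `t` as a point of the slice. -/
def prj (D : C2 × ℂ → ℂ) (t : ℂ) (v : Dbl D) (h : v.1.1.2 = t) : Dbl fun u => D (u, t) :=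
  ⟨(v.1.1.1, v.1.2), by subst h; exact v.2⟩

theorem emb_prj (D : C2 × ℂ → ℂ) (t : ℂ) (v : Dbl D) (h : v.1.1.2 = t) :
    emb D t (prj D t v h) = v := by
  subst h; rfl

theorem emb_cont (D : C2 × ℂ → ℂ) (t : ℂ) : Continuous (emb D t) :=
  Continuous.subtype_mk (by fun_prop) _

theorem slice {W : Type} [TopologicalSpace W] (p : W → ℂ) (D : C2 × ℂ → ℂ)
    (ψ : OpenPartialHomeomorph W (Dbl D)) (t : ℂ) (hp : ∀ w ∈ ψ.source, p w = (ψ w).1.1.2)
    (w₀ : p ⁻¹' {t}) (v₀ : Dbl fun u => D (u, t)) :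
    ∃ χ : OpenPartialHomeomorph (p ⁻¹' {t}) (Dbl fun u => D (u, t)),
      χ.source = {w | w.1 ∈ ψ.source} ∧ ∀ w ∈ χ.source, emb D t (χ w) = ψ w.1 := by
  classical
  let f : p ⁻¹' {t} → Dbl fun u => D (u, t) := fun w =>
    if h : (ψ w.1).1.1.2 = t then prj D t (ψ w.1) h else v₀
  let g : (Dbl fun u => D (u, t)) → p ⁻¹' {t} := fun v =>
    if h : p (ψ.symm (emb D t v)) = t then ⟨ψ.symm (emb D t v), h⟩ else w₀
  have ht : ∀ w : p ⁻¹' {t}, w.1 ∈ ψ.source → (ψ w.1).1.1.2 = t := fun w hw =>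
    (hp _ hw).symm.trans w.2
  have hf : ∀ w : p ⁻¹' {t}, w.1 ∈ ψ.source →
      (f w).1 = ((ψ w.1).1.1.1, (ψ w.1).1.2) := fun w hw => by
    simp only [f, dif_pos (ht w hw), prj]
  have he : ∀ w : p ⁻¹' {t}, w.1 ∈ ψ.source → emb D t (f w) = ψ w.1 := fun w hw => by
    simp only [f, dif_pos (ht w hw), emb_prj]
  have hg : ∀ v, emb D t v ∈ ψ.target → (g v).1 = ψ.symm (emb D t v) := fun v hv => by
    have h : p (ψ.symm (emb D t v)) = t := by
      rw [hp _ (ψ.map_target hv), ψ.right_inv hv]; rfl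
    simp only [g, dif_pos h]
  refine ⟨{ toFun := f
            invFun := g
            source := {w | w.1 ∈ ψ.source}
            target := {v | emb D t v ∈ ψ.target}
            map_source' := fun w hw => ?_
            map_target' := fun v hv => ?_
            left_inv' := fun w hw => ?_
            right_inv' := fun v hv => ?_
            open_source := ψ.open_source.preimage continuous_subtype_val
            open_target := ψ.open_target.preimage (emb_cont D t)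
            continuousOn_toFun := ?_
            continuousOn_invFun := ?_ }, rfl, he⟩
  · show emb D t (f w) ∈ ψ.target
    rw [he w hw]; exact ψ.map_source hw
  · show (g v).1 ∈ ψ.source
    rw [hg v hv]; exact ψ.map_target hv
  · refine Subtype.ext ?_
    rw [hg _ (by rw [he w hw]; exact ψ.map_source hw), he w hw, ψ.left_inv hw]
  · refine Subtype.ext ?_
    rw [hf _ (by rw [hg v hv]; exact ψ.map_target hv), hg v hv, ψ.right_inv hv]
    rfl
  · rw [IsInducing.subtypeVal.continuousOn_iff]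
    have h1 : ContinuousOn (fun w : p ⁻¹' {t} => (ψ w.1).1) {w | w.1 ∈ ψ.source} :=
      continuous_subtype_val.comp_continuousOn
        (ψ.continuousOn.comp continuous_subtype_val.continuousOn fun _ h => h)
    exact (h1.fst.fst.prodMk h1.snd).congr hf
  · rw [IsInducing.subtypeVal.continuousOn_iff]
    exact (ψ.continuousOn_symm.comp (emb_cont D t).continuousOn fun _ h => h).congr hg

theorem imAt_of {G : C2 → (C2 × ℂ) × ℂ} {g : C2 → C2 × ℂ} {t : ℂ} {y : C2} (h : ImAt G y)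
    (e : ∀ᶠ z in 𝓝 y, G z = (((g z).1, t), (g z).2)) : ImAt g y := by
  have h1 : DifferentiableAt ℂ g y :=
    (h.1.fst.fst.prodMk h.1.snd).congr_of_eventuallyEq (e.mono fun z hz => by simp only [hz])
  have h2 : DifferentiableAt ℂ (fun q : C2 × ℂ => ((q.1, t), q.2)) (g y) := by fun_prop
  have h3 : fderiv ℂ G y = (fderiv ℂ (fun q : C2 × ℂ => ((q.1, t), q.2)) (g y)).comp
      (fderiv ℂ g y) := by
    rw [← fderiv_comp y h2 h1]
    exact Filter.EventuallyEq.fderiv_eq e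
  refine ⟨h1, ?_⟩
  have h4 := h.2
  rw [h3, ContinuousLinearMap.coe_comp] at h4
  exact h4.of_comp

end SGDx

open SGDx in
theorem p_SGD (hINV : S_INV) (hTR : S_TR) :
    S_SGD := by
  intro F D ψ t hch w hw ⟨e, x, hx, hxw, him⟩ hs
  subst hxw
  have ht : (ψ (e x).1).1.1.2 = t := (hch.2 _ hw).symm.trans (e x).2
  obtain ⟨χ, h1, h2⟩ := slice F.p D ψ t hch.2 (e x) (prj D t _ ht)
  have hxs : x ∈ (e.trans χ).source := ⟨hx, by rw [h1]; exact hw⟩
  have hval : ∀ z ∈ (e.trans χ).source, (ψ (e z).1).1 =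
      ((((e.trans χ) z).1.1, t), ((e.trans χ) z).1.2) := fun z hz =>
    (congrArg Subtype.val (h2 _ hz.2)).symm
  have hq : (ψ (e x).1).1.1 = (((e.trans χ) x).1.1, t) := congrArg Prod.fst (hval x hxs)
  have han : AnalyticAt ℂ D (((e.trans χ) x).1.1, t) := hq ▸ hch.1.1 _ (ψ.map_source hw)
  have hin : AnalyticAt ℂ (fun u : C2 => (u, t)) ((e.trans χ) x).1.1 :=
    analyticAt_id.prod analyticAt_const
  rw [hq] at hs ⊢
  refine hINV (fun u => D (u, t)) (e.trans χ) x hxs (han.comp_of_eq hin rfl) ?_ ?_ ?_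
  · exact pow_eq_zero_iff two_ne_zero |>.1 (((e.trans χ) x).2.trans hs.1)
  · have h3 := han.differentiableAt.hasFDerivAt.comp ((e.trans χ) x).1.1
      (hasFDerivAt_prodMk_left (𝕜 := ℂ) ((e.trans χ) x).1.1 t)
    refine h3.fderiv.trans ?_
    ext1 v
    exact hs.2 v
  · filter_upwards [him, mem_nhdsWithin_of_mem_nhds ((e.trans χ).open_source.mem_nhds hxs)]
      with y hy hys
    have hy2 : (e y).1 ∈ ψ.source := by
      have := hys.2
      rw [h1] at this
      exact this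
    exact imAt_of (hTR F D ψ C2 (fun z => (e z).1) y hch hy hy2)
      (mem_of_superset ((e.trans χ).open_source.mem_nhds hys) hval)

end Pool.Agent.P.MP_ab0431_ag.GR

end

section

/-! Step DEG. -/

set_option autoImplicit false

namespace Pool.Agent.P.MP_ab0431_ag.GR

open Set Filter Topology Metric
open scoped Manifold ContDiff ContinuousMap

theorem p_DEG (hREG1 : S_REG1) (hTR : S_TR) (hFLAT : S_FLAT) :
    S_DEG := by
  intro F D ψ hC w hw h0
  have e0 : (ψ w).1.1 = ((ψ w).1.1.1, F.p w) := Prod.ext rfl (hC.2 w hw).symm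
  have e1 : (ψ w).1 = (((ψ w).1.1.1, F.p w), 0) := by
    refine Prod.ext e0 (pow_eq_zero_iff two_ne_zero |>.1 ?_)
    rw [(ψ w).2, e0]
    exact h0.self_of_nhds
  obtain ⟨O, hO, hO'⟩ := isOpen_induced_iff.1 ψ.open_target
  obtain ⟨r, hr, han⟩ := (hC.1.1 _ (ψ.map_source hw)).exists_ball_analyticOnNhd
  have a1 : ∀ᶠ u in 𝓝 (ψ w).1.1.1, ((u, F.p w), (0 : ℂ)) ∈ O := by
    refine ContinuousAt.eventually_mem (f := fun u => ((u, F.p w), (0 : ℂ))) (by fun_prop)
      (hO.mem_nhds ?_)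
    have := ψ.map_source hw
    rw [← hO'] at this
    exact e1 ▸ this
  have a2 : ∀ᶠ u in 𝓝 (ψ w).1.1.1, (u, F.p w) ∈ ball (ψ w).1.1 r := by
    refine ContinuousAt.eventually_mem (f := fun u => (u, F.p w)) (by fun_prop) ?_
    exact e0 ▸ ball_mem_nhds _ hr
  have := Module.punctured_nhds_neBot ℂ C2 (ψ w).1.1.1
  obtain ⟨u, ⟨b1, b2, b3⟩, b4⟩ := (infinite_of_mem_nhds _
    (a1.and (a2.and h0.eventually_nhds))).exists_notMem_finite
    ((F.fin (F.p w)).image fun w' => (ψ w').1.1.1)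
  obtain ⟨v, hv⟩ : ∃ v : Dbl D, v.1 = ((u, F.p w), 0) :=
    ⟨⟨_, by simpa using b3.self_of_nhds.symm⟩, rfl⟩
  have c1 : v ∈ ψ.target := by
    rw [← hO', mem_preimage, hv]
    exact b1
  have c2 := ψ.map_target c1
  have c3 := ψ.right_inv c1
  have c4 : F.p (ψ.symm v) = F.p w := by rw [hC.2 _ c2, c3, hv]
  have c5 : ψ.symm v ∈ range F.κ := by
    by_contra n
    exact b4 ⟨_, ⟨c4, n⟩, by simp only [c3, hv]⟩
  obtain ⟨φ, hφ, c6⟩ := hREG1 F _ c5
  have c7 := φ.left_inv c6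
  have d1 : φ (ψ.symm v) ∈ (φ.symm.trans ψ).source := ⟨φ.map_source c6, by
    change φ.symm (φ (ψ.symm v)) ∈ ψ.source
    rwa [c7]⟩
  have d2 : (φ.symm.trans ψ) (φ (ψ.symm v)) = v := by
    change ψ (φ.symm (φ (ψ.symm v))) = v
    rw [c7, c3]
  have d3 : ∀ᶠ y in 𝓝 (φ (ψ.symm v)), φ.symm y ∈ range F.κ :=
    (φ.continuousAt_symm (φ.map_source c6)).eventually_mem
      (F.emb.isOpen_range.mem_nhds (c7.symm ▸ c5))
  have key := hFLAT D (φ.symm.trans ψ) _ d1 (fun y hy => by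
    change (ψ (φ.symm y)).1.1.2 = y.2
    rw [← hC.2 (φ.symm y) hy.2, ← hφ.1 _ (φ.map_target hy.1), φ.right_inv hy.1]) (by
    filter_upwards [(φ.symm.trans ψ).open_source.mem_nhds d1, d3] with y h1 h2
    exact hTR F D ψ _ φ.symm y hC (hφ.2 y h1.1 h2) h1.2) (by
    rw [d2, hφ.1 _ c6, c4, hv]
    exact b3)
  rw [d2, hv] at key
  exact mem_of_superset (ball_mem_nhds _ hr)
    (han.eqOn_zero_of_preconnected_of_eventuallyEq_zero (convex_ball _ _).isPreconnected b2 key)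

end Pool.Agent.P.MP_ab0431_ag.GR

end

section

/-! Step NREG. -/

set_option autoImplicit false

namespace Pool.Agent.P.MP_ab0431_ag.GR

open Set Filter Topology Metric
open scoped Manifold ContDiff ContinuousMap

theorem p_NREG (hREG1 : S_REG1) (hREG2 : S_REG2) (hSLICE : S_SLICE) (hSGD : S_SGD) (hDEG : S_DEG) :
    S_NREG := by
  intro F
  refine ⟨fun t w h => ?_, fun D ψ hc w hw hn => ?_⟩
  · by_cases hr : w ∈ range F.κ
    · exact hREG1 F w hr
    obtain ⟨D, ψ, hc, hw⟩ := F.exCh hr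
    by_cases hs : Sg D (ψ w).1.1
    · have h1 := hSGD F D ψ t hc w hw h hs
      obtain ⟨e, x, -, hx, -⟩ := h
      have ht : F.p w = t := hx ▸ (e x).2
      exact hREG2 F D ψ hc w hw (Or.inr (hDEG F D ψ hc w hw (ht ▸ h1)))
    · exact hREG2 F D ψ hc w hw (Or.inl hs)
  · have h0 : ¬ ∀ᶠ q in 𝓝 (ψ w).1.1, D q = 0 := fun h => hn (hREG2 F D ψ hc w hw (Or.inr h))
    have ha : AnalyticAt ℂ D (ψ w).1.1 := hc.1.1 _ (ψ.map_source hw)
    obtain ⟨r, hr, hb⟩ := Metric.eventually_nhds_iff_ball.1 ha.eventually_analyticAt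
    have hcont : ContinuousAt (fun w' => (ψ w').1.1) w :=
      (continuous_fst.comp continuous_subtype_val).continuousAt.comp (ψ.continuousAt hw)
    filter_upwards [ψ.open_source.mem_nhds hw, hcont.eventually (ball_mem_nhds _ hr)]
      with w' hw' hB
    refine ⟨fun h => by_contra fun hs => h (hREG2 F D ψ hc w' hw' (Or.inl hs)), fun hs h => h0 ?_⟩
    have h1 := hDEG F D ψ hc w' hw' (hSGD F D ψ _ hc w' hw' (hSLICE F w' h) hs)
    have h2 : EqOn D 0 (ball (ψ w).1.1 r) :=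
      AnalyticOnNhd.eqOn_zero_of_preconnected_of_eventuallyEq_zero hb
        (convex_ball _ _).isPreconnected hB h1
    exact mem_of_superset (ball_mem_nhds _ hr) h2

end Pool.Agent.P.MP_ab0431_ag.GR

end

section

/-! Step SPREAD. -/

set_option autoImplicit false

namespace Pool.Agent.P.MP_ab0431_ag.GR

open Set Filter Topology Metric
open scoped Manifold ContDiff ContinuousMap

theorem p_SPREAD (hREG1 : S_REG1) (hNREG : S_NREG) (hDICH : S_DICH) :
    S_SPREAD := by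
  intro F w hfr
  have hnw : ¬ F.Reg w := fun h => by
    obtain ⟨x, hx, hx'⟩ := (hfr.and_eventually (F.isOpen_reg.mem_nhds h)).exists
    exact hx.2 hx'
  obtain ⟨D, ψ, hCh, hw⟩ := F.exCh (fun h => hnw (hREG1 F w h))
  have hev := (hNREG F).2 D ψ hCh w hw hnw
  have hS0 : Sg D (ψ w).1.1 := hev.self_of_nhds.1 hnw
  have hη : (ψ w).1.2 = 0 := by
    have h := (ψ w).2
    rw [hS0.1] at h
    exact pow_eq_zero_iff two_ne_zero |>.1 h
  have hwt : ψ w ∈ ψ.target := ψ.map_source hw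
  have han : AnalyticAt ℂ D (ψ w).1.1 := hCh.1.1 _ hwt
  have hp : F.p w = (ψ w).1.1.2 := hCh.2 w hw
  let S : Set (C2 × ℂ → ℂ) := insert D (range fun (v : C2) (q : C2 × ℂ) => fderiv ℂ D q (v, 0))
  have hS : ∀ q, (∀ f ∈ S, f q = 0) ↔ Sg D q := fun q =>
    ⟨fun h => ⟨h D (mem_insert _ _), fun v => h _ (mem_insert_of_mem _ ⟨v, rfl⟩)⟩, fun h f hf => by
      rcases hf with rfl | ⟨v, rfl⟩
      · exact h.1
      · exact h.2 v⟩
  have hSd : ∀ f ∈ S, DifferentiableOn ℂ f {q | AnalyticAt ℂ D q} := by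
    rintro f (rfl | ⟨v, rfl⟩) q hq
    · exact (AnalyticAt.differentiableAt hq).differentiableWithinAt
    · exact ((AnalyticAt.fderiv hq).differentiableAt.clm_apply
        (differentiableAt_const _)).differentiableWithinAt
  have h1 : ∀ᶠ v in 𝓝 (ψ w), v ∈ ψ.target ∧
      (¬ F.Reg (ψ.symm v) ↔ Sg D (ψ (ψ.symm v)).1.1) := by
    refine (ψ.open_target.eventually_mem hwt).and ?_
    have hc : Tendsto ψ.symm (𝓝 (ψ w)) (𝓝 w) := by
      have := ψ.continuousAt_symm hwt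
      rwa [ContinuousAt, ψ.left_inv hw] at this
    exact hc.eventually hev
  obtain ⟨u, hu, hu'⟩ := (mem_nhds_subtype _ _ _).1 h1
  have key : ∀ᶠ q in 𝓝 (ψ w).1.1, Sg D q →
      ∃ w', (ψ w').1.1 = q ∧ F.p w' = q.2 ∧ ¬ F.Reg w' := by
    have hc : Tendsto (fun q : C2 × ℂ => (q, (0 : ℂ))) (𝓝 (ψ w).1.1) (𝓝 (ψ w).1) := by
      have : (ψ w).1 = ((ψ w).1.1, 0) := Prod.ext rfl hη
      rw [this]
      exact (Continuous.prodMk_left (0 : ℂ)).continuousAt
    filter_upwards [hc.eventually hu] with q hq hsg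
    have hm : ((q, (0 : ℂ)) : (C2 × ℂ) × ℂ).2 ^ 2 = D (q, (0 : ℂ)).1 := by simp [hsg.1]
    obtain ⟨a, b⟩ := hu' (show (⟨(q, 0), hm⟩ : Dbl D) ∈ Subtype.val ⁻¹' u from hq)
    refine ⟨ψ.symm ⟨(q, 0), hm⟩, by rw [ψ.right_inv a], ?_, b.2 (by rw [ψ.right_inv a]; exact hsg)⟩
    rw [hCh.2 _ (ψ.map_target a), ψ.right_inv a]
  have hiso : ∀ᶠ x in 𝓝[≠] (ψ w).1.1.1, ∃ f ∈ S, f (x, (ψ w).1.1.2) ≠ 0 := by
    have hT := ((F.fin (ψ w).1.1.2).image fun w' => (ψ w').1.1.1).eventually_cofinite_notMem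
    have hc : Tendsto (fun x : C2 => (x, (ψ w).1.1.2)) (𝓝[≠] (ψ w).1.1.1) (𝓝 (ψ w).1.1) :=
      ((Continuous.prodMk_left (ψ w).1.1.2).tendsto _).mono_left nhdsWithin_le_nhds
    filter_upwards [(nhdsNE_le_cofinite _) hT, hc.eventually key] with x hx hk
    by_contra hcon
    push Not at hcon
    obtain ⟨w', a, b, c⟩ := hk ((hS _).1 hcon)
    exact hx ⟨w', ⟨b, fun h => c (hREG1 F w' h)⟩, by simp only [a]⟩
  have hfq : ∃ᶠ q in 𝓝 ((ψ w).1.1.1, (ψ w).1.1.2), q.2 ≠ (ψ w).1.1.2 ∧ ∀ f ∈ S, f q = 0 := by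
    have hc : Tendsto (fun w' => (ψ w').1.1) (𝓝 w) (𝓝 (ψ w).1.1) :=
      (continuous_fst.comp continuous_subtype_val).continuousAt.tendsto.comp (ψ.continuousAt hw)
    refine hc.frequently ((hfr.and_eventually (hev.and (ψ.open_source.eventually_mem hw))).mono ?_)
    rintro x ⟨⟨a, b⟩, c, d⟩
    exact ⟨by rwa [← hCh.2 x d, ← hp], (hS _).2 (c.1 b)⟩
  obtain ⟨N, hN, V, hV, hNV⟩ := mem_nhds_prod_iff.1
    (show {q | Sg D q → ∃ w', (ψ w').1.1 = q ∧ F.p w' = q.2 ∧ ¬ F.Reg w'} ∈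
      𝓝 ((ψ w).1.1.1, (ψ w).1.1.2) from key)
  rw [hp]
  filter_upwards [hDICH S _ _ _ (isOpen_analyticAt ℂ D) han hSd hiso hfq N hN, hV] with t ht htV
  obtain ⟨x, hx, hf⟩ := ht
  obtain ⟨w', -, b, c⟩ := hNV (mk_mem_prod hx htV) ((hS _).1 hf)
  exact ⟨w', b, c⟩

end Pool.Agent.P.MP_ab0431_ag.GR

end

section

/-! Step BAD. -/

set_option autoImplicit false

namespace Pool.Agent.P.MP_ab0431_ag.GR

open Set Filter Topology Metric
open scoped Manifold ContDiff ContinuousMap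

theorem p_BAD (hSPREAD : S_SPREAD) :
    S_BAD := by
  intro F t₀ ht₀ h₀
  have key : ∀ t ∈ F.U, ¬ (∀ᶠ s in 𝓝 t, ∃ w, F.p w = s ∧ ¬ F.Reg w) →
      ∀ᶠ s in 𝓝[≠] t, ∀ w, F.p w = s → F.Reg w := by
    intro t ht hn
    obtain ⟨K, hK, hKU, hKc⟩ := local_compact_nhds (F.op.mem_nhds ht)
    have h1 : ∀ᶠ s in 𝓝 t, ∀ w ∈ F.p ⁻¹' K, F.p w = s → s ≠ t → F.Reg w := by
      refine (F.cpt K hKU hKc).eventually_forall_of_forall_eventually fun w _ => ?_
      by_cases e : F.p w = t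
      · subst e
        have h2 := not_frequently.1 (mt (hSPREAD F w) hn)
        have h6 : ContinuousAt (Prod.snd : ℂ × F.W → F.W) (F.p w, w) := continuousAt_snd
        filter_upwards [h6.eventually h2] with z hz h3 h4
        by_contra h5
        exact hz ⟨h3 ▸ h4, h5⟩
      · have h2 : ∀ᶠ z : ℂ × F.W in 𝓝 (t, w), F.p z.2 ≠ z.1 :=
          (isOpen_ne_fun (F.cont.comp continuous_snd) continuous_fst).mem_nhds e
        exact h2.mono fun z hz h3 => absurd h3 hz
    filter_upwards [nhdsWithin_le_nhds h1, nhdsWithin_le_nhds hK, self_mem_nhdsWithin]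
      with s h2 h3 h4 w hw
    exact h2 w (by rw [mem_preimage, hw]; exact h3) hw h4
  refine F.conn.isPreconnected.subset_left_of_subset_union
    (v := {t | ∀ᶠ s in 𝓝 t, ∃ w, F.p w = s ∧ ¬ F.Reg w})
    isOpen_setOfPred_eventually_nhdsWithin isOpen_setOfPred_eventually_nhds ?_ (fun t ht => ?_)
    ⟨t₀, ht₀, key t₀ ht₀ fun h => ?_⟩
  · refine Set.disjoint_left.2 fun t h1 h2 => ?_
    obtain ⟨s, a, w, b, c⟩ := (Filter.Eventually.and h1 (nhdsWithin_le_nhds h2)).exists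
    exact c (a w b)
  · by_cases h : ∀ᶠ s in 𝓝 t, ∃ w, F.p w = s ∧ ¬ F.Reg w
    · exact Or.inr h
    · exact Or.inl (key t ht h)
  · obtain ⟨w, a, b⟩ := h.self_of_nhds
    exact b (h₀ w a)

end Pool.Agent.P.MP_ab0431_ag.GR

end

section

/-! Step FSG. -/

set_option autoImplicit false

namespace Pool.Agent.P.MP_ab0431_ag.GR

open Set Filter Topology Metric
open scoped Manifold ContDiff ContinuousMap

theorem p_FSG :
    S_FSG := by
  intro F X hι ⟨t, j, j₀, S, hj, hinj, hr, hS, hκ, him⟩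
  have := X.t2B
  have := X.cptB
  have := X.conn
  have := X.mfd
  have : IsManifold 𝓘(ℂ, C2) 1 X.X := IsManifold.of_le (n := ω) le_top
  have hE : IsEmbedding (j ∘ X.ι) :=
    (hj.isClosedEmbedding hinj).isEmbedding.comp X.emb.isEmbedding
  have hR : range (j ∘ X.ι) = F.p ⁻¹' {t} := by rw [hι.range_comp, hr]
  let Hm : X.X ≃ₜ (F.p ⁻¹' {t} : Set F.W) := hE.toHomeomorph.trans (Homeomorph.setCongr hR)
  have : T2Space X.X := X.emb.isEmbedding.t2Space
  obtain ⟨b⟩ : Nonempty X.B := inferInstance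
  have hb : F.p (j b) = t := show j b ∈ F.p ⁻¹' {t} from hr ▸ mem_range_self b
  refine ⟨t, hb ▸ F.mem _, fun w hw => ?_, ⟨Hm⟩⟩
  obtain ⟨x, hx⟩ := Hm.surjective ⟨w, hw⟩
  have hs := mem_chart_source C2 x
  have hc := mdifferentiable_chart (I := 𝓘(ℂ, C2)) x
  generalize chartAt C2 x = c at hs hc
  refine ⟨c.symm.transHomeomorph Hm, c x, c.map_source hs, ?_, ?_⟩
  · show (Hm (c.symm (c x))).1 = w
    rw [c.left_inv hs, hx]
  have hO : IsOpen (c.target ∩ c.symm ⁻¹' (S \ {x})ᶜ) :=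
    c.isOpen_inter_preimage_symm (hS.subset sdiff_subset).isClosed.isOpen_compl
  have hO' : IsOpen ((c.target ∩ c.symm ⁻¹' (S \ {x})ᶜ) \ {c x}) := hO.sdiff isClosed_singleton
  have hn : ∀ y ∈ (c.target ∩ c.symm ⁻¹' (S \ {x})ᶜ) \ {c x}, c.symm y ∉ S := fun y hy h =>
    hy.1.2 ⟨h, fun e => hy.2 ((c.right_inv hy.1.1).symm.trans (congrArg c e))⟩
  have hm : c x ∈ c.target ∩ c.symm ⁻¹' (S \ {x})ᶜ :=
    ⟨c.map_source hs, fun h => h.2 (c.left_inv hs)⟩
  filter_upwards [sdiff_mem_nhdsWithin_compl (hO.mem_nhds hm) {c x}] with y hy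
  have h1 := him _ (hn y hy)
  have h2 := hc.symm.mdifferentiableAt hy.1.1
  refine ⟨j₀ ∘ c.symm, ?_, h1.1.comp y h2, ?_⟩
  · filter_upwards [hO'.mem_nhds hy] with z hz
    exact hκ _ (hn z hz)
  · rw [mfderiv_comp y h1.1 h2]
    exact h1.2.comp (hc.symm.mfderiv_injective hy.1.1)

end Pool.Agent.P.MP_ab0431_ag.GR

end

section

/-! Step HOM. -/

set_option autoImplicit false

namespace Pool.Agent.P.MP_ab0431_ag.GR

open Set Filter Topology Metric
open scoped Manifold ContDiff ContinuousMap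

theorem p_HOM (hFSG : S_FSG) (hNREG : S_NREG) (hBAD : S_BAD) (hCONN : S_CONN) (hCHAIN : S_CHAIN) :
    S_HOM := by
  intro X Y hX hY h
  obtain ⟨F, a, b⟩ := fam_of h
  obtain ⟨s, hs, s1, ⟨e⟩⟩ := hFSG F X hX a
  obtain ⟨t, ht, t1, ⟨e'⟩⟩ := hFSG F Y hY b
  have r1 : ∀ w, F.p w = s → F.Reg w := fun w hw => (hNREG F).1 s w (s1 w hw)
  have r2 : ∀ w, F.p w = t → F.Reg w := fun w hw => (hNREG F).1 t w (t1 w hw)
  obtain ⟨c1, c2⟩ := hCONN F.U {s | ¬ ∀ w, F.p w = s → F.Reg w} F.op F.conn.isPreconnected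
    fun u hu => (hBAD F s hs r1 u hu).mono fun _ h => not_not.2 h
  obtain ⟨g⟩ := hCHAIN F.W F.p _ F.cont c1 c2 (fun K hK => F.cpt K (hK.trans sdiff_subset))
    (fun w hw => (not_not.1 hw.2 w rfl).pch) s ⟨hs, not_not.2 r1⟩ t ⟨ht, not_not.2 r2⟩
  exact ⟨e.toHomotopyEquiv.trans (g.trans e'.symm.toHomotopyEquiv)⟩

end Pool.Agent.P.MP_ab0431_ag.GR

end
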