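import Pool.Agent.P.MP_ab0431_ag.GR.IfaceC
import Pool.Agent.P.MP_ab0431_ag.B.Ser

section

/-! Step ABE. -/

set_option autoImplicit false

namespace Pool.Agent.P.MP_ab0431_ag.GR

open Set Filter Topology Metric T
open scoped Manifold ContDiff

theorem p_ABE :
    S_ABE := by
  classical
  intro G _ A J ρ h w₀ hw₀ hF
  obtain ⟨f, κ, hf⟩ := h.peak w₀ hw₀
  obtain ⟨r₀, hr₀, hK⟩ := nhds_basis_closedBall.mem_iff.1 (A.op.mem_nhds hw₀)
  obtain ⟨M, hM, hb⟩ := hf.sum _ (isCompact_closedBall w₀ r₀) hK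
  set P : V → ℝ := fun w => ‖f w‖ * ρ w with hP
  have P0 : ∀ w ∈ A.Ω, 0 ≤ P w := fun w hw => mul_nonneg (norm_nonneg _) (h.pos w hw).le
  have hw₀K : w₀ ∈ closedBall w₀ r₀ := mem_closedBall_self hr₀.le
  have hle : ∀ g, ∀ w ∈ closedBall w₀ r₀, P (A.a g w) ^ κ ≤ M g := fun g w hw =>
    (le_mul_of_one_le_right (pow_nonneg (P0 _ (A.maps g w (hK hw))) _)
      (le_add_of_nonneg_right (norm_nonneg _))).trans (hb g w hw)
  have M0 : ∀ g, 0 ≤ M g := fun g =>
    (pow_nonneg (P0 _ (A.maps g _ hw₀)) _).trans (hle g _ hw₀K)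
  have hfin : {g | (1 / 2 : ℝ) ^ κ ≤ M g}.Finite := by
    have := hM.tendsto_cofinite_zero.eventually (gt_mem_nhds (by positivity : (0 : ℝ) < (1 / 2) ^ κ))
    exact (eventually_cofinite.1 this).subset fun g hg => not_lt.2 hg
  have hq : ∀ᶠ q in 𝓝[<] (1 : ℝ), ∀ g ∈ {g | (1 / 2 : ℝ) ^ κ ≤ M g},
      g ≠ 1 → P (A.a g w₀) < q := by
    refine (eventually_all_finite hfin).2 fun g _ => ?_
    by_cases e : g = 1
    · exact .of_forall fun _ hne => absurd e hne
    · exact ((lt_mem_nhds (hf.lt _ (A.maps g _ hw₀) fun e' => e (hF g e'))).filter_mono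
        nhdsWithin_le_nhds).mono fun _ hq _ => hq
  obtain ⟨q, hq1, hq2, hq3⟩ := (hq.and ((Ioo_mem_nhdsLT (by norm_num : (1 / 2 : ℝ) < 1)))).exists
  have hPc : ∀ w ∈ A.Ω, ContinuousAt P w := fun w hw =>
    (hf.hol.continuousOn.norm.mul h.cont).continuousAt (A.op.mem_nhds hw)
  have hev : ∀ᶠ w in 𝓝 w₀, ∀ g ∈ {g | (1 / 2 : ℝ) ^ κ ≤ M g}, g ≠ 1 → P (A.a g w) < q := by
    refine (eventually_all_finite hfin).2 fun g hg => ?_
    by_cases e : g = 1
    · exact .of_forall fun _ hne => absurd e hne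
    · have hc : ContinuousAt (fun w => P (A.a g w)) w₀ :=
        ContinuousAt.comp (g := P) (hPc _ (A.maps g _ hw₀)) (A.diffAt g hw₀).continuousAt
      exact (hc.eventually (gt_mem_nhds (hq1 g hg e))).mono fun _ hw _ => hw
  have hev' : ∀ᶠ w in 𝓝 w₀, (1 + q) / 2 < P w :=
    (hPc w₀ hw₀).eventually (lt_mem_nhds (by rw [show P w₀ = 1 from hf.eq]; linarith))
  obtain ⟨r, hr, hball⟩ :=
    Metric.mem_nhds_iff.1 (hev.and (hev'.and (closedBall_mem_nhds w₀ hr₀)))
  have q0 : 0 < q := by linarith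
  have hq' : 0 < (1 + q) / 2 := by linarith
  have hlim := ((tendsto_pow_atTop_nhds_zero_of_lt_one (r := q / ((1 + q) / 2)) (by positivity)
    ((div_lt_one hq').2 (by linarith))).const_mul (3 * (∑' g, M g) / q ^ κ)).eventually_lt_const
      (by norm_num : _ * (0 : ℝ) < 1)
  refine ⟨f, κ, r, hf, hr, fun w hw => hK (hball hw).2.2, ?_⟩
  filter_upwards [hlim, eventually_ge_atTop κ] with k hk1 hk w hw
  obtain ⟨h1, h3, h2⟩ := hball hw
  have hw' := hK h2
  refine ⟨fun h0 => ?_, fun S hS => ?_⟩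
  · simp only [hP, h0, norm_zero, zero_mul] at h3
    linarith
  obtain ⟨j, rfl⟩ := Nat.exists_eq_add_of_le hk
  have key : ∀ g ∈ S, P (A.a g w) ^ (κ + j) ≤ M g * q ^ j := by
    intro g hg
    have hPq : P (A.a g w) ≤ q := by
      by_cases e : (1 / 2 : ℝ) ^ κ ≤ M g
      · exact (h1 g e fun e' => hS (e' ▸ hg)).le
      · by_contra hc
        exact e ((pow_le_pow_left₀ (by norm_num) (by linarith [not_le.1 hc]) _).trans (hle g w h2))
    rw [pow_add]
    exact mul_le_mul (hle g w h2) (pow_le_pow_left₀ (P0 _ (A.maps g w hw')) hPq _)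
      (pow_nonneg (P0 _ (A.maps g w hw')) _) (M0 g)
  have h4 : ∑ g ∈ S, P (A.a g w) ^ (κ + j) ≤ (∑' g, M g) * q ^ j := by
    refine (Finset.sum_le_sum key).trans ?_
    rw [← Finset.sum_mul]
    exact mul_le_mul_of_nonneg_right (hM.sum_le_tsum S fun g _ => M0 g) (by positivity)
  have h5 : 3 * (∑' g, M g) / q ^ κ * (q / ((1 + q) / 2)) ^ (κ + j) =
      3 * ((∑' g, M g) * q ^ j) / ((1 + q) / 2) ^ (κ + j) := by
    rw [div_pow, pow_add q]
    field_simp
  rw [h5, div_lt_one (pow_pos hq' _)] at hk1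
  have h6 : ((1 + q) / 2) ^ (κ + j) ≤ P w ^ (κ + j) := pow_le_pow_left₀ hq'.le h3.le _
  change 3 * ∑ g ∈ S, P (A.a g w) ^ (κ + j) ≤ P w ^ (κ + j)
  linarith

end Pool.Agent.P.MP_ab0431_ag.GR

end

section

/-! Step CSEC. -/

set_option autoImplicit false

namespace Pool.Agent.P.MP_ab0431_ag.GR

open Set Filter Topology Metric T
open scoped Manifold ContDiff

theorem p_CSEC :
    S_CSEC := by
  intro G _ A J ρ w₀ f κ k H _ g₀ h hf hk
  let u : H → V → ℂ := fun g w => (f (A.a (g₀ * g) w) / J (g₀ * g) w) ^ k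
  have hu : ∀ g w, u g w = (trm A J f k (g₀ * g) w).1 := fun g w => by simp [u, trm]
  have bd : ∀ K, IsCompact K → K ⊆ A.Ω → K.Nonempty →
      ∃ M : H → ℝ, Summable M ∧ ∀ g, ∀ w ∈ K, ‖u g w‖ ≤ M g := fun K hK hs hne => by
    obtain ⟨M, hM, hb⟩ := SERAa.bound h hf hk hK hs hne
    refine ⟨fun g => M (g₀ * g), hM.comp_injective fun g g' e =>
      Subtype.ext (mul_left_cancel e), fun g w hw => ?_⟩
    rw [hu]
    exact (norm_fst_le _).trans (hb _ w hw)
  refine ⟨fun w => ∑' g, u g w, ⟨fun c hc => ?_, fun g w hw => ?_⟩, fun w hw => ?_⟩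
  · obtain ⟨r, hr, hs⟩ := nhds_basis_closedBall.mem_iff.1 (A.op.mem_nhds hc)
    obtain ⟨M, hM, hb⟩ := bd _ (isCompact_closedBall c r) hs ⟨c, mem_closedBall_self hr.le⟩
    have h0 : ∀ g, 0 ≤ M g := fun g => (norm_nonneg _).trans (hb g c (mem_closedBall_self hr.le))
    have key : DifferentiableOn ℂ (fun w => ∑' g, u g w) (ball c r) := by
      refine Pool.Agent.P.MP_f17f76_ag.E.diffOn_lim (l := atTop) (C := ∑' g, M g)
        (g := fun (s : Finset H) w => ∑ g ∈ s, u g w) (.of_forall fun s => ⟨?_, ?_⟩) ?_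
      · refine .fun_sum fun g _ => ?_
        rw [show u g = fun w => (trm A J f k (g₀ * g) w).1 from funext (hu g)]
        exact ((SERAa.diff h hf _).mono (ball_subset_closedBall.trans hs)).fst
      · exact fun z hz => (norm_sum_le_of_le s fun g _ => hb g z (ball_subset_closedBall hz)).trans
          (hM.sum_le_tsum s fun g _ => h0 g)
      · exact fun z hz =>
          (Summable.of_norm_bounded hM fun g => hb g z (ball_subset_closedBall hz)).hasSum
    exact (key.differentiableAt (ball_mem_nhds c hr)).differentiableWithinAt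
  · have e : ∀ g', u g' (A.a g w) = J g w ^ k • u (g' * g) w := fun g' => by
      simp only [u, Subgroup.coe_mul, ← mul_assoc, smul_eq_mul]
      rw [A.mul _ (g : G) _ hw, h.coc _ (g : G) _ hw, ← mul_pow]
      congr 1
      have := h.ne g hw
      have := h.ne (g₀ * g') (A.maps g w hw)
      field_simp
    change ∑' g', u g' (A.a g w) = J g w ^ k • ∑' g', u g' w
    simp only [e]
    rw [tsum_const_smul'', ← (Equiv.mulRight g).tsum_eq fun g' => u g' w]
    rfl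
  · obtain ⟨M, hM, hb⟩ := bd {w} isCompact_singleton (singleton_subset_iff.2 hw) ⟨w, rfl⟩
    exact (Summable.of_norm_bounded hM fun g => hb g w rfl).hasSum

end Pool.Agent.P.MP_ab0431_ag.GR

end

section

/-! Step USEP. -/

set_option autoImplicit false

namespace Pool.Agent.P.MP_ab0431_ag.GR

open Set Filter Topology Metric T
open scoped Manifold ContDiff

namespace USEPx

theorem bound {I G : Type} [Group G] {u : I → ℂ} {x : ℂ} {c B : ℝ} {e : I → G} {φ : G → ℝ}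
    (hs : HasSum u x) (hc : 0 ≤ c) (he : Function.Injective e)
    (hu : ∀ h, u h = 0 ∨ (e h ≠ 1 ∧ ‖u h‖ * c = φ (e h)))
    (hφ : ∀ S : Finset G, 1 ∉ S → 3 * ∑ g ∈ S, φ g ≤ B) : 3 * (‖x‖ * c) ≤ B := by
  classical
  have ht : Tendsto (fun S : Finset I => 3 * (‖∑ i ∈ S, u i‖ * c)) atTop (𝓝 (3 * (‖x‖ * c))) :=
    (((continuous_norm.tendsto x).comp hs).mul_const c).const_mul 3
  refine le_of_tendsto' ht fun S => ?_
  have h1 := hφ ((S.filter fun i => u i ≠ 0).map ⟨e, he⟩) (by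
    intro h
    obtain ⟨i, hi, e1⟩ := Finset.mem_map.1 h
    exact ((hu i).resolve_left (Finset.mem_filter.1 hi).2).1 e1)
  rw [Finset.sum_map] at h1
  refine le_trans (mul_le_mul_of_nonneg_left ?_ (by norm_num)) h1
  rw [← Finset.sum_filter_ne_zero S]
  refine (mul_le_mul_of_nonneg_right (norm_sum_le _ _) hc).trans (le_of_eq ?_)
  rw [Finset.sum_mul]
  exact Finset.sum_congr rfl fun i hi =>
    ((hu i).resolve_left (Finset.mem_filter.1 hi).2).2

theorem term {G : Type} [Group G] {A : Act G} {J : G → V → ℂ} {ρ : V → ℝ} (hP : Pk A J ρ)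
    (f : V → ℂ) (k : ℕ) (g : G) {w : V} (hw : w ∈ A.Ω) :
    ‖(f (A.a g w) / J g w) ^ k‖ * ρ w ^ k = (‖f (A.a g w)‖ * ρ (A.a g w)) ^ k := by
  have h1 : ‖J g w‖ ≠ 0 := norm_ne_zero_iff.2 (hP.ne g hw)
  rw [norm_pow, ← mul_pow, norm_div, ← hP.inv g w hw]
  congr 1
  field_simp

theorem core {G : Type} [Group G] {A : Act G} {J : G → V → ℂ} {ρ : V → ℝ} (hP : Pk A J ρ)
    {f t : V → ℂ} {k : ℕ} {H : Subgroup G} {g₁ : G} {h₁ : H} {w : V} (hw : w ∈ A.Ω)
    (hf : f (A.a g₁ w) ≠ 0)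
    (hS : ∀ S : Finset G, 1 ∉ S → 3 * ∑ g ∈ S,
      (‖f (A.a g (A.a g₁ w))‖ * ρ (A.a g (A.a g₁ w))) ^ k ≤ (‖f (A.a g₁ w)‖ * ρ (A.a g₁ w)) ^ k)
    (ht : ∀ w ∈ A.Ω, HasSum (fun h : H => (f (A.a (g₁ * h₁ * h) w) / J (g₁ * h₁ * h) w) ^ k)
      (t w)) :
    t w ≠ 0 ∧ ∀ g ∉ H, ‖t (A.a g w)‖ * ρ (A.a g w) ^ k < ‖t w‖ * ρ w ^ k := by
  classical
  have hw1 := A.maps g₁ w hw
  have hpos : 0 < (‖f (A.a g₁ w)‖ * ρ (A.a g₁ w)) ^ k :=
    pow_pos (mul_pos (norm_pos_iff.2 hf) (hP.pos _ hw1)) k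
  have hρ : 0 ≤ ρ w ^ k := (pow_pos (hP.pos w hw) k).le
  have mv : ∀ g : G, A.a (g * g₁⁻¹) (A.a g₁ w) = A.a g w := fun g => by
    rw [← A.mul _ _ _ hw, inv_mul_cancel_right]
  have b1 := bound (e := fun h : H => g₁ * h₁ * h * g₁⁻¹) ((ht w hw).update h₁⁻¹ 0) hρ
    (fun a b e => Subtype.ext (by simpa using e)) (fun h => by
      by_cases e : h = h₁⁻¹
      · exact Or.inl (by rw [e, Function.update_self])
      · refine Or.inr ⟨fun e' => e (Subtype.ext ?_), ?_⟩
        · rw [mul_inv_eq_one, mul_assoc, mul_eq_left] at e'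
          exact eq_inv_of_mul_eq_one_right e'
        · rw [Function.update_of_ne e, term hP f k _ hw, mv]) hS
  have e0 := term hP f k (g₁ * h₁ * (h₁⁻¹ : H)) hw
  have e1 : g₁ * h₁ * (h₁⁻¹ : H) = g₁ := by simp
  generalize (f (A.a (g₁ * h₁ * (h₁⁻¹ : H)) w) / J (g₁ * h₁ * (h₁⁻¹ : H)) w) ^ k = y at b1 e0
  rw [e1] at e0
  have tri : ‖y‖ ≤ ‖t w‖ + ‖0 - y + t w‖ := by
    have := norm_sub_le (t w) (0 - y + t w)
    rwa [show t w - (0 - y + t w) = y by ring] at this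
  have low : 2 * (‖f (A.a g₁ w)‖ * ρ (A.a g₁ w)) ^ k ≤ 3 * (‖t w‖ * ρ w ^ k) := by
    have := mul_le_mul_of_nonneg_right tri hρ
    rw [add_mul] at this
    linarith
  refine ⟨fun h0 => ?_, fun g hg => ?_⟩
  · rw [h0, norm_zero, zero_mul] at low
    linarith
  · have hg' := A.maps g w hw
    have b2 := bound (e := fun h : H => g₁ * h₁ * h * g * g₁⁻¹) (ht _ hg')
      (pow_pos (hP.pos _ hg') k).le (fun a b e => Subtype.ext (by simpa using e)) (fun h => by
        refine Or.inr ⟨fun e' => hg ?_, ?_⟩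
        · rw [mul_inv_eq_one, mul_assoc, mul_assoc, mul_eq_left, ← mul_assoc] at e'
          rw [eq_inv_of_mul_eq_one_right e']
          exact H.inv_mem (H.mul_mem h₁.2 h.2)
        · rw [term hP f k _ hg', mv, A.mul _ g _ hw]) hS
    linarith

end USEPx

theorem p_USEP (hABE : S_ABE) (hCSEC : S_CSEC) :
    S_USEP := by
  intro G _ A J ρ Z hP hZ
  obtain ⟨F, hF, hF1, hF2⟩ := A.cc
  have hK := hZ.cpt F hF hF1
  have ex := fun w₀ : (Z ∩ F : Set V) =>
    hABE G A J ρ hP w₀.1 (hZ.sub w₀.2.1) (hZ.free _ w₀.2.1)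
  choose f κ r h1 h2 h3 h4 using ex
  obtain ⟨C, hC⟩ := hK.elim_finite_subcover (fun w₀ : (Z ∩ F : Set V) => ball w₀.1 (r w₀))
    (fun _ => isOpen_ball) fun w hw => mem_iUnion.2 ⟨⟨w, hw⟩, mem_ball_self (h2 _)⟩
  have ev := (Filter.eventually_all_finset C).2 fun w₀ _ =>
    (h4 w₀).and (eventually_ge_atTop (κ w₀))
  filter_upwards [ev] with k hk H _
  have ex := fun p : C × (G ⧸ H) =>
    hCSEC G A J ρ p.1.1.1 (f p.1.1) (κ p.1.1) k H p.2.out hP (h1 _) (hk _ p.1.2).2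
  choose t ht1 ht2 using ex
  obtain ⟨N, ⟨e⟩⟩ := Finite.exists_equiv_fin (C × (G ⧸ H))
  refine ⟨N, fun i => t (e.symm i), fun i => ht1 _, fun w hw => ?_⟩
  obtain ⟨g₁, hg₁⟩ := hF2 w (hZ.sub hw)
  obtain ⟨w₀, hw₀, hb⟩ := mem_iUnion₂.1 (hC ⟨hZ.inv g₁ w hw, hg₁⟩)
  obtain ⟨h₁, e₁⟩ := QuotientGroup.mk_out_eq_mul H g₁
  refine ⟨e (⟨w₀, hw₀⟩, (g₁ : G ⧸ H)), ?_⟩
  simp only [e.symm_apply_apply]
  have := ht2 (⟨w₀, hw₀⟩, (g₁ : G ⧸ H))
  simp only [e₁] at this
  exact USEPx.core hP (hZ.sub hw) ((hk _ hw₀).1 _ hb).1 ((hk _ hw₀).1 _ hb).2 this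

end Pool.Agent.P.MP_ab0431_ag.GR

end

section

/-! Step UEMB. -/

set_option autoImplicit false

namespace Pool.Agent.P.MP_ab0431_ag.GR

open Set Filter Topology Metric T
open scoped Manifold ContDiff

namespace UEMBx

theorem embAt_of {G : Type} [Group G] (A : Act G) (J : G → V → ℂ) (Z : Set V) (m : ℕ)
    {ι : Type} [Finite ι] (t : ι → V → ℂ) (h1 : ∀ i, IsSec A J m (t i))
    (h2 : ∀ w ∈ Z, (∃ i, t i w ≠ 0) ∧
      (∀ (v : V) (c : ℂ), (∀ i, fderiv ℂ (t i) w v = c * t i w) → v = 0) ∧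
      ∀ w' ∈ Z, ∀ c : ℂ, (∀ i, t i w = c * t i w') → ∃ g, A.a g w = w') : EmbAt A J Z m := by
  obtain ⟨N, ⟨e⟩⟩ := Finite.exists_equiv_fin ι
  refine ⟨N, fun i => t (e.symm i), fun i => h1 _, fun w hw => ?_⟩
  obtain ⟨⟨i, hi⟩, h3, h4⟩ := h2 w hw
  refine ⟨⟨e i, by simpa using hi⟩, fun v c h => h3 v c fun i => ?_,
    fun w' hw' c h => h4 w' hw' c fun i => ?_⟩
  · simpa using h (e i)
  · simpa using h (e i)

end UEMBx

theorem p_UEMB (hUSEP : S_USEP) :
    S_UEMB := by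
  intro G _ A J ρ Z hP hG hE
  obtain ⟨m₁, N, t, -, ht, hE⟩ := hE
  have h0 := hUSEP G A J ρ Z hP hG
  have h1 := (tendsto_sub_atTop_nat m₁).eventually h0
  filter_upwards [h0, h1, eventually_ge_atTop m₁] with m hm hm' hm1 H _
  obtain ⟨N₁, s, hs, hs'⟩ := hm H
  obtain ⟨N₂, u, hu, hu'⟩ := hm' H
  refine UEMBx.embAt_of _ _ Z m (ι := (Fin N × Fin N₂) ⊕ Fin N₁)
    (Sum.elim (fun x w => t x.1 w * u x.2 w) s) ?_ fun w hw => ⟨?_, ?_, ?_⟩
  · rintro (⟨i, j⟩ | l)
    · have h2 : IsSec (A.res H) (fun g => J g) m₁ (t i) := ⟨(ht i).1, fun g => (ht i).2 g⟩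
      have h3 := h2.smul (hu j)
      rw [Nat.add_sub_cancel' hm1] at h3
      exact h3
    · exact hs l
  · obtain ⟨l, hl, -⟩ := hs' w hw
    exact ⟨Sum.inr l, hl⟩
  · intro v c h
    obtain ⟨j, hj, -⟩ := hu' w hw
    have hΩ : A.Ω ∈ 𝓝 w := A.op.mem_nhds (hG.sub hw)
    refine (hE w hw).2.1 v (c - fderiv ℂ (u j) w v / u j w) fun i => ?_
    have d1 : DifferentiableAt ℂ (t i) w := (ht i).1.differentiableAt hΩ
    have d2 : DifferentiableAt ℂ (u j) w := (hu j).1.differentiableAt hΩ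
    have e : fderiv ℂ (fun w => t i w * u j w) w v = c * (t i w * u j w) := h (Sum.inl (i, j))
    rw [fderiv_fun_mul d1 d2] at e
    simp only [add_apply, smul_apply, smul_eq_mul] at e
    field_simp
    linear_combination e
  · intro w' hw' c h
    obtain ⟨j, hj, -⟩ := hu' w hw
    obtain ⟨g, hg⟩ := (hE w hw).2.2 w' hw' (c * u j w' / u j w) fun i => by
      have e : t i w * u j w = c * (t i w' * u j w') := h (Sum.inl (i, j))
      field_simp
      linear_combination e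
    by_cases hgH : g ∈ H
    · exact ⟨⟨g, hgH⟩, hg⟩
    exfalso
    obtain ⟨l, -, hl⟩ := hs' w hw
    obtain ⟨l', -, hl'⟩ := hs' w' hw'
    have a1 := hl g hgH
    have a2 := hl' g⁻¹ fun hh => hgH (inv_mem_iff.1 hh)
    have e0 : A.a g⁻¹ w' = w := by rw [← hg, A.inv_a g (hG.sub hw)]
    have e1 : s l w = c * s l w' := h (Sum.inr l)
    have e2 : s l' w = c * s l' w' := h (Sum.inr l')
    rw [hg, e1, norm_mul] at a1
    rw [e0, e2, norm_mul] at a2
    have b1 : ρ w' ^ m < ‖c‖ * ρ w ^ m :=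
      lt_of_mul_lt_mul_left (a := ‖s l w'‖) (by linarith) (norm_nonneg _)
    have b2 : ‖c‖ * ρ w ^ m < ρ w' ^ m :=
      lt_of_mul_lt_mul_left (a := ‖s l' w'‖) (by linarith) (norm_nonneg _)
    exact lt_asymm b1 b2

end Pool.Agent.P.MP_ab0431_ag.GR

end

section

/-! Step JETS. -/

set_option autoImplicit false

namespace Pool.Agent.P.MP_ab0431_ag.GR

open Set Filter Topology Metric T
open scoped Manifold ContDiff

namespace JETSx

theorem expand (d k : ℕ) (hd : d < k) (m : ContinuousMultilinearMap ℂ (fun _ : Fin d => C2) ℂ) :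
    ∃ A : ℕ → ℂ, ∀ y : C2,
      m (fun _ => y) = ∑ j ∈ Finset.range k, (y 0 ^ j * y 1 ^ (d - j)) * A j := by
  classical
  let e : Finset (Fin d) → Fin d → C2 := fun s =>
    s.piecewise (fun _ => Pi.single 0 1) fun _ => Pi.single 1 1
  refine ⟨fun j => ∑ s ∈ Finset.univ with s.card = j, m (e s), fun y => ?_⟩
  have h1 : (fun _ : Fin d => y) = (fun _ : Fin d => y 0 • (Pi.single 0 1 : C2)) +
      fun _ : Fin d => y 1 • (Pi.single 1 1 : C2) := by
    funext i j
    fin_cases j <;> simp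
  have h2 : ∀ s : Finset (Fin d), m (s.piecewise (fun _ => y 0 • (Pi.single 0 1 : C2))
      fun _ => y 1 • (Pi.single 1 1 : C2)) = (y 0 ^ s.card * y 1 ^ (d - s.card)) * m (e s) := by
    intro s
    have h3 := m.map_smul_univ (s.piecewise (fun _ => y 0) fun _ => y 1) (e s)
    rw [Finset.prod_piecewise, Finset.prod_const, Finset.prod_const, Finset.univ_inter,
      Finset.card_univ_sdiff, Fintype.card_fin, smul_eq_mul] at h3
    rw [← h3]
    congr 1
    funext i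
    by_cases hi : i ∈ s <;> simp [e, hi]
  rw [h1, m.map_add_univ]
  simp only [h2]
  rw [← Finset.sum_fiberwise_of_maps_to (t := Finset.range k) (g := fun s => s.card)
    (fun s _ => Finset.mem_range.2 (lt_of_le_of_lt (by simpa using s.card_le_univ) hd))]
  refine Finset.sum_congr rfl fun j _ => ?_
  rw [Finset.mul_sum]
  refine Finset.sum_congr rfl fun s hs => ?_
  rw [(Finset.mem_filter.1 hs).2]

end JETSx

open JETSx in
theorem p_JETS :
    S_JETS := by
  intro ι _ r k c f hf hr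
  choose p hp using hf
  have hA := fun l i (d : Fin k) => expand d k d.2 (p l i d)
  choose A hA using hA
  let L : (Fin r → ℂ) →ₗ[ℂ] (ι × Fin k × Fin k → ℂ) :=
    { toFun := fun a t => ∑ l, a l * A l t.1 t.2.1 t.2.2
      map_add' := fun a b => by
        funext t
        simp only [Pi.add_apply, add_mul, Finset.sum_add_distrib]
      map_smul' := fun x a => by
        funext t
        simp only [Pi.smul_apply, smul_eq_mul, RingHom.id_apply, Finset.mul_sum, mul_assoc] }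
  have hk : LinearMap.ker L ≠ ⊥ := L.ker_ne_bot_of_finrank_lt (by
    simpa [Module.finrank_fintype_fun_eq_card, sq] using hr)
  obtain ⟨a, ha, ha0⟩ := (Submodule.ne_bot_iff _).1 hk
  refine ⟨a, ha0, fun i => ?_⟩
  have hz : ∀ y : C2, ∑ l, a l * (p l i).partialSum k y = 0 := by
    intro y
    simp only [FormalMultilinearSeries.partialSum, Finset.mul_sum]
    rw [Finset.sum_comm]
    refine Finset.sum_eq_zero fun d hd => ?_
    have hd' := Finset.mem_range.1 hd
    have := fun l => hA l i ⟨d, hd'⟩ y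
    simp only at this
    simp only [this, Finset.mul_sum]
    rw [Finset.sum_comm]
    refine Finset.sum_eq_zero fun j hj => ?_
    have h0 : ∑ l, a l * A l i ⟨d, hd'⟩ j = 0 :=
      congrFun (LinearMap.mem_ker.1 ha) (i, ⟨d, hd'⟩, ⟨j, Finset.mem_range.1 hj⟩)
    simp only [mul_left_comm (a _)]
    rw [← Finset.mul_sum, h0, mul_zero]
  have h1 : (fun y : C2 => ∑ l, a l * (f l i (c i + y) - (p l i).partialSum k y)) =O[𝓝 0]
      fun y => ‖y‖ ^ k :=
    Asymptotics.IsBigO.fun_sum fun l _ => ((hp l i).isBigO_sub_partialSum_pow k).const_mul_left _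
  have h2 : Tendsto (fun u : C2 => u - c i) (𝓝 (c i)) (𝓝 0) := by
    have : Continuous fun u : C2 => u - c i := by fun_prop
    simpa using this.tendsto (c i)
  refine (h1.comp_tendsto h2).congr_left fun u => ?_
  simp only [Function.comp, mul_sub, Finset.sum_sub_distrib, hz, sub_zero, add_sub_cancel]

end Pool.Agent.P.MP_ab0431_ag.GR

end

section

/-! Step SIEG. -/

set_option autoImplicit false

namespace Pool.Agent.P.MP_ab0431_ag.GR

open Set Filter Topology Metric T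
open scoped Manifold ContDiff

namespace SIEGx

/-- Schwarz lemma of order `k` on the half ball. -/
theorem schw {E : Type} [NormedAddCommGroup E] [NormedSpace ℂ E] (k : ℕ) (c : E) (R B : ℝ)
    (f : E → ℂ) (hd : DifferentiableOn ℂ f (ball c R))
    (hO : f =O[𝓝 c] fun u => ‖u - c‖ ^ k) (hB : ∀ u ∈ ball c R, ‖f u‖ ≤ B)
    (u : E) (hu : u ∈ ball c (R / 2)) : ‖f u‖ ≤ B / 2 ^ k := by
  have hR : 0 < R := by
    have := nonempty_ball.mp ⟨u, hu⟩
    linarith
  have hu' : u ∈ ball c R := ball_subset_ball (by linarith) hu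
  have hB0 : 0 ≤ B := (norm_nonneg _).trans (hB u hu')
  cases k with
  | zero => simpa using hB u hu'
  | succ n =>
    have hc : f c = 0 := by
      obtain ⟨C, hC⟩ := hO.bound
      have h0 := hC.self_of_nhds
      simpa using h0
    have hmaps : MapsTo f (ball c R) (closedBall (f c) B) := by
      intro w hw
      rw [hc, mem_closedBall, dist_zero_right]
      exact hB w hw
    have hn : (f · - f c) =o[𝓝 c] (fun w => ‖w - c‖ ^ n) := by
      have h1 := hO.trans_isLittleO (Asymptotics.isLittleO_pow_sub_pow_sub c (Nat.lt_succ_self n))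
      simpa [hc] using h1
    have h2 := Complex.dist_le_mul_div_pow_of_mapsTo_ball_of_isLittleO hd hmaps hn hu'
    rw [hc, dist_zero_right] at h2
    have h3 : dist u c / R ≤ 1 / 2 := by
      rw [div_le_iff₀ hR]
      have := mem_ball.mp hu
      linarith
    have h4 : (dist u c / R) ^ (n + 1) ≤ (1 / 2) ^ (n + 1) :=
      pow_le_pow_left₀ (by positivity) h3 _
    calc ‖f u‖ ≤ B * (dist u c / R) ^ (n + 1) := h2
      _ ≤ B * (1 / 2) ^ (n + 1) := mul_le_mul_of_nonneg_left h4 hB0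
      _ = B / 2 ^ (n + 1) := by rw [one_div, inv_pow, div_eq_mul_inv]

/-- A function holomorphic on a ball is bounded on the half ball. -/
theorem bdd {E : Type} [NormedAddCommGroup E] [NormedSpace ℂ E] [ProperSpace E] (c : E) (R : ℝ)
    (f : E → ℂ) (hd : DifferentiableOn ℂ f (ball c R)) :
    ∃ B : ℝ, ∀ u ∈ ball c (R / 2), ‖f u‖ ≤ B := by
  rcases le_or_gt R 0 with hR | hR
  · refine ⟨0, fun u hu => ?_⟩
    have := nonempty_ball.mp ⟨u, hu⟩
    linarith
  · have hsub : closedBall c (R / 2) ⊆ ball c R := closedBall_subset_ball (by linarith)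
    obtain ⟨B, hB⟩ := (isCompact_closedBall c (R / 2)).exists_bound_of_continuousOn
      (hd.continuousOn.mono hsub)
    exact ⟨B, fun u hu => hB u (ball_subset_closedBall hu)⟩

end SIEGx

theorem p_SIEG :
    S_SIEG := by
  intro ι _ k c R M f hd hO hcov hM0 hM i u hu
  choose B hB using fun i => SIEGx.bdd (c i) (R i) (f i) (hd i)
  obtain ⟨B₀, hB₀⟩ := (Set.finite_range B).bddAbove
  set S : Set ℝ := {t | ∃ j, ∃ v ∈ ball (c j) (R j / 2), t = ‖f j v‖} with hS
  have hbdd : BddAbove S := by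
    refine ⟨B₀, ?_⟩
    rintro t ⟨j, v, hv, rfl⟩
    exact (hB j v hv).trans (hB₀ ⟨j, rfl⟩)
  have hle : ∀ j, ∀ v ∈ ball (c j) (R j / 2), ‖f j v‖ ≤ sSup S := fun j v hv =>
    le_csSup hbdd ⟨j, v, hv, rfl⟩
  have hall : ∀ j, ∀ v ∈ ball (c j) (R j), ‖f j v‖ ≤ M * sSup S := by
    intro j v hv
    obtain ⟨j', v', hv', h⟩ := hcov j v hv
    exact h.trans (mul_le_mul_of_nonneg_left (hle j' v' hv') hM0)
  obtain ⟨j₀, v₀, hv₀, -⟩ := hcov i u hu
  have hne : S.Nonempty := ⟨_, j₀, v₀, hv₀, rfl⟩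
  have hm0 : 0 ≤ sSup S := (norm_nonneg _).trans (hle j₀ v₀ hv₀)
  have hm : sSup S ≤ M * sSup S / 2 ^ k := by
    refine csSup_le hne ?_
    rintro t ⟨j, v, hv, rfl⟩
    exact SIEGx.schw k (c j) (R j) _ (f j) (hd j) (hO j) (hall j) v hv
  have hp : (0 : ℝ) < 2 ^ k := by positivity
  rw [le_div_iff₀ hp] at hm
  have hz : sSup S = 0 := by
    by_contra hne0
    have hpos : 0 < sSup S := lt_of_le_of_ne hm0 (Ne.symm hne0)
    nlinarith
  have h := hall i u hu
  rw [hz, mul_zero] at h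
  exact norm_le_zero_iff.mp h

end Pool.Agent.P.MP_ab0431_ag.GR

end

section

/-! Step TOD. -/

set_option autoImplicit false

namespace Pool.Agent.P.MP_ab0431_ag.GR

open Set Filter Topology Metric T
open scoped Manifold ContDiff

theorem p_TOD :
    S_TOD := by
  intro Y m h
  obtain ⟨N, σ, hσ, h⟩ := h
  refine ⟨N, σ, fun (p : Y.X) i => σ i (chartAt C2 p) (chartAt C2 p p), hσ, ?_, ?_, ?_, ?_⟩
  · intro (p : Y.X) h0
    obtain ⟨i, hi⟩ := (h _ (chart_mem_atlas C2 p) p (mem_chart_source C2 p)).1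
    exact hi (congrFun h0 i)
  · intro (p : Y.X) (p' : Y.X) c hc
    exact (h _ (chart_mem_atlas C2 p) p (mem_chart_source C2 p)).2.2 _ (chart_mem_atlas C2 p') p'
      (mem_chart_source C2 p') c (fun i => congrFun hc i)
  · intro (e : OpenPartialHomeomorph Y.X C2) (he : e ∈ atlas C2 Y.X) (x : Y.X)
      (hx : x ∈ e.source)
    refine ⟨⟨(fderiv ℂ (chartAt C2 x ∘ e.symm) (e x)).det ^ m, ?_, ?_⟩, (h e he x hx).2.1⟩
    · intro h0
      obtain ⟨i, hi⟩ := (h e he x hx).1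
      apply hi
      rw [(hσ i).2 e he _ (chart_mem_atlas C2 x) x ⟨hx, mem_chart_source C2 x⟩, h0, mul_zero]
    · intro i
      have := (hσ i).2 e he _ (chart_mem_atlas C2 x) x ⟨hx, mem_chart_source C2 x⟩
      rw [mul_comm] at this
      exact this
  · intro q hq
    exact absurd ⟨q, rfl⟩ hq

end Pool.Agent.P.MP_ab0431_ag.GR

end

section

/-! Step ARI. -/

set_option autoImplicit false

namespace Pool.Agent.P.MP_ab0431_ag.GR

open Set Filter Topology Metric T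
open scoped Manifold ContDiff

theorem p_ARI :
    S_ARI := by
  intro C₁
  obtain ⟨c, hc⟩ : ∃ c, c = C₁ + 1 := ⟨_, rfl⟩
  have c0 : 0 < c := by omega
  refine ⟨16 * c * c, by positivity, fun y hy => ?_⟩
  have h1 : 16 * c ≤ y / c := (Nat.le_div_iff_mul_le c0).2 hy
  have h2 : y < c * (y / c + 1) := Nat.lt_mul_div_succ y c0
  have h3 : c * (y / c) ≤ y := Nat.mul_div_le y c
  have h4 : 16 * c * c * (y / (16 * c * c)) ≤ y := Nat.mul_div_le y _
  obtain ⟨n, hn⟩ : ∃ n, y / c = n + 1 := ⟨y / c - 1, by omega⟩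
  generalize y / (16 * c * c) = k at h4 ⊢
  rw [hn] at h1 h2 h3
  have h5 : 16 * c * k < n + 1 + 1 :=
    lt_of_mul_lt_mul_left (a := c) (by linarith) (Nat.zero_le _)
  have h6 : 16 * k ≤ 16 * c * k := Nat.mul_le_mul_right k (by omega)
  have h7 : y ≤ n ^ 2 := by nlinarith
  refine ⟨n, le_trans (Nat.mul_le_mul_right _ (by omega)) h3, ?_, by omega⟩
  calc y ^ k ≤ (n ^ 2) ^ k := Nat.pow_le_pow_left h7 k
    _ = n ^ (2 * k) := (pow_mul n 2 k).symm
    _ ≤ n ^ n := Nat.pow_le_pow_right (by omega) (by omega)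

end Pool.Agent.P.MP_ab0431_ag.GR

end
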