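import Pool.Agent.P.MP_ab0431_ag.GR.IfaceC
import Pool.Agent.P.MP_ab0431_ag.B.Final

section

/-! Step VAMP. -/

set_option autoImplicit false

namespace Pool.Agent.P.MP_ab0431_ag.GR

open Set Filter Topology Metric T
open scoped Manifold ContDiff

open KAMPa in
theorem p_VAMP :
    S_VAMP := by
  intro G _ h H _ c m ⟨N, t, ht, hE⟩
  have hTRANS : S_TRANS := p_TRANS p_IFT
  classical
  let σ : Fin N → OpenPartialHomeomorph (h.Q H) C2 → C2 → ℂ := fun i e u =>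
    if f : ∃ P, h.Fits H e P then t i (f.choose.θ u) * (f.choose.dd u)⁻¹ ^ m else 0
  have hσ : ∀ e : OpenPartialHomeomorph (h.Q H) C2, (∃ P, h.Fits H e P) → ∃ P, h.Fits H e P ∧
      ∀ i, σ i e = fun u => t i (P.θ u) * (P.dd u)⁻¹ ^ m := fun e f =>
    ⟨f.choose, f.choose_spec, fun i => funext fun u => dif_pos f⟩
  have htd : ∀ i (P : h.Par) u, u ∈ P.W → DifferentiableAt ℂ (t i) (P.θ u) := fun i P u hu =>
    (ht i).1.differentiableAt (h.op.mem_nhds (P.mem u hu).1)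
  have hdd : ∀ (P : h.Par) u, u ∈ P.W → DifferentiableAt ℂ (fun u => (P.dd u)⁻¹ ^ m) u :=
    fun P u hu => ((dd_diff P hu).inv (P.det u hu)).pow m
  refine ⟨N, σ, fun i => ⟨fun e he => ?_, fun e he e' he' x hx => ?_⟩,
    fun e he x hx => ?_⟩
  · obtain ⟨P, f, e1⟩ := hσ e he
    rw [e1, f.1]
    exact fun u hu => (((htd i P u hu).comp u (th_diff P hu)).mul
      (hdd P u hu)).differentiableWithinAt
  · obtain ⟨P, f, e1⟩ := hσ e he
    obtain ⟨P', f', e1'⟩ := hσ e' he'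
    obtain ⟨g, hg, e2, e3⟩ := coc hTRANS f f' hx.1 hx.2
    have hu := mem_W f hx.1
    have hu' := mem_W f' hx.2
    have hw := (P.mem _ hu).1
    have e4 : t i (h.a g (P.θ (e x))) =
        (h.j g (P.θ (e x)) / h.toAct.jac g (P.θ (e x))) ^ m * t i (P.θ (e x)) :=
      (ht i).2 ⟨g, hg⟩ _ hw
    have n1 : P.dd (e x) ≠ 0 := P.det _ hu
    have n2 : P'.dd (e' x) ≠ 0 := P'.det _ hu'
    have n3 := h.jne g _ hw
    have n4 := h.toAct.jac_ne g hw
    have e5 : (P.dd (e x))⁻¹ = h.j g (P.θ (e x)) / h.toAct.jac g (P.θ (e x)) *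
        (P'.dd (e' x))⁻¹ * (fderiv ℂ (e' ∘ e.symm) (e x)).det := by
      field_simp
      linear_combination -e3
    rw [e1, e1']
    simp only
    rw [← e2, e4, e5, mul_pow, mul_pow]
    ring
  · obtain ⟨P, f, e1⟩ := hσ e he
    have hu := mem_W f hx
    obtain ⟨⟨i, hi⟩, h2, h3⟩ := hE _ (P.mem _ hu)
    have n1 : (P.dd (e x))⁻¹ ^ m ≠ 0 := pow_ne_zero _ (inv_ne_zero (P.det _ hu))
    refine ⟨⟨i, by rw [e1]; exact mul_ne_zero hi n1⟩, fun v c hv => ?_,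
      fun e' he' y hy c hc => ?_⟩
    · have h4 : fderiv ℂ P.θ (e x) v = 0 := by
        refine h2 _ (c - fderiv ℂ (fun u => (P.dd u)⁻¹ ^ m) (e x) v / (P.dd (e x))⁻¹ ^ m)
          fun i => ?_
        have h5 := hv i
        have h6 := (((htd i P _ hu).hasFDerivAt.comp _ (th_diff P hu).hasFDerivAt).mul
          (hdd P _ hu).hasFDerivAt).fderiv
        rw [e1] at h5
        erw [h6] at h5
        simp only [add_apply, smul_apply, smul_eq_mul,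
          ContinuousLinearMap.comp_apply, Function.comp_apply] at h5
        refine mul_left_cancel₀ n1 ?_
        rw [sub_mul, mul_sub, div_mul_eq_mul_div, mul_div_cancel₀ _ n1]
        linear_combination h5
      have h7 : (P.L ∘ P.θ) =ᶠ[𝓝 (e x)] id :=
        eventually_of_mem (P.op.mem_nhds hu) fun u hu => P.inv u hu
      have h8 := (P.L.hasFDerivAt.comp _ (th_diff P hu).hasFDerivAt).fderiv
      rw [h7.fderiv_eq, fderiv_id] at h8
      have h9 := congrArg (· v) h8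
      simpa [h4] using h9
    · obtain ⟨P', f', e1'⟩ := hσ e' he'
      have hu' := mem_W f' hy
      obtain ⟨g, hg⟩ := h3 _ (P'.mem _ hu') (c * (P'.dd (e' y))⁻¹ ^ m / (P.dd (e x))⁻¹ ^ m)
        fun i => by
          have h5 := hc i
          rw [e1, e1'] at h5
          refine mul_left_cancel₀ n1 ?_
          rw [div_mul_eq_mul_div, mul_div_cancel₀ _ n1]
          linear_combination h5
      refine (eq_cl f hx).trans (Eq.trans ?_ (eq_cl f' hy).symm)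
      exact ((h.cl_eq H ⟨_, P'.mem _ hu'⟩ ⟨_, P.mem _ hu⟩).2 ⟨g, g.2, Subtype.ext hg⟩).symm

end Pool.Agent.P.MP_ab0431_ag.GR

end

section

/-! Step FORMZ. -/

set_option autoImplicit false

namespace Pool.Agent.P.MP_ab0431_ag.GR

open Set Filter Topology Metric T
open scoped Manifold ContDiff

namespace FORMZx

variable {G : Type} [Group G] {h : Hyp G} {H : Subgroup G}

theorem a_mem (g : G) {w : V} (hw : w ∈ h.Zs) : h.a g w ∈ h.Zs :=
  (g • (show h.Z from ⟨w, hw⟩)).2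

theorem ex (c : h.Ch H) {w : V} (hw : w ∈ h.Zs) :
    ∃ (e : OpenPartialHomeomorph (h.Q H) C2) (P : h.Par) (u : C2) (g : G),
      h.Fits H e P ∧ u ∈ P.W ∧ g ∈ H ∧ h.a g w = P.θ u := by
  obtain ⟨e, ⟨P, f⟩, hx⟩ := c (h.cl H ⟨w, hw⟩)
  obtain ⟨g, hg, e1⟩ := (h.cl_eq H _ _).1 (KAMPa.eq_cl f hx).symm
  exact ⟨e, P, _, g, f, KAMPa.mem_W f hx, hg, congrArg (·.1) e1⟩

theorem symm_eq {e : OpenPartialHomeomorph (h.Q H) C2} {P : h.Par} (f : h.Fits H e P) {u : C2}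
    (hu : u ∈ P.W) {g : G} (hg : g ∈ H) {w : V} (hw : w ∈ h.Zs) (e1 : h.a g w = P.θ u) :
    h.cl H ⟨w, hw⟩ ∈ e.source ∧ e (h.cl H ⟨w, hw⟩) = u := by
  have h1 : e.symm u = h.cl H ⟨w, hw⟩ :=
    (f.2 u hu).trans ((h.cl_eq H _ _).2 ⟨g, hg, Subtype.ext e1⟩)
  have h2 : u ∈ e.target := f.1 ▸ hu
  rw [← h1]
  exact ⟨e.map_target h2, e.right_inv h2⟩

theorem uniq {ρ : V → ℝ} (hk : Pk h.toAct (JK h) ρ) {n : ℕ}
    {σ : OpenPartialHomeomorph (h.Q H) C2 → C2 → ℂ}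
    (hσ : ∀ e e' P P', h.Fits H e P → h.Fits H e' P' → ∀ x ∈ e.source ∩ e'.source,
      σ e (e x) = σ e' (e' x) * (fderiv ℂ (e' ∘ e.symm) (e x)).det ^ n)
    {w : V} (hw : w ∈ h.Zs) {e e' : OpenPartialHomeomorph (h.Q H) C2} {P P' : h.Par}
    (f : h.Fits H e P) (f' : h.Fits H e' P') {u u' : C2} (hu : u ∈ P.W) (hu' : u' ∈ P'.W)
    {g g' : G} (hg : g ∈ H) (hg' : g' ∈ H) (e1 : h.a g w = P.θ u) (e1' : h.a g' w = P'.θ u') :
    σ e u * P.dd u ^ n * JK h g' w ^ n = σ e' u' * P'.dd u' ^ n * JK h g w ^ n := by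
  obtain ⟨m, v⟩ := symm_eq f hu hg hw e1
  obtain ⟨m', v'⟩ := symm_eq f' hu' hg' hw e1'
  obtain ⟨k, -, e2, e3⟩ := KAMPa.coc all_TRANS f f' m m'
  have e4 := hσ e e' P P' f f' _ ⟨m, m'⟩
  rw [v, v'] at e2 e3 e4
  have e5 : g'⁻¹ * (k * g) = 1 := by
    refine h.free w hw.1 hw.2 _ ?_
    rw [h.mul _ _ _ hw.1, h.mul _ _ _ hw.1, e1, e2, ← e1', h.toAct.inv_a _ hw.1]
  have e6 : JK h g' w = JK h k (P.θ u) * JK h g w := by
    rw [inv_mul_eq_one.1 e5, hk.coc k g w hw.1, e1]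
  have n4 := h.toAct.jac_ne k (P.mem u hu).1
  have e7 : P'.dd u' = (fderiv ℂ (e' ∘ e.symm) u).det * P.dd u * JK h k (P.θ u) := by
    rw [JK]
    field_simp
    linear_combination -e3
  rw [e4, e6, e7, mul_pow, mul_pow, mul_pow]
  ring

end FORMZx

open FORMZx in
theorem p_FORMZ :
    S_FORMZ := by
  intro G _ h ρ H c n σ hk hσ
  have h1 : ∀ e P, h.Fits H e P → DifferentiableOn ℂ (σ e) P.W := fun e P f =>
    f.1 ▸ hσ.1 e ⟨P, f⟩
  have h2 : ∀ e e' P P', h.Fits H e P → h.Fits H e' P' → ∀ x ∈ e.source ∩ e'.source,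
      σ e (e x) = σ e' (e' x) * (fderiv ℂ (e' ∘ e.symm) (e x)).det ^ n :=
    fun e e' P P' f f' => hσ.2 e ⟨P, f⟩ e' ⟨P', f'⟩
  have key : ∀ w, ∃ z : ℂ, w ∈ h.Zs → ∀ e P u g, h.Fits H e P → u ∈ P.W → g ∈ H →
      h.a g w = P.θ u → z * JK h g w ^ n = σ e u * P.dd u ^ n := by
    intro w
    by_cases hw : w ∈ h.Zs
    · obtain ⟨e, P, u, g, f, hu, hg, e1⟩ := ex c hw
      refine ⟨σ e u * P.dd u ^ n / JK h g w ^ n, fun _ e' P' u' g' f' hu' hg' e1' => ?_⟩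
      rw [div_mul_eq_mul_div, div_eq_iff (pow_ne_zero _ (hk.ne g hw.1))]
      exact uniq hk h2 hw f f' hu hu' hg hg' e1 e1'
    · exact ⟨0, fun h0 => absurd h0 hw⟩
  choose τ hτ using key
  refine ⟨τ, ⟨fun g hg w hw => ?_, fun g P u₁ hu₁ => ?_⟩, fun e P f u hu => ?_⟩
  · have hw' := a_mem g hw
    obtain ⟨e, P, u, g₀, f, hu, hg₀, e1⟩ := ex c hw'
    have k1 := hτ _ hw' e P u g₀ f hu hg₀ e1
    have k2 := hτ _ hw e P u (g₀ * g) f hu (H.mul_mem hg₀ hg) (by rw [h.mul _ _ _ hw.1, e1])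
    rw [hk.coc g₀ g w hw.1, mul_pow] at k2
    refine mul_right_cancel₀ (pow_ne_zero n (hk.ne g₀ hw'.1)) ?_
    linear_combination k1 - k2
  · have hw := P.mem u₁ hu₁
    have hw' := a_mem g hw
    obtain ⟨e₀, P₀, u₀, g₀, f, hu₀, hg₀, e1⟩ := ex c hw'
    have e2 : h.a (g₀ * g) (P.θ u₁) = P₀.θ u₀ := by rw [h.mul _ _ _ hw.1, e1]
    have t1 := (all_TRANS G h P P₀ (g₀ * g) u₁ hu₁ u₀ hu₀ e2).1
    have dφ : DifferentiableAt ℂ (fun v => P₀.L (h.a (g₀ * g) (P.θ v))) u₁ :=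
      P₀.L.differentiableAt.comp u₁ ((h.toAct.diffAt _ hw.1).comp u₁ (KAMPa.th_diff P hu₁))
    have hφ : P₀.L (h.a (g₀ * g) (P.θ u₁)) = u₀ := by rw [e2, P₀.inv u₀ hu₀]
    have d1 : DifferentiableAt ℂ (fun v => σ e₀ (P₀.L (h.a (g₀ * g) (P.θ v)))) u₁ :=
      DifferentiableAt.comp (g := σ e₀) u₁
        (by rw [hφ]; exact (h1 e₀ P₀ f).differentiableAt (P₀.op.mem_nhds hu₀)) dφ
    have d2 : DifferentiableAt ℂ (fun v => P₀.dd (P₀.L (h.a (g₀ * g) (P.θ v)))) u₁ :=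
      DifferentiableAt.comp (g := P₀.dd) u₁ (by rw [hφ]; exact KAMPa.dd_diff P₀ hu₀) dφ
    have d3 : DifferentiableAt ℂ (fun v => JK h g₀ (h.a g (P.θ v))) u₁ :=
      DifferentiableAt.comp (g := JK h g₀) (f := fun v => h.a g (P.θ v)) u₁
        ((hk.hol g₀).differentiableAt (h.op.mem_nhds hw'.1))
        ((h.toAct.diffAt g hw.1).comp u₁ (KAMPa.th_diff P hu₁))
    refine (((d1.mul (d2.pow n)).mul ((d3.pow n).inv
      (pow_ne_zero n (hk.ne g₀ hw'.1)))).congr_of_eventuallyEq ?_).differentiableWithinAt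
    filter_upwards [t1, P.op.mem_nhds hu₁] with v hv hv'
    have hv1 := P.mem v hv'
    have hv2 := a_mem g hv1
    have k1 := hτ _ hv2 e₀ P₀ _ g₀ f hv.1 hg₀ (by rw [hv.2, h.mul _ _ _ hv1.1])
    exact (eq_mul_inv_iff_mul_eq₀ (pow_ne_zero n (hk.ne g₀ hv2.1))).2 k1
  · have hw := P.mem u hu
    have k1 := hτ _ hw e P u 1 f hu H.one_mem (h.one _ hw.1)
    rwa [hk.one hw.1, one_pow, mul_one] at k1

end Pool.Agent.P.MP_ab0431_ag.GR

end

section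

/-! Step ZCOV. -/

set_option autoImplicit false

namespace Pool.Agent.P.MP_ab0431_ag.GR

open Set Filter Topology Metric T
open scoped Manifold ContDiff

namespace ZCOVx

theorem ratio {X : Type} [TopologicalSpace X] {K : Set X} (hK : IsCompact K) {ρ : X → ℝ}
    (hc : ContinuousOn ρ K) (hp : ∀ x ∈ K, 0 < ρ x) :
    ∃ b : ℕ, ∀ x ∈ K, ∀ y ∈ K, ρ y ≤ 2 ^ b * ρ x := by
  obtain ⟨m, hm, h1⟩ := hK.exists_forall_le' hc hp
  obtain ⟨M, h2⟩ := hK.bddAbove_image hc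
  obtain ⟨b, hb⟩ := pow_unbounded_of_one_lt (M / m) (one_lt_two (α := ℝ))
  refine ⟨b, fun x hx y hy => (h2 ⟨y, hy, rfl⟩).trans ?_⟩
  exact ((div_lt_iff₀ hm).1 hb).le.trans (mul_le_mul_of_nonneg_left (h1 x hx) (by positivity))

end ZCOVx

theorem p_ZCOV :
    S_ZCOV := by
  intro G _ h ρ hρ
  have hc := COVa.cpt h ⊤
  choose e he hx using all_CHART G h ⊤
  choose P hP using he
  have hR : ∀ x, ∃ R > 0, closedBall (e x x) R ⊆ (P x).W := fun x =>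
    nhds_basis_closedBall.mem_iff.1 ((P x).op.mem_nhds ((hP x).1 ▸ (e x).map_source (hx x)))
  choose R hR0 hRW using hR
  obtain ⟨t, ht⟩ := isCompact_univ.elim_finite_subcover
    (fun x => (e x).source ∩ e x ⁻¹' ball (e x x) (R x / 2))
    (fun x => (e x).isOpen_inter_preimage isOpen_ball)
    fun x _ => mem_iUnion.2 ⟨x, hx x, mem_ball_self (half_pos (hR0 x))⟩
  let ι : Fin t.card → h.Q ⊤ := fun i => (t.equivFin.symm i).1
  have hK : IsCompact (⋃ i, (P (ι i)).θ '' closedBall (e (ι i) (ι i)) (R (ι i))) :=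
    isCompact_iUnion fun i => (isCompact_closedBall _ _).image_of_continuousOn
      ((P (ι i)).hol.continuousOn.mono (hRW _))
  have hΩ : (⋃ i, (P (ι i)).θ '' closedBall (e (ι i) (ι i)) (R (ι i))) ⊆ h.Ω :=
    iUnion_subset fun i => image_subset_iff.2 fun u hu => ((P (ι i)).mem u (hRW _ hu)).1
  obtain ⟨b, hb⟩ := ZCOVx.ratio hK (hρ.cont.mono hΩ) fun w hw => hρ.pos w (hΩ hw)
  refine ⟨t.card, b, fun i => P (ι i), fun i => e (ι i) (ι i), fun i => R (ι i),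
    fun i => ⟨hR0 _, ball_subset_closedBall.trans (hRW _)⟩, fun w hw => ?_,
    fun i j u hu u' hu' => hb _ (mem_iUnion.2 ⟨i, u, ball_subset_closedBall hu, rfl⟩) _
      (mem_iUnion.2 ⟨j, u', ball_subset_closedBall hu', rfl⟩)⟩
  obtain ⟨x, hxt, h1, h2⟩ := mem_iUnion₂.1 (ht (mem_univ (h.cl ⊤ ⟨w, hw⟩)))
  have hi : ι (t.equivFin ⟨x, hxt⟩) = x := by simp [ι]
  have hu : e x (h.cl ⊤ ⟨w, hw⟩) ∈ (P x).W := (hP x).1 ▸ (e x).map_source h1
  have h3 := (hP x).2 _ hu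
  rw [(e x).left_inv h1] at h3
  obtain ⟨g, -, hg⟩ := (h.cl_eq ⊤ _ _).1 h3.symm
  refine ⟨g, t.equivFin ⟨x, hxt⟩, e x (h.cl ⊤ ⟨w, hw⟩), ?_, ?_⟩
  · simp only [hi]
    exact h2
  · simp only [hi]
    exact congrArg Subtype.val hg

end Pool.Agent.P.MP_ab0431_ag.GR

end

section

/-! Step ZBND. -/

set_option autoImplicit false

namespace Pool.Agent.P.MP_ab0431_ag.GR

open Set Filter Topology Metric T
open scoped Manifold ContDiff

namespace ZBNDx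

variable {G : Type} [Group G] {h : Hyp G} {ρ : V → ℝ}

/-- The normalised translate. -/
noncomputable def nf (h : Hyp G) (n : ℕ) (τ : V → ℂ) (g : G) (w : V) : ℂ :=
  τ (h.a g w) / JK h g w ^ n

theorem zs_a (g : G) {w : V} (hw : w ∈ h.Zs) : h.a g w ∈ h.Zs :=
  ⟨h.maps g _ hw.1, by rw [h.aut g _ hw.1, hw.2, mul_zero]⟩

theorem norm_nf (hP : Pk h.toAct (JK h) ρ) (n : ℕ) (τ : V → ℂ) (g : G) {w : V} (hw : w ∈ h.Ω) :
    ‖nf h n τ g w‖ * ρ w ^ n = ‖τ (h.a g w)‖ * ρ (h.a g w) ^ n := by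
  have h1 : ‖JK h g w‖ ≠ 0 := norm_ne_zero_iff.2 (hP.ne g hw)
  rw [nf, norm_div, norm_pow, ← hP.inv g w hw, mul_pow]
  field_simp

theorem norm_aut (hP : Pk h.toAct (JK h) ρ) (n : ℕ) (τ : V → ℂ) (g : G) {w : V} (hw : w ∈ h.Ω)
    (e : τ (h.a g w) = JK h g w ^ n * τ w) :
    ‖τ (h.a g w)‖ * ρ (h.a g w) ^ n = ‖τ w‖ * ρ w ^ n := by
  rw [e, norm_mul, norm_pow, ← hP.inv g w hw, mul_pow]
  ring

theorem diff_nf (hP : Pk h.toAct (JK h) ρ) {H : Subgroup G} {n : ℕ} {τ : V → ℂ}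
    (hτ : ZSec h H n τ) (g : G) (P : h.Par) :
    DifferentiableOn ℂ (fun u => nf h n τ g (P.θ u)) P.W := by
  have h1 : DifferentiableOn ℂ (fun u => JK h g (P.θ u)) P.W :=
    (hP.hol g).comp P.hol fun u hu => (P.mem u hu).1
  have h2 : DifferentiableOn ℂ (fun u => (JK h g (P.θ u) ^ n)⁻¹) P.W :=
    (h1.pow n).inv fun u hu => pow_ne_zero n (hP.ne g (P.mem u hu).1)
  refine ((hτ.2 g P).mul h2).congr fun u _ => ?_
  rw [nf, div_eq_mul_inv]
  rfl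

theorem rep (hP : Pk h.toAct (JK h) ρ) {H : Subgroup G} {n : ℕ} {τ : V → ℂ}
    (hτ : ∀ g ∈ H, ∀ w ∈ h.Zs, τ (h.a g w) = JK h g w ^ n * τ w) (g : G) {w : V}
    (hw : w ∈ h.Zs) :
    ‖τ w‖ * ρ w ^ n = ‖nf h n τ (g : G ⧸ H).out⁻¹ (h.a g w)‖ * ρ (h.a g w) ^ n := by
  have h1 : (g : G ⧸ H).out⁻¹ * g ∈ H := QuotientGroup.eq.1 (QuotientGroup.out_eq' _)
  rw [norm_nf hP n τ _ (h.maps g w hw.1), ← h.mul _ _ _ hw.1,
    norm_aut hP n τ _ hw.1 (hτ _ h1 w hw)]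

theorem sum_nf {r : ℕ} (n : ℕ) (a : Fin r → ℂ) (τ : Fin r → V → ℂ) (g : G) (w : V) :
    ∑ l, a l * nf h n (τ l) g w = nf h n (fun w => ∑ l, a l * τ l w) g w := by
  simp only [nf, Finset.sum_div, mul_div_assoc]

end ZBNDx

open ZBNDx in
theorem p_ZBND (hJETS : S_JETS) (hSIEG : S_SIEG) (hZCOV : S_ZCOV) :
    S_ZBND := by
  intro G _ h ρ hP
  obtain ⟨N, b, P, c, R, h1, h2, h3⟩ := hZCOV G h ρ hP
  refine ⟨N * (b + 1) ^ 2, fun H _ n r τ hn hτ hr => ?_⟩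
  have : Fintype (G ⧸ H) := Fintype.ofFinite _
  have hc : Fintype.card ((G ⧸ H) × Fin N) * ((b + 1) * n) ^ 2 < r := by
    rw [Fintype.card_prod, Fintype.card_fin, ← Nat.card_eq_fintype_card, ← Subgroup.index_eq_card]
    refine lt_of_eq_of_lt ?_ hr
    ring
  have hd : ∀ l (x : (G ⧸ H) × Fin N), DifferentiableOn ℂ
      (fun u => nf h n (τ l) x.1.out⁻¹ ((P x.2).θ u)) (ball (c x.2) (R x.2)) :=
    fun l x => (diff_nf hP (hτ l) _ _).mono (h1 x.2).2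
  obtain ⟨a, ha, hO⟩ := hJETS ((G ⧸ H) × Fin N) r ((b + 1) * n) (fun x => c x.2)
    (fun l x u => nf h n (τ l) x.1.out⁻¹ ((P x.2).θ u)) (fun l x => an_of_ev (by
      filter_upwards [ball_mem_nhds (c x.2) (h1 x.2).1] with y hy
      exact (hd l x).differentiableAt (isOpen_ball.mem_nhds hy))) hc
  have hT : ∀ g ∈ H, ∀ w ∈ h.Zs,
      (fun w => ∑ l, a l * τ l w) (h.a g w) = JK h g w ^ n * (fun w => ∑ l, a l * τ l w) w := by
    intro g hg w hw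
    simp only [Finset.mul_sum]
    refine Finset.sum_congr rfl fun l _ => ?_
    rw [(hτ l).1 g hg w hw]
    ring
  have key : ∀ w ∈ h.Zs, ∃ x : (G ⧸ H) × Fin N, ∃ u ∈ ball (c x.2) (R x.2 / 2),
      ‖∑ l, a l * τ l w‖ * ρ w ^ n =
        ‖∑ l, a l * nf h n (τ l) x.1.out⁻¹ ((P x.2).θ u)‖ * ρ ((P x.2).θ u) ^ n := by
    intro w hw
    obtain ⟨g, i, u, hu, e⟩ := h2 w hw
    refine ⟨((g : G ⧸ H), i), u, hu, ?_⟩
    have h4 := rep (τ := fun w => ∑ l, a l * τ l w) hP hT g hw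
    rw [e, ← sum_nf] at h4
    exact h4
  have half : ∀ i, ball (c i) (R i / 2) ⊆ ball (c i) (R i) :=
    fun i => ball_subset_ball (half_le_self (h1 i).1.le)
  have hz := hSIEG ((G ⧸ H) × Fin N) ((b + 1) * n) (fun x => c x.2) (fun x => R x.2)
    ((2 ^ b) ^ n) (fun x u => ∑ l, a l * nf h n (τ l) x.1.out⁻¹ ((P x.2).θ u))
    (fun x => DifferentiableOn.fun_sum fun l _ => (hd l x).const_mul (a l)) hO
    (fun x u hu => by
      have hm := (P x.2).mem u ((h1 x.2).2 hu)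
      obtain ⟨y, u', hu', e⟩ := key _ (zs_a x.1.out⁻¹ hm)
      refine ⟨y, u', hu', ?_⟩
      have h4 := norm_nf hP n (fun w => ∑ l, a l * τ l w) x.1.out⁻¹ hm.1
      rw [← sum_nf] at h4
      have h5 : ‖∑ l, a l * nf h n (τ l) x.1.out⁻¹ ((P x.2).θ u)‖ * ρ ((P x.2).θ u) ^ n =
          ‖∑ l, a l * nf h n (τ l) y.1.out⁻¹ ((P y.2).θ u')‖ * ρ ((P y.2).θ u') ^ n :=
        h4.trans e
      have hp : 0 < ρ ((P x.2).θ u) ^ n := pow_pos (hP.pos _ hm.1) n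
      have hm' := (P y.2).mem u' ((h1 y.2).2 (half _ hu'))
      have h6 : ρ ((P y.2).θ u') ^ n ≤ (2 ^ b) ^ n * ρ ((P x.2).θ u) ^ n := by
        rw [← mul_pow]
        exact pow_le_pow_left₀ (hP.pos _ hm'.1).le (h3 _ _ u hu u' (half _ hu')) n
      refine le_of_mul_le_mul_right ?_ hp
      refine h5.trans_le ((mul_le_mul_of_nonneg_left h6 (norm_nonneg _)).trans_eq ?_)
      ring)
    (by positivity)
    (by
      rw [← pow_mul]
      exact pow_lt_pow_right₀ one_lt_two (by nlinarith))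
  refine ⟨a, ha, fun w hw => ?_⟩
  obtain ⟨y, u', hu', e⟩ := key w hw
  have h4 : ∑ l, a l * nf h n (τ l) y.1.out⁻¹ ((P y.2).θ u') = 0 := hz y u' (half _ hu')
  rw [h4, norm_zero, zero_mul] at e
  exact norm_eq_zero.1 ((mul_eq_zero.1 e).resolve_right (pow_pos (hP.pos _ hw.1) n).ne')

end Pool.Agent.P.MP_ab0431_ag.GR

end

section

/-! Step KSQ. -/

set_option autoImplicit false

namespace Pool.Agent.P.MP_ab0431_ag.GR

open Set Filter Topology Metric T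
open scoped Manifold ContDiff

theorem p_KSQ (hFORMZ : S_FORMZ) (hZBND : S_ZBND) :
    S_KSQ := by
  intro G _ h ρ hp
  obtain ⟨C, hC⟩ := hZBND G h ρ hp
  refine ⟨2 * C, fun H _ c => ?_⟩
  filter_upwards [eventually_gt_atTop 0] with n hn r σ hσ hl
  by_contra hlt
  have hr : C * H.index * n ^ 2 < r := by
    have : 2 * C * H.index * n ^ 2 = 2 * (C * H.index * n ^ 2) := by ring
    omega
  choose τ h1 h2 using fun l => hFORMZ G h ρ H c n (σ l) hp (hσ l)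
  obtain ⟨a, ha, h3⟩ := hC H n r τ hn h1 hr
  refine ha (hl a ?_)
  rintro e ⟨P, hP⟩ x hx
  have hu : e x ∈ P.W := hP.1 ▸ e.map_source hx
  have h4 := h3 _ (P.mem _ hu)
  simp only [h2 _ e P hP _ hu, ← mul_assoc, ← Finset.sum_mul] at h4
  exact (mul_eq_zero.1 h4).resolve_right (pow_ne_zero _ (P.det _ hu))

end Pool.Agent.P.MP_ab0431_ag.GR

end

section

/-! Step ABS2. -/

set_option autoImplicit false

namespace Pool.Agent.P.MP_ab0431_ag.GR

open Set Filter Topology Metric T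
open scoped Manifold ContDiff

theorem p_ABS2 (hUEMB : S_UEMB) (hVAMP : S_VAMP) (hKSQ : S_KSQ) :
    S_ABS2 := by
  intro G _ D
  obtain ⟨k, hk, s, hs, hr⟩ := all_HYP G D.toAct D.J _ D.pk D.fix
  let h : Hyp G :=
    { D.toAct with
      s := s
      j := fun g w => D.J g w ^ k
      pd := all_PD G D.toAct D.J _ D.pk
      shol := hs.1
      jhol := fun g => (D.pk.hol g).pow k
      jne := fun g w hw => pow_ne_zero _ (D.pk.ne g hw)
      aut := hs.2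
      reg := fun w hw h0 => (hr w hw h0).1
      free := fun w hw h0 => (hr w hw h0).2 }
  have hsc : SimplyConnectedSpace h.Z := by
    refine all_LEF G h D.Φ k (by exact_mod_cast hk) D.sm D.psh (fun g w hw => ?_) D.tf
    have := congrArg (· ^ k) (D.pk.inv g w hw)
    simp only [mul_pow, ← Real.exp_nat_mul, mul_neg, ← norm_pow] at this
    exact this
  have hpk : Pk h.toAct (JK h) _ := all_PROD G D.toAct D.J _ _ k D.pk D.wpk hk
  have good : Good h.toAct h.Zs := by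
    refine ⟨fun w hw => hw.1, fun g w hw => (g • (show h.Z from ⟨w, hw⟩)).2, fun F hF hF' => ?_,
      fun w hw => h.free w hw.1 hw.2⟩
    have e : h.Zs ∩ F = F ∩ s ⁻¹' {0} :=
      Set.ext fun w => ⟨fun a => ⟨a.2, a.1.2⟩, fun a => ⟨⟨hF' a.1, a.2⟩, a.1⟩⟩
    rw [e]
    exact hF.of_isClosed_subset ((hs.1.continuousOn.mono hF').preimage_isClosed_of_isClosed
      hF.isClosed isClosed_singleton) inter_subset_left
  obtain ⟨m₀, hm⟩ := eventually_atTop.1 (hUEMB G h.toAct (JK h) _ h.Zs hpk good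
    (all_EMB G h.toAct _ _ h.Zs hpk good.sub good.inv good.cpt good.free))
  obtain ⟨C, hC⟩ := hKSQ G h _ hpk
  refine ⟨m₀, C, fun H _ => ?_⟩
  have key : letI := h.cs H (all_CHART G h H); KAmple (h.Q H) := by
    obtain ⟨N, t, ht⟩ := hm (m₀ + 1) (Nat.le_succ _) H
    exact all_KAMP G h H _ ⟨m₀ + 1, N, t, Nat.succ_pos _, ht⟩
  obtain ⟨c1, c2, c3, -, -, y, h3⟩ := all_COV G h H
  exact ⟨@Surf.mk (h.Q H) _ (h.cs H (all_CHART G h H)) (all_MFD G h H _ (all_CHART G h ⊤)).1 c1 c2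
    c3 key, y, fun m hm' => hVAMP G h H _ m (hm m hm' H), hC H _, h3⟩

end Pool.Agent.P.MP_ab0431_ag.GR

end
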