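import Pool.Agent.P.MP_ab0431_ag.GR.MA
import Pool.Agent.P.MP_ab0431_ag.GR.MB
import Pool.Agent.P.MP_ab0431_ag.GR.MC
import Pool.Agent.P.MP_ab0431_ag.GR.MD
import Pool.Agent.P.MP_ab0431_ag.GR.ME
import Pool.Agent.P.MP_ab0431_ag.GR.Asm
import Pool.Agent.P.MP_a11f68_mp.Q.Fibres

/-! Assembly of the steps. -/

namespace Pool.Agent.P.MP_ab0431_ag.GR

theorem t_RIEM : S_RIEM := UB.p_RIEM
theorem t_MINM : S_MINM := UB.p_MINM
theorem t_AFORM : S_AFORM := UB.p_AFORM (UB.p_DIVA UB.p_RIEM) UB.p_MINM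
theorem t_ARG : S_ARG := MP_a11f68_mp.Q.p_ARG
theorem t_MOVE : S_MOVE := p_MOVE
theorem t_RETR : S_RETR := p_RETR t_MOVE
theorem t_HEQ : S_HEQ := p_HEQ
theorem t_CHAIN : S_CHAIN := p_CHAIN t_RETR t_HEQ
theorem t_PI1 : S_PI1 := p_PI1
theorem t_CONN : S_CONN := p_CONN
theorem t_LINV : S_LINV := p_LINV
theorem t_RPT : S_RPT := p_RPT t_RIEM
theorem t_INV1 : S_INV1 := p_INV1 t_LINV t_RPT
theorem t_INV2 : S_INV2 := p_INV2
theorem t_INV3 : S_INV3 := p_INV3 t_MINM t_AFORM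
theorem t_INV : S_INV := p_INV t_INV1 t_INV2 t_INV3 t_RPT
theorem t_HYPC : S_HYPC := p_HYPC
theorem t_FLAT : S_FLAT := p_FLAT
theorem t_PARC : S_PARC := p_PARC
theorem t_NORM : S_NORM := p_NORM
theorem t_ROOTS : S_ROOTS := p_ROOTS t_ARG t_PARC
theorem t_PROJ : S_PROJ := p_PROJ t_ROOTS t_NORM
theorem t_DICH : S_DICH := p_DICH t_PROJ
theorem t_TR : S_TR := p_TR
theorem t_TR2 : S_TR2 := p_TR2 t_LINV
theorem t_REG1 : S_REG1 := p_REG1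
theorem t_REG2 : S_REG2 := p_REG2 t_HYPC t_TR2
theorem t_SLICE : S_SLICE := p_SLICE
theorem t_SGD : S_SGD := p_SGD t_INV t_TR
theorem t_DEG : S_DEG := p_DEG t_REG1 t_TR t_FLAT
theorem t_NREG : S_NREG := p_NREG t_REG1 t_REG2 t_SLICE t_SGD t_DEG
theorem t_SPREAD : S_SPREAD := p_SPREAD t_REG1 t_NREG t_DICH
theorem t_BAD : S_BAD := p_BAD t_SPREAD
theorem t_FSG : S_FSG := p_FSG
theorem t_HOM : S_HOM := p_HOM t_FSG t_NREG t_BAD t_CONN t_CHAIN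
theorem t_ABE : S_ABE := p_ABE
theorem t_CSEC : S_CSEC := p_CSEC
theorem t_USEP : S_USEP := p_USEP t_ABE t_CSEC
theorem t_UEMB : S_UEMB := p_UEMB t_USEP
theorem t_VAMP : S_VAMP := p_VAMP
theorem t_FORMZ : S_FORMZ := p_FORMZ
theorem t_JETS : S_JETS := p_JETS
theorem t_SIEG : S_SIEG := p_SIEG
theorem t_ZCOV : S_ZCOV := p_ZCOV
theorem t_ZBND : S_ZBND := p_ZBND t_JETS t_SIEG t_ZCOV
theorem t_KSQ : S_KSQ := p_KSQ t_FORMZ t_ZBND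
theorem t_ABS2 : S_ABS2 := p_ABS2 t_UEMB t_VAMP t_KSQ
theorem t_TOD : S_TOD := p_TOD
theorem t_ARI : S_ARI := p_ARI

end Pool.Agent.P.MP_ab0431_ag.GR
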